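import Pool.Agent.TH28.FL.Inv

/-! The Lie algebra `ad s ⊗ K`. -/

set_option autoImplicit false

universe u v

namespace Pool.Agent.TH28.FL

open Module Matrix MvPolynomial

section

variable {k : Type u} [Field k] {s : Type v} [LieRing s] [LieAlgebra k s] {d : ℕ}
  (e : Basis (Fin d) k s) (K : Type u) [Field K] [Algebra k K]

/-- the Lie algebra `ad s ⊗ K` -/
def aK : Submodule K (Matrix (Fin d) (Fin d) K) := Submodule.span K (Set.range (adR e K))

theorem adR_mem (v : s) : adR e K v ∈ aK e K := Submodule.subset_span ⟨v, rfl⟩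

theorem aK_br : ∀ a ∈ aK e K, ∀ b ∈ aK e K, a * b - b * a ∈ aK e K := by
  intro a ha b hb
  unfold aK at ha hb
  induction ha using Submodule.span_induction with
  | mem a ha =>
    obtain ⟨v, rfl⟩ := ha
    induction hb using Submodule.span_induction with
    | mem b hb =>
      obtain ⟨w, rfl⟩ := hb
      rw [← adR_lie]
      exact adR_mem e K _
    | zero => rw [Matrix.mul_zero, Matrix.zero_mul, sub_zero]; exact (aK e K).zero_mem
    | add b b' _ _ h h' =>
      rw [Matrix.mul_add, Matrix.add_mul, add_sub_add_comm]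
      exact (aK e K).add_mem h h'
    | smul c b _ h =>
      rw [Matrix.mul_smul, Matrix.smul_mul, ← smul_sub]
      exact (aK e K).smul_mem _ h
  | zero => rw [Matrix.mul_zero, Matrix.zero_mul, sub_zero]; exact (aK e K).zero_mem
  | add b b' _ _ h h' =>
    rw [Matrix.mul_add, Matrix.add_mul, add_sub_add_comm]
    exact (aK e K).add_mem h h'
  | smul c b _ h =>
    rw [Matrix.mul_smul, Matrix.smul_mul, ← smul_sub]
    exact (aK e K).smul_mem _ h

theorem adR_der (δ : Derivation k K K) (v : s) : (adR e K v).map δ = 0 := by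
  ext i j
  simp [adR]

theorem smul_map_der (δ : Derivation k K K) (c : K) (A : Matrix (Fin d) (Fin d) K) :
    (c • A).map δ = δ c • A + c • A.map δ := by
  ext i j
  simp only [Matrix.map_apply, Matrix.smul_apply, Matrix.add_apply, smul_eq_mul,
    Derivation.leibniz]
  ring

theorem aK_der (δ : Derivation k K K) : ∀ a ∈ aK e K, a.map δ ∈ aK e K := by
  intro a ha
  have ha' := ha
  unfold aK at ha'
  induction ha' using Submodule.span_induction with
  | mem a h0 =>
    obtain ⟨v, rfl⟩ := h0
    rw [adR_der]; exact (aK e K).zero_mem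
  | zero =>
    have : (0 : Matrix (Fin d) (Fin d) K).map δ = 0 := by ext i j; simp
    rw [this]; exact (aK e K).zero_mem
  | add b b' h1 h2 h h' =>
    rw [map_add_der]
    exact (aK e K).add_mem (h h1) (h' h2)
  | smul c b h1 h =>
    rw [smul_map_der]
    exact (aK e K).add_mem ((aK e K).smul_mem _ h1) ((aK e K).smul_mem _ (h h1))

variable [FiniteDimensional k s] [LieAlgebra.IsKilling k s]

theorem aK_sum : ∀ a ∈ aK e K, a = ∑ i, (a * adR e K (dualE e i)).trace • adR e K (e i) := by
  intro a ha
  have ha' := ha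
  unfold aK at ha'
  induction ha' using Submodule.span_induction with
  | mem a h0 =>
    obtain ⟨v, rfl⟩ := h0
    have h1 : ∀ i, (adR e K v * adR e K (dualE e i)).trace • adR e K (e i) =
        adR e K (killingForm k s (dualE e i) v • e i) := by
      intro i
      rw [Matrix.trace_mul_comm, adR_trace, adR_smul, algebraMap_smul]
    simp only [h1]
    rw [← adR_sum, ← e_sum]
  | zero => simp
  | add b b' h1 h2 h h' =>
    conv_lhs => rw [h h1, h' h2]
    rw [← Finset.sum_add_distrib]
    refine Finset.sum_congr rfl fun i _ => ?_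
    rw [Matrix.add_mul, Matrix.trace_add, add_smul]
  | smul c b h1 h =>
    conv_lhs => rw [h h1]
    rw [Finset.smul_sum]
    refine Finset.sum_congr rfl fun i _ => ?_
    rw [Matrix.smul_mul, Matrix.trace_smul, smul_assoc]

theorem aK_nd : ∀ a ∈ aK e K, (∀ b ∈ aK e K, (a * b).trace = 0) → a = 0 := by
  intro a ha h
  rw [aK_sum e K a ha]
  refine Finset.sum_eq_zero fun i _ => ?_
  rw [h _ (adR_mem e K _), zero_smul]

/-- the extension of scalars of a subspace -/
def sK (V : Submodule k s) : Submodule K (Matrix (Fin d) (Fin d) K) :=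
  Submodule.span K (adR e K '' (V : Set s))

end

/-- The property of a subspace `V` of `s`: the form `lambda` vanishes on the nilpotent matrices
of `ad s ⊗ K` orthogonal to `V`. -/
def P4 {k : Type u} [Field k] {s : Type v} [LieRing s] [LieAlgebra k s] {d : ℕ}
    (e : Basis (Fin d) k s) (V : Submodule k s) : Prop :=
  ∀ (K : Type u) [Field K] [Algebra k K] (δ : Derivation k K K),
    ∀ X ∈ aK e K, (∀ v ∈ V, (X * adR e K v).trace = 0) → IsNilpotent X → Lam δ X 0

end Pool.Agent.TH28.FL
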