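import Pool.Agent.TH28.FL.Lam

/-! Additivity of the form `lambda` on pencils of nilpotent matrices. -/

set_option autoImplicit false

namespace Pool.Agent.TH28.FL

open Module Matrix Polynomial

section

variable {k K : Type*} [Field k] [Field K] [Algebra k K] (δ : Derivation k K K) {n : ℕ}

/-- a derivation applied to the coefficients -/
noncomputable def dmap (p : K[X]) : K[X] := p.sum fun i a => monomial i (δ a)

theorem eval_dmap (c : k) (p : K[X]) :
    (dmap δ p).eval (algebraMap k K c) = δ (p.eval (algebraMap k K c)) := by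
  unfold dmap
  rw [Polynomial.sum_def, Polynomial.eval_finsetSum, Polynomial.eval_eq_sum, Polynomial.sum_def,
    map_sum]
  refine Finset.sum_congr rfl fun i _ => ?_
  rw [Polynomial.eval_monomial, ← map_pow, mul_comm, mul_comm (p.coeff i), ← Algebra.smul_def,
    ← Algebra.smul_def, Derivation.map_smul]

/-- evaluation of a matrix of polynomials -/
noncomputable def ev (c : K) (X : Matrix (Fin n) (Fin n) K[X]) : Matrix (Fin n) (Fin n) K :=
  (Polynomial.evalRingHom c).mapMatrix X

theorem ev_apply (c : K) (X : Matrix (Fin n) (Fin n) K[X]) (i j : Fin n) :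
    ev c X i j = (X i j).eval c := rfl

theorem ev_mul (c : K) (X Y : Matrix (Fin n) (Fin n) K[X]) : ev c (X * Y) = ev c X * ev c Y :=
  map_mul _ _ _

theorem ev_one (c : K) : ev c (1 : Matrix (Fin n) (Fin n) K[X]) = 1 := map_one _

theorem ev_trace (c : K) (X : Matrix (Fin n) (Fin n) K[X]) :
    (ev c X).trace = X.trace.eval c := by
  simp only [Matrix.trace, Matrix.diag_apply, ev_apply, Polynomial.eval_finsetSum]

theorem exists_lam_poly (X : Matrix (Fin n) (Fin n) K[X]) (hX : IsNilpotent X) :
    ∃ f : K[X], ∀ c : k, Lam δ (ev (algebraMap k K c) X) (f.eval (algebraMap k K c)) := by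
  obtain ⟨P, Q, l, h⟩ := exists_adapted X hX
  refine ⟨(X * (P.map (dmap δ) * Q)).trace, fun c => ?_⟩
  refine ⟨ev (algebraMap k K c) P, ev (algebraMap k K c) Q, ⟨?_, ?_, ?_⟩, ?_⟩
  · rw [← ev_mul, h.pq, ev_one]
  · rw [← ev_mul, h.qp, ev_one]
  · intro i j hij
    rw [← ev_mul, ← ev_mul, ev_apply, h.triangular hij, Polynomial.eval_zero]
  · rw [← ev_trace, ev_mul, ev_mul]
    congr 3
    ext i j
    rw [ev_apply, Matrix.map_apply, Matrix.map_apply, ev_apply, eval_dmap]

theorem Lam.smul {x : Matrix (Fin n) (Fin n) K} {v : K} (h : Lam δ x v) (c : K) :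
    Lam δ (c • x) (c * v) := by
  obtain ⟨P, Q, hT, rfl⟩ := h
  refine ⟨P, Q, ⟨hT.pq, hT.qp, fun i j hij => ?_⟩, ?_⟩
  · rw [Matrix.mul_smul, Matrix.smul_mul, Matrix.smul_apply, hT.tri i j hij, smul_zero]
  · rw [Matrix.smul_mul, Matrix.trace_smul, smul_eq_mul]

theorem poly_aux [Infinite k] (f f' : K[X])
    (h : ∀ c : k, c ≠ 0 → f.eval (algebraMap k K c) =
      algebraMap k K c * f'.eval (algebraMap k K c)⁻¹) :
    f.eval 1 = f.eval 0 + f'.eval 0 := by
  set N := f'.natDegree with hN
  have h1 : (X : K[X]) ^ N * f = X * reflect N f' := by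
    refine Polynomial.eq_of_infinite_eval_eq _ _ ?_
    have hinj : Function.Injective (algebraMap k K) := (algebraMap k K).injective
    have hinf : Set.Infinite ((algebraMap k K) '' {c : k | c ≠ 0}) := by
      refine Set.Infinite.image hinj.injOn ?_
      exact (Set.finite_singleton (0 : k)).infinite_compl
    refine hinf.mono ?_
    rintro x ⟨c, hc, rfl⟩
    have hc0 : algebraMap k K c ≠ 0 := by
      rw [Ne, map_eq_zero]; exact hc
    simp only [Set.mem_ofPred_eq, Polynomial.eval_mul, Polynomial.eval_pow, Polynomial.eval_X]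
    rw [h c hc]
    let _ : Invertible (algebraMap k K c)⁻¹ := invertibleOfNonzero (inv_ne_zero hc0)
    have h2 := Polynomial.eval₂_reflect_mul_pow (RingHom.id K) ((algebraMap k K c)⁻¹) N f' le_rfl
    rw [invOf_eq_inv, inv_inv, Polynomial.eval₂_id, Polynomial.eval₂_id] at h2
    rw [← h2, inv_pow]
    field_simp
  have hco : ∀ i, f.coeff i = (X * reflect N f').coeff (i + N) := by
    intro i
    rw [← h1, Polynomial.coeff_X_pow_mul]
  have c1 : f.coeff 1 = f'.coeff 0 := by
    rw [hco, add_comm, Polynomial.coeff_X_mul, Polynomial.coeff_reflect, Polynomial.revAt_le le_rfl,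
      Nat.sub_self]
  have c2 : f.natDegree ≤ 1 := by
    rw [Polynomial.natDegree_le_iff_coeff_eq_zero]
    intro m hm
    obtain ⟨j, rfl⟩ : ∃ j, m = j + 2 := ⟨m - 2, by omega⟩
    rw [hco, show j + 2 + N = (N + j + 1) + 1 by ring, Polynomial.coeff_X_mul,
      Polynomial.coeff_reflect, Polynomial.revAt_eq_self_of_lt (by omega)]
    exact Polynomial.coeff_eq_zero_of_natDegree_lt (by omega)
  have e := Polynomial.eq_X_add_C_of_natDegree_le_one c2
  rw [e, c1, Polynomial.coeff_zero_eq_eval_zero f']
  simp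
  ring

theorem pow_eq_zero_of_nil {x : Matrix (Fin n) (Fin n) K} (hx : IsNilpotent x) : x ^ n = 0 := by
  have h1 := Matrix.isNilpotent_charpoly_sub_pow_of_isNilpotent hx
  have h2 : x.charpoly = X ^ (Fintype.card (Fin n)) := by
    rw [← sub_eq_zero]
    exact h1.eq_zero
  have h3 := x.aeval_self_charpoly
  rw [h2, map_pow, Polynomial.aeval_X, Fintype.card_fin] at h3
  exact h3

theorem nil_of_points [Infinite k] (X : Matrix (Fin n) (Fin n) K[X])
    (h : ∀ c : k, c ≠ 0 → IsNilpotent (ev (algebraMap k K c) X)) : IsNilpotent X := by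
  refine ⟨n, ?_⟩
  ext1 i j
  have hinf : Set.Infinite ((algebraMap k K) '' {c : k | c ≠ 0}) := by
    refine Set.Infinite.image (algebraMap k K).injective.injOn ?_
    exact (Set.finite_singleton (0 : k)).infinite_compl
  refine Polynomial.eq_of_infinite_eval_eq _ _ (hinf.mono ?_)
  rintro x ⟨c, hc, rfl⟩
  have h1 := pow_eq_zero_of_nil (h c hc)
  have h2 : ev (algebraMap k K c) (X ^ n) = (ev (algebraMap k K c) X) ^ n := map_pow _ _ _
  rw [Set.mem_ofPred_eq, ← ev_apply, h2, h1]
  simp

/-- The form `lambda` is additive on the members `y`, `z` of a pencil of nilpotent matrices. -/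
theorem lam_add [Infinite k] {y z : Matrix (Fin n) (Fin n) K}
    (hnil : ∀ s : k, s ≠ 0 → IsNilpotent (y + algebraMap k K s • z)) {vy vz v : K}
    (hy : Lam δ y vy) (hz : Lam δ z vz) (hv : Lam δ (y + z) v) : v = vy + vz := by
  set Y : Matrix (Fin n) (Fin n) K[X] := Matrix.of fun i j => C (y i j) + X * C (z i j) with hY
  set Z : Matrix (Fin n) (Fin n) K[X] := Matrix.of fun i j => X * C (y i j) + C (z i j) with hZ
  have eY : ∀ c : K, ev c Y = y + c • z := by
    intro c; ext i j
    simp [ev_apply, hY]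
    exact mul_comm _ _
  have eZ : ∀ c : K, ev c Z = c • y + z := by
    intro c; ext i j
    simp [ev_apply, hZ]
    exact mul_comm _ _
  have hYn : IsNilpotent Y := nil_of_points (k := k) Y fun c hc => by
    rw [eY]; exact hnil c hc
  have hZn : IsNilpotent Z := nil_of_points (k := k) Z fun c hc => by
    rw [eZ]
    have hc0 : algebraMap k K c ≠ 0 := by rw [Ne, map_eq_zero]; exact hc
    have h1 : algebraMap k K c • y + z =
        algebraMap k K c • (y + algebraMap k K c⁻¹ • z) := by
      rw [smul_add, smul_smul, map_inv₀, mul_inv_cancel₀ hc0, one_smul]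
    rw [h1]
    obtain ⟨m, hm⟩ := hnil c⁻¹ (inv_ne_zero hc)
    exact ⟨m, by rw [_root_.smul_pow, hm, smul_zero]⟩
  obtain ⟨f, hf⟩ := exists_lam_poly δ Y hYn
  obtain ⟨f', hf'⟩ := exists_lam_poly δ Z hZn
  have key := poly_aux (k := k) f f' (by
    intro c hc
    have hc0 : algebraMap k K c ≠ 0 := by rw [Ne, map_eq_zero]; exact hc
    have h1 := hf c
    have h2 := (hf' c⁻¹).smul (c := algebraMap k K c)
    rw [eY] at h1
    rw [eZ, smul_add, smul_smul, map_inv₀, mul_inv_cancel₀ hc0, one_smul] at h2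
    exact h1.unique h2)
  have f1 : v = f.eval 1 := by
    have h1 := hf 1
    rw [eY, map_one, one_smul] at h1
    exact hv.unique h1
  have f0 : vy = f.eval 0 := by
    have h1 := hf 0
    rw [eY, map_zero, zero_smul, add_zero] at h1
    exact hy.unique h1
  have f'0 : vz = f'.eval 0 := by
    have h1 := hf' 0
    rw [eZ, map_zero, zero_smul, zero_add] at h1
    exact hz.unique h1
  rw [f1, f0, f'0, key]

end

end Pool.Agent.TH28.FL
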