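import Pool.Agent.TH28.FL.BC

/-! From rank estimates to transversal data. -/

set_option autoImplicit false

universe u v

namespace Pool.Agent.TH28.FL

open Module TensorProduct

section orth

variable {k : Type u} [Field k] {s : Type v} [LieRing s] [LieAlgebra k s] [FiniteDimensional k s]
  [LieAlgebra.IsKilling k s] {K : Type u} [Field K] [Algebra k K]

/-- orthogonal complements commute with extension of scalars -/
theorem orth_baseChange (U : Submodule k s) {y : K ⊗[k] s}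
    (hy : ∀ u ∈ U, killingForm K (K ⊗[k] s) y (1 ⊗ₜ[k] u) = 0) :
    y ∈ rK K ((killingForm k s).orthogonal U) := by
  classical
  obtain ⟨W, hW⟩ := U.exists_isCompl
  let B := ((finBasis k U).prod (finBasis k W)).map (U.prodEquivOfIsCompl W hW)
  have hBl : ∀ i, B (Sum.inl i) = (finBasis k U i : s) := by
    intro i
    simp [B]
  have hnd : LinearMap.BilinForm.Nondegenerate (killingForm k s) :=
    LieAlgebra.IsKilling.killingForm_nondegenerate k s
  let B' := (killingForm k s).dualBasis hnd B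
  have hexp : ∀ y : K ⊗[k] s, y = ∑ j, killingForm K (K ⊗[k] s) y (1 ⊗ₜ[k] B j) •
      ((1 : K) ⊗ₜ[k] B' j) := by
    intro y
    induction y using TensorProduct.induction_on with
    | zero => simp
    | tmul a z =>
      have h1 : z = ∑ j, killingForm k s z (B j) • B' j := by
        conv_lhs => rw [← B'.sum_repr z]
        refine Finset.sum_congr rfl fun j _ => ?_
        rw [LinearMap.BilinForm.dualBasis_repr_apply]
      conv_lhs => rw [h1, tmul_sum]
      refine Finset.sum_congr rfl fun j _ => ?_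
      rw [kf_tmul, mul_one, tmul_smul, ← algebraMap_smul K (killingForm k s z (B j)) (a ⊗ₜ[k] B' j),
        smul_tmul', smul_tmul', smul_eq_mul, smul_eq_mul, mul_one, mul_comm]
    | add y y' h h' =>
      conv_lhs => rw [h, h']
      rw [← Finset.sum_add_distrib]
      refine Finset.sum_congr rfl fun j _ => ?_
      rw [map_add, LinearMap.add_apply, add_smul]
  rw [hexp y]
  refine Submodule.sum_mem _ fun j _ => ?_
  rcases j with i | i
  · rw [hBl, hy _ (finBasis k U i).2, zero_smul]; exact zero_mem _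
  · refine Submodule.smul_mem _ _ (tmul_mem_rK 1 ?_)
    rw [LinearMap.BilinForm.mem_orthogonal_iff]
    intro u hu
    change killingForm k s u (B' (Sum.inr i)) = 0
    rw [kf_comm]
    have h1 : u = ∑ j, (finBasis k U).repr ⟨u, hu⟩ j • B (Sum.inl j) := by
      have := congrArg (Subtype.val) ((finBasis k U).sum_repr ⟨u, hu⟩)
      simp only [Submodule.coe_sum, Submodule.coe_smul] at this
      refine this.symm.trans (Finset.sum_congr rfl fun j _ => ?_)
      rw [hBl]
    rw [h1, map_sum]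
    refine Finset.sum_eq_zero fun j _ => ?_
    rw [map_smul, LinearMap.BilinForm.apply_dualBasis_left]
    simp

theorem mem_rK_iff_sum {V : Submodule k s} {p : ℕ} (v : Basis (Fin p) k V) {y : K ⊗[k] s}
    (hy : y ∈ rK K V) : ∃ c : Fin p → K, y = ∑ i, c i ⊗ₜ[k] (v i : s) := by
  rw [rK_eq_span] at hy
  induction hy using Submodule.span_induction with
  | mem y hy =>
    obtain ⟨z, hz, rfl⟩ := hy
    refine ⟨fun i => algebraMap k K (v.repr ⟨z, hz⟩ i), ?_⟩
    have h1 : z = ∑ j, v.repr ⟨z, hz⟩ j • (v j : s) := by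
      have := congrArg (Subtype.val) (v.sum_repr ⟨z, hz⟩)
      simpa only [Submodule.coe_sum, Submodule.coe_smul] using this.symm
    change (1 : K) ⊗ₜ[k] z = _
    conv_lhs => rw [h1, tmul_sum]
    refine Finset.sum_congr rfl fun j _ => ?_
    rw [tmul_smul, ← algebraMap_smul K (v.repr ⟨z, hz⟩ j) ((1 : K) ⊗ₜ[k] (v j : s)), smul_tmul',
      smul_eq_mul, mul_one]
  | zero => exact ⟨0, by simp⟩
  | add y y' _ _ h h' =>
    obtain ⟨c, rfl⟩ := h
    obtain ⟨c', rfl⟩ := h'
    refine ⟨c + c', ?_⟩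
    rw [← Finset.sum_add_distrib]
    refine Finset.sum_congr rfl fun i _ => ?_
    rw [Pi.add_apply, add_tmul]
  | smul a y _ h =>
    obtain ⟨c, rfl⟩ := h
    refine ⟨a • c, ?_⟩
    rw [Finset.smul_sum]
    refine Finset.sum_congr rfl fun i _ => ?_
    rw [smul_tmul', Pi.smul_apply]

omit [LieAlgebra.IsKilling k s] in
theorem kf_rK_lie {r : Submodule k s} {V : Submodule k s}
    (hV : ∀ x ∈ V, ∀ a ∈ r, ∀ b ∈ r, killingForm k s x ⁅a, b⁆ = 0) {x a b : K ⊗[k] s}
    (hx : x ∈ rK K V) (ha : a ∈ rK K r) (hb : b ∈ rK K r) :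
    killingForm K (K ⊗[k] s) x ⁅a, b⁆ = 0 := by
  rw [rK_eq_span] at hx ha hb
  induction hx using Submodule.span_induction with
  | mem x hx =>
    obtain ⟨x, hx, rfl⟩ := hx
    induction ha using Submodule.span_induction with
    | mem a ha =>
      obtain ⟨a, ha, rfl⟩ := ha
      induction hb using Submodule.span_induction with
      | mem b hb =>
        obtain ⟨b, hb, rfl⟩ := hb
        rw [LieAlgebra.ExtendScalars.bracket_tmul, kf_tmul, hV x hx a ha b hb, map_zero, mul_zero]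
      | zero => simp
      | add b b' _ _ h h' => rw [lie_add, map_add, h, h', add_zero]
      | smul c b _ h => rw [lie_smul, map_smul, h, smul_zero]
    | zero => simp
    | add b b' _ _ h h' => rw [add_lie, map_add, h, h', add_zero]
    | smul c b _ h => rw [smul_lie, map_smul, h, smul_zero]
  | zero => simp
  | add b b' _ _ h h' => rw [map_add, LinearMap.add_apply, h, h', add_zero]
  | smul c b _ h => rw [map_smul, LinearMap.smul_apply, h, smul_zero]

end orth

theorem p3 (hJ : S_JORD.{u, max u v}) (hP : S_PENC.{u, max u v}) (hS : S_SEM.{u, max u v})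
    (hT : S_TRN.{u, max u v}) (hG : S_GEN.{u}) (hB : S_SB.{u,v}) (h3 : S_G3.{u,v})
    (h4 : S_G4.{u,v}) : S_P3.{u,v} := by
  intro k _ _ s _ _ _ _ r ν h1 h2 K _ _
  obtain ⟨α, x₀, hx₀, hν⟩ := h2
  -- the orthogonal of `[r, r]`
  let R2 : Submodule k s := Submodule.span k {z | ∃ a ∈ r, ∃ b ∈ r, z = ⁅a, b⁆}
  let V : Submodule k s := (killingForm k s).orthogonal R2
  have hVmem : ∀ x : s, x ∈ V ↔ ∀ a ∈ r, ∀ b ∈ r, killingForm k s x ⁅a, b⁆ = 0 := by
    intro x
    rw [LinearMap.BilinForm.mem_orthogonal_iff]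
    constructor
    · intro h a ha b hb
      rw [kf_comm]
      exact h _ (Submodule.subset_span ⟨a, ha, b, hb, rfl⟩)
    · intro h z hz
      change killingForm k s z x = 0
      induction hz using Submodule.span_induction with
      | mem z hz =>
        obtain ⟨a, ha, b, hb, rfl⟩ := hz
        rw [kf_comm]; exact h a ha b hb
      | zero => simp
      | add y z _ _ h h' => rw [map_add, LinearMap.add_apply, h, h', add_zero]
      | smul c z _ h => rw [map_smul, LinearMap.smul_apply, h, smul_zero]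
  have hVV : (killingForm k s).orthogonal V = R2 := by
    apply LinearMap.BilinForm.orthogonal_orthogonal
    · exact LieAlgebra.IsKilling.killingForm_nondegenerate k s
    · exact (LieModule.traceForm_isSymm k s s).isRefl
  let v := finBasis k V
  obtain ⟨K₂, _, _, _, _, _, X, hX, D, hD⟩ := hG k K (finrank k V)
  have hch : CharZero K₂ := charZero_of_injective_algebraMap (algebraMap k K₂).injective
  set x : K₂ ⊗[k] s := ∑ i, X i ⊗ₜ[k] (v i : s) with hx
  have hxV : x ∈ rK K₂ V := Submodule.sum_mem _ fun i _ => tmul_mem_rK _ (v i).2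
  obtain ⟨S, N, hSN, hcomm, hSs, hNn, hcent⟩ := hJ K₂ (K₂ ⊗[k] s) x
  -- (a)
  have ha : ∀ a ∈ rKL K₂ r, ∀ b ∈ rKL K₂ r, killingForm K₂ (K₂ ⊗[k] s) x ⁅a, b⁆ = 0 :=
    fun a ha b hb => kf_rK_lie (fun x hx a ha b hb => (hVmem x).1 hx a ha b hb) hxV ha hb
  -- (b)
  have hb : finrank K₂ (LinearMap.range (LieAlgebra.ad K₂ (K₂ ⊗[k] s) x)) ≤
      2 * finrank K₂ ((rKL K₂ r).toSubmodule.map (LieAlgebra.ad K₂ (K₂ ⊗[k] s) x)) := by
    apply hP K₂ (K₂ ⊗[k] s) (rKL K₂ r) (1 ⊗ₜ[k] α) x ν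
    · intro t
      exact h1 K₂ _
    · have hx₀V : x₀ ∈ V := (hVmem x₀).2 hx₀
      have e1 : x₀ = ∑ j, v.repr ⟨x₀, hx₀V⟩ j • (v j : s) := by
        have := congrArg (Subtype.val) (v.sum_repr ⟨x₀, hx₀V⟩)
        simpa only [Submodule.coe_sum, Submodule.coe_smul] using this.symm
      have h5 := h4 k s r.toSubmodule (finrank k V) (fun i => (v i : s)) K₂ X hX α
        (fun j => v.repr ⟨x₀, hx₀V⟩ j)
      rw [← e1] at h5
      exact hν.trans h5
  -- (c)
  have hc : ∀ c : K₂ ⊗[k] s, ⁅x, c⁆ = 0 →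
      c ∈ Submodule.span K₂ {z : K₂ ⊗[k] s | ∃ a b : K₂ ⊗[k] s, ⁅S, a⁆ = 0 ∧ ⁅S, b⁆ = 0 ∧ z = ⁅a, b⁆} →
      c ∈ Submodule.span K₂ {z : K₂ ⊗[k] s | ∃ a ∈ rKL K₂ r, ∃ b ∈ rKL K₂ r, z = ⁅a, b⁆} := by
    intro c hxc hcs
    have hSc : ⁅S, c⁆ = 0 := by
      have := hcent c 0 (by rw [hxc, zero_smul])
      rwa [zero_smul] at this
    have hNc : ⁅N, c⁆ = 0 := by
      have : ⁅x, c⁆ = ⁅S, c⁆ + ⁅N, c⁆ := by rw [hSN, add_lie]
      rw [hxc, hSc, zero_add] at this
      exact this.symm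
    have h5 : ∀ i, killingForm K₂ (K₂ ⊗[k] s) c (1 ⊗ₜ[k] (v i : s)) = 0 := by
      intro i
      have h6 := hB k s K₂ (D i) S N c hcomm hSs hNn hSc hNc hcs
      rw [← hSN, hx, map_sum, Finset.sum_eq_single i] at h6
      · rw [dL_tmul, hD i i, if_pos rfl] at h6
        rw [kf_comm]; exact h6
      · intro j _ hj
        rw [dL_tmul, hD i j, if_neg hj.symm, zero_tmul]
      · intro h; exact absurd (Finset.mem_univ i) h
    have h7 : c ∈ rK K₂ ((killingForm k s).orthogonal V) := by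
      apply orth_baseChange
      intro u hu
      have e1 : u = ∑ j, v.repr ⟨u, hu⟩ j • (v j : s) := by
        have := congrArg (Subtype.val) (v.sum_repr ⟨u, hu⟩)
        simpa only [Submodule.coe_sum, Submodule.coe_smul] using this.symm
      rw [e1, tmul_sum, map_sum]
      refine Finset.sum_eq_zero fun j _ => ?_
      rw [tmul_smul, ← algebraMap_smul K₂ (v.repr ⟨u, hu⟩ j) ((1 : K₂) ⊗ₜ[k] (v j : s)), map_smul,
        h5, smul_zero]
    rw [hVV] at h7
    have h8 : rK K₂ R2 ≤ Submodule.span K₂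
        {z : K₂ ⊗[k] s | ∃ a ∈ rKL K₂ r, ∃ b ∈ rKL K₂ r, z = ⁅a, b⁆} := by
      rw [rK_eq_span, Submodule.span_le]
      rintro _ ⟨z, hz, rfl⟩
      rw [SetLike.mem_coe] at hz ⊢
      change (1 : K₂) ⊗ₜ[k] z ∈ _
      induction hz using Submodule.span_induction with
      | mem z hz =>
        obtain ⟨a, ha, b, hb, rfl⟩ := hz
        refine Submodule.subset_span ⟨1 ⊗ₜ[k] a, tmul_mem_rK 1 ha, 1 ⊗ₜ[k] b, tmul_mem_rK 1 hb, ?_⟩
        rw [LieAlgebra.ExtendScalars.bracket_tmul, mul_one]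
      | zero => rw [tmul_zero]; exact zero_mem _
      | add y z _ _ h h' => rw [tmul_add]; exact add_mem h h'
      | smul a z _ h =>
        rw [tmul_smul, ← algebraMap_smul K₂ a ((1 : K₂) ⊗ₜ[k] z)]
        exact Submodule.smul_mem _ _ h
    exact h8 h7
  -- (d)
  have hd : ∀ y : K₂ ⊗[k] s,
      (∀ a ∈ rKL K₂ r, ∀ b ∈ rKL K₂ r, killingForm K₂ (K₂ ⊗[k] s) y ⁅a, b⁆ = 0) →
      finrank K₂ (LieSubalgebra.engel K₂ x) ≤ finrank K₂ (LieSubalgebra.engel K₂ y) := by
    intro y hy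
    have h5 : y ∈ rK K₂ V := by
      apply orth_baseChange
      intro u hu
      induction hu using Submodule.span_induction with
      | mem z hz =>
        obtain ⟨a, ha, b, hb, rfl⟩ := hz
        have := hy (1 ⊗ₜ[k] a) (tmul_mem_rK 1 ha) (1 ⊗ₜ[k] b) (tmul_mem_rK 1 hb)
        rwa [LieAlgebra.ExtendScalars.bracket_tmul, mul_one] at this
      | zero => simp
      | add y z _ _ h h' => rw [tmul_add, map_add, h, h', add_zero]
      | smul a z _ h =>
        rw [tmul_smul, ← algebraMap_smul K₂ a ((1 : K₂) ⊗ₜ[k] z), map_smul, h, smul_zero]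
    obtain ⟨c, rfl⟩ := mem_rK_iff_sum v h5
    exact h3 k s (finrank k V) (fun i => (v i : s)) K₂ X hX c
  have hN : N = 0 := hS K₂ (K₂ ⊗[k] s) (rKL K₂ r) x S N hSN hcomm hSs hNn hcent ha hb hc hd
  have hxS : x = S := by rw [hSN, hN, add_zero]
  obtain ⟨w, M, hw, htr⟩ := hT K₂ (K₂ ⊗[k] s) (rKL K₂ r) x (hxS ▸ hSs) ha hb (by
    intro a b ha hb
    have h5 : ⁅x, ⁅a, b⁆⁆ = 0 := by rw [leibniz_lie, ha, hb, zero_lie, lie_zero, add_zero]
    have h6 := hc ⁅a, b⁆ h5 (Submodule.subset_span ⟨a, b, hxS ▸ ha, hxS ▸ hb, rfl⟩)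
    have h7 : Submodule.span K₂ {z : K₂ ⊗[k] s | ∃ a ∈ rKL K₂ r, ∃ b ∈ rKL K₂ r, z = ⁅a, b⁆} ≤
        (rKL K₂ r).toSubmodule := by
      rw [Submodule.span_le]
      rintro _ ⟨a, ha, b, hb, rfl⟩
      exact (rKL K₂ r).lie_mem ha hb
    exact h7 h6)
  exact ⟨K₂, inferInstance, inferInstance, inferInstance, inferInstance, inferInstance, w, M, hw, htr⟩

end Pool.Agent.TH28.FL
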