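import Pool.Agent.TH28.FL.DatR

/-! The index of a reductive Lie algebra is at least the dimension of a Cartan subalgebra. -/

set_option autoImplicit false

universe u v

namespace Pool.Agent.TH28.FL

open Module

theorem rkg (hS : S_RKS.{u,v}) : S_RKG.{u,v} := by
  intro k _ _ _ g s _ _ _ _ _ _ _ ι π hπι hz t ht
  have hlie : ∀ x y : g, ⁅x, y⁆ = ι ⁅π x, π y⁆ := by
    intro x y
    have h2 := hz x y
    have h3 := hz y (ι (π x))
    rw [sub_lie, sub_eq_zero] at h2 h3
    rw [h2, ← lie_skew, h3, lie_skew, ← LieHom.map_lie]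
  have hker : ∀ c : g, π c = 0 → ∀ y : g, ⁅y, c⁆ = 0 := by
    intro c hc y
    rw [hlie, hc, lie_zero, map_zero]
  -- central elements are in `t`
  have hsn : ∀ x : g, (∀ y ∈ t, ⁅x, y⁆ ∈ t) → x ∈ t := by
    intro x hx
    have h1 : t.normalizer = t := ht.self_normalizing
    rw [← h1, LieSubalgebra.mem_normalizer_iff]
    exact hx
  have hct : ∀ c : g, π c = 0 → c ∈ t := by
    intro c hc
    apply hsn
    intro y _
    rw [← lie_skew, hker c hc y, neg_zero]; exact zero_mem _
  have hιπ : ∀ x : g, x - ι (π x) ∈ t := by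
    intro x
    apply hct
    rw [map_sub, hπι, sub_self]
  -- the image of `t`
  let H : LieSubalgebra k s := t.map π
  have hHmem : ∀ y : s, y ∈ H ↔ ι y ∈ t := by
    intro y
    constructor
    · rintro ⟨x, hx, rfl⟩
      have := sub_mem hx (hιπ x)
      rw [sub_sub_cancel] at this
      exact this
    · intro h
      exact ⟨ι y, h, hπι y⟩
  have hHC : H.IsCartanSubalgebra := by
    refine { nilpotent := ?_, self_normalizing := ?_ }
    · have h1 : LieRing.IsNilpotent t := ht.nilpotent
      let φ : t →ₗ⁅k⁆ H :=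
        { toFun := fun x => ⟨π x, ⟨x, x.2, rfl⟩⟩
          map_add' := fun x y => Subtype.ext (map_add π (x : g) y)
          map_smul' := fun c x => Subtype.ext (map_smul π c (x : g))
          map_lie' := fun {x y} => Subtype.ext (LieHom.map_lie π (x : g) y) }
      have hφ : Function.Surjective φ := by
        rintro ⟨y, ⟨x, hx, rfl⟩⟩
        exact ⟨⟨x, hx⟩, rfl⟩
      exact Function.Surjective.lieAlgebra_isNilpotent hφ
    · apply le_antisymm _ H.le_normalizer
      intro y hy
      rw [LieSubalgebra.mem_normalizer_iff] at hy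
      rw [hHmem]
      apply hsn
      intro z hz'
      have h1 : ⁅ι y, z⁆ = ι ⁅y, π z⁆ := by rw [hlie, hπι]
      rw [h1, ← hHmem]
      exact hy _ ⟨z, hz', rfl⟩
  -- dimension of `t`
  have hdt : finrank k t = finrank k (LinearMap.ker (π : g →ₗ[k] s)) + finrank k H := by
    let T : t.toSubmodule →ₗ[k] s := (π : g →ₗ[k] s).domRestrict t.toSubmodule
    have h1 := LinearMap.finrank_range_add_finrank_ker T
    have h2 : LinearMap.range T = H.toSubmodule := by
      ext y
      constructor
      · rintro ⟨x, rfl⟩; exact ⟨x, x.2, rfl⟩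
      · rintro ⟨x, hx, rfl⟩; exact ⟨⟨x, hx⟩, rfl⟩
    have h3 : finrank k (LinearMap.ker T) = finrank k (LinearMap.ker (π : g →ₗ[k] s)) := by
      have h4 : (LinearMap.ker T).map t.toSubmodule.subtype = LinearMap.ker (π : g →ₗ[k] s) := by
        ext x
        constructor
        · rintro ⟨y, hy, rfl⟩; exact hy
        · intro hx; exact ⟨⟨x, hct x hx⟩, hx, rfl⟩
      rw [← h4]
      exact (LinearEquiv.finrank_eq
        (Submodule.equivMapOfInjective _ (Submodule.injective_subtype _) _))
    rw [h2, h3] at h1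
    have h5 : finrank k t = finrank k t.toSubmodule := rfl
    have h6 : finrank k H = finrank k H.toSubmodule := rfl
    rw [h5, h6]; omega
  -- the index
  have hne : (Set.range fun ξ : Dual k g =>
      finrank k (LinearMap.ker ((lieB k g).compr₂ ξ))).Nonempty := ⟨_, ⟨0, rfl⟩⟩
  obtain ⟨ξ, hξ⟩ := Nat.sInf_mem hne
  have hind : ind (lieB k g) = finrank k (LinearMap.ker ((lieB k g).compr₂ ξ)) := hξ.symm
  rw [hind]
  -- the element `x` of `s`
  have hnd : Function.Injective (killingForm k s) := by
    rw [← LinearMap.ker_eq_bot]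
    exact LieAlgebra.IsKilling.ker_killingForm_eq_bot k s
  have hsurj : Function.Surjective (killingForm k s) :=
    (LinearMap.injective_iff_surjective_of_finrank_eq_finrank
      (Subspace.dual_finrank_eq (K := k) (V := s)).symm).1 hnd
  obtain ⟨x, hx⟩ := hsurj (ξ ∘ₗ (ι : s →ₗ[k] g))
  have hx' : ∀ y : s, killingForm k s x y = ξ (ι y) := fun y => LinearMap.congr_fun hx y
  have hkerξ : ∀ u : g, u ∈ LinearMap.ker ((lieB k g).compr₂ ξ) ↔ ⁅x, π u⁆ = 0 := by
    intro u
    rw [LinearMap.mem_ker]
    have h1 : ∀ v : g, (lieB k g).compr₂ ξ u v = killingForm k s ⁅x, π u⁆ (π v) := by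
      intro v
      change ξ ⁅u, v⁆ = _
      rw [hlie, ← hx', kf_lie]
    constructor
    · intro h
      apply kf_nondeg (K := k)
      intro y
      have h2 := h1 (ι y)
      rw [hπι, h] at h2
      exact h2.symm
    · intro h
      ext v
      rw [h1, h, map_zero]; rfl
  have hdim : finrank k (LinearMap.ker ((lieB k g).compr₂ ξ)) =
      finrank k (LinearMap.ker (π : g →ₗ[k] s)) +
        finrank k (LinearMap.ker (LieAlgebra.ad k s x)) := by
    let W := LinearMap.ker ((lieB k g).compr₂ ξ)
    let T : W →ₗ[k] s := (π : g →ₗ[k] s).domRestrict W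
    have h1 := LinearMap.finrank_range_add_finrank_ker T
    have h2 : LinearMap.range T = LinearMap.ker (LieAlgebra.ad k s x) := by
      ext y
      constructor
      · rintro ⟨u, rfl⟩
        exact (hkerξ u).1 u.2
      · intro hy
        exact ⟨⟨ι y, (hkerξ (ι y)).2 (by rw [hπι]; exact hy)⟩, hπι y⟩
    have h3 : finrank k (LinearMap.ker T) = finrank k (LinearMap.ker (π : g →ₗ[k] s)) := by
      have h4 : (LinearMap.ker T).map W.subtype = LinearMap.ker (π : g →ₗ[k] s) := by
        ext z
        constructor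
        · rintro ⟨y, hy, rfl⟩; exact hy
        · intro hz'
          refine ⟨⟨z, (hkerξ z).2 ?_⟩, hz', rfl⟩
          have : π z = 0 := hz'
          rw [this, lie_zero]
      rw [← h4]
      exact (LinearEquiv.finrank_eq
        (Submodule.equivMapOfInjective _ (Submodule.injective_subtype _) _))
    rw [h2, h3] at h1
    change finrank k W = _
    rw [← h1, add_comm]
  rw [hdim, hdt]
  have := hS k s H x
  omega

end Pool.Agent.TH28.FL
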