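import Pool.Agent.TH28.FL.DatR

/-! Centralisers are at least as large as a Cartan subalgebra. -/

set_option autoImplicit false

universe u v

namespace Pool.Agent.TH28.FL

open Module

section

variable {k : Type u} [Field k] {s : Type v} [LieRing s] [LieAlgebra k s] [FiniteDimensional k s]

theorem engel_cartan [Infinite k] {x : s} (hx : LieAlgebra.IsRegular k x) :
    (LieSubalgebra.engel k x).IsCartanSubalgebra := by
  have h : (finrank k s : Cardinal) ≤ Cardinal.mk k :=
    Cardinal.natCast_le_aleph0.trans <| Cardinal.infinite_iff.mp ‹Infinite k›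
  refine ⟨?_, LieSubalgebra.normalizer_engel _ _⟩
  apply LieSubalgebra.isNilpotent_of_forall_le_engel
  intro y hy
  set Ex : {LieSubalgebra.engel k z | z ∈ LieSubalgebra.engel k x} :=
    ⟨LieSubalgebra.engel k x, x, LieSubalgebra.self_mem_engel _ _, rfl⟩ with hEx
  suffices IsBot Ex from @this ⟨LieSubalgebra.engel k y, y, hy, rfl⟩
  apply LieAlgebra.engel_isBot_of_isMin h (LieSubalgebra.engel k x) Ex le_rfl
  rintro ⟨_, y, hy, rfl⟩ hyx
  suffices finrank k (LieSubalgebra.engel k x) ≤ finrank k (LieSubalgebra.engel k y) by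
    suffices LieSubalgebra.engel k y = LieSubalgebra.engel k x from this.ge
    apply LieSubalgebra.toSubmodule_injective
    exact Submodule.eq_of_le_of_finrank_le hyx this
  rw [(LieAlgebra.isRegular_iff_finrank_engel_eq_rank k x).mp hx]
  apply LieAlgebra.rank_le_finrank_engel

theorem exists_reg [Infinite k] (x : s) : ∃ y : s, LieAlgebra.IsRegular k y ∧
    finrank k (LinearMap.ker (LieAlgebra.ad k s y)) ≤
      finrank k (LinearMap.ker (LieAlgebra.ad k s x)) := by
  classical
  obtain ⟨x1, hx1⟩ := LieAlgebra.exists_isRegular k s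
  let b := finBasis k s
  obtain ⟨q, hreg⟩ : ∃ q : MvPolynomial (Fin (finrank k s)) k,
      ∀ y : s, LieAlgebra.IsRegular k y ↔ MvPolynomial.eval (b.repr y) q ≠ 0 :=
    ⟨_, fun y => LieAlgebra.isRegular_iff_coeff_polyCharpoly_rank_ne_zero k b y⟩
  let Q : Polynomial k := MvPolynomial.aeval
    (fun i => Polynomial.C (b.repr x i) + Polynomial.X * Polynomial.C (b.repr (x1 - x) i)) q
  have hQ : ∀ t, Q.eval t = MvPolynomial.eval (b.repr (x + t • (x1 - x))) q := by
    intro t
    have h1 : (Polynomial.aeval t : Polynomial k →ₐ[k] k).comp (MvPolynomial.aeval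
        (fun i => Polynomial.C (b.repr x i) + Polynomial.X * Polynomial.C (b.repr (x1 - x) i))) =
        MvPolynomial.aeval (b.repr (x + t • (x1 - x))) := by
      apply MvPolynomial.algHom_ext
      intro i
      rw [AlgHom.comp_apply, MvPolynomial.aeval_X, MvPolynomial.aeval_X, map_add, map_mul,
        Polynomial.aeval_C, Polynomial.aeval_C, Polynomial.aeval_X, map_add, map_smul,
        Finsupp.add_apply, Finsupp.smul_apply, smul_eq_mul]
      rfl
    have h2 := DFunLike.congr_fun h1 q
    rw [AlgHom.comp_apply] at h2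
    rw [← Polynomial.coe_aeval_eq_eval]
    exact h2
  let R := finrank k (LinearMap.range (LieAlgebra.ad k s x))
  let v := finBasis k (LinearMap.range (LieAlgebra.ad k s x))
  have hu : ∀ j, ∃ u : s, LieAlgebra.ad k s x u = (v j : s) := fun j => (v j).2
  choose u hu using hu
  have hφ : ∀ i, ∃ φ : s →ₗ[k] k, φ ∘ₗ (LinearMap.range (LieAlgebra.ad k s x)).subtype =
      v.coord i := fun i => LinearMap.exists_extend _
  choose φ hφ using hφ
  have hφu : ∀ i j, φ i ⁅x, u j⁆ = if i = j then 1 else 0 := by
    intro i j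
    have h1 := LinearMap.congr_fun (hφ i) (v j)
    rw [LinearMap.comp_apply, Submodule.subtype_apply, Basis.coord_apply, Basis.repr_self,
      Finsupp.single_apply] at h1
    rw [← LieAlgebra.ad_apply (R := k), hu, h1]
    simp only [eq_comm]
  let P : Polynomial k := Matrix.det (Matrix.of fun i j => Polynomial.C (φ i ⁅x, u j⁆) +
    Polynomial.X * Polynomial.C (φ i ⁅x1 - x, u j⁆))
  have hP : ∀ t, P.eval t = Matrix.det (Matrix.of fun i j => φ i ⁅x + t • (x1 - x), u j⁆) := by
    intro t
    rw [← Polynomial.coe_evalRingHom, RingHom.map_det]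
    congr 1
    ext i j
    rw [RingHom.mapMatrix_apply, Matrix.map_apply, Matrix.of_apply, Matrix.of_apply,
      Polynomial.coe_evalRingHom, Polynomial.eval_add, Polynomial.eval_mul, Polynomial.eval_C,
      Polynomial.eval_X, Polynomial.eval_C, add_lie, smul_lie, map_add, map_smul, smul_eq_mul]
  have hP0 : P ≠ 0 := by
    intro h
    have h1 := hP 0
    rw [h, Polynomial.eval_zero, zero_smul, add_zero] at h1
    have h2 : (Matrix.of fun i j => φ i ⁅x, u j⁆) = (1 : Matrix _ _ k) := by
      ext i j
      rw [Matrix.of_apply, hφu, Matrix.one_apply]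
    rw [h2, Matrix.det_one] at h1
    exact zero_ne_one h1
  have hQ0 : Q ≠ 0 := by
    intro h
    have h1 := hQ 1
    rw [h, Polynomial.eval_zero, one_smul, add_sub_cancel] at h1
    exact (hreg x1).1 hx1 h1.symm
  obtain ⟨t, ht⟩ : ∃ t, (P * Q).eval t ≠ 0 := by
    by_contra hcon
    push Not at hcon
    exact mul_ne_zero hP0 hQ0 (Polynomial.funext fun t => by rw [hcon t, Polynomial.eval_zero])
  rw [Polynomial.eval_mul] at ht
  refine ⟨x + t • (x1 - x), ?_, ?_⟩
  · rw [hreg, ← hQ]; exact right_ne_zero_of_mul ht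
  · have h1 : Matrix.det (Matrix.of fun i j => φ i ⁅x + t • (x1 - x), u j⁆) ≠ 0 := by
      rw [← hP]; exact left_ne_zero_of_mul ht
    set y := x + t • (x1 - x) with hy
    have h2 : LinearIndependent k (fun j => (⟨⁅y, u j⁆, ⟨u j, rfl⟩⟩ :
        LinearMap.range (LieAlgebra.ad k s y))) := by
      rw [Fintype.linearIndependent_iff]
      intro c hc
      have h3 : (Matrix.of fun i j => φ i ⁅y, u j⁆).mulVec c = 0 := by
        ext i
        have h4 := congrArg (fun z : LinearMap.range (LieAlgebra.ad k s y) => φ i (z : s)) hc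
        simp only [Submodule.coe_sum, Submodule.coe_smul, map_sum, map_smul, smul_eq_mul,
          Submodule.coe_zero, map_zero] at h4
        rw [Matrix.mulVec, Pi.zero_apply, ← h4]
        simp only [dotProduct, Matrix.of_apply]
        exact Finset.sum_congr rfl fun j _ => mul_comm _ _
      have h5 := Matrix.eq_zero_of_mulVec_eq_zero h1 h3
      intro j
      rw [h5]; rfl
    have h3 := h2.fintype_card_le_finrank
    rw [Fintype.card_fin] at h3
    have h4 := LinearMap.finrank_range_add_finrank_ker (LieAlgebra.ad k s y)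
    have h5 := LinearMap.finrank_range_add_finrank_ker (LieAlgebra.ad k s x)
    omega

end

theorem rks (h1 : S_DAT1.{u,v}) (hP : S_PV.{u,v}) : S_RKS.{u,v} := by
  intro k _ _ _ s _ _ _ _ H hH x
  obtain ⟨y, hy, hle⟩ := exists_reg (k := k) x
  refine le_trans ?_ hle
  have hC := engel_cartan hy
  obtain ⟨w, M, hw, hwH⟩ := h1 k s H
  obtain ⟨w', M', hw', hwH'⟩ := h1 k s (LieSubalgebra.engel k y)
  have e1 := (hP k s w w' M M' hw hw').1
  have e2 := finrank_eq hw.top
  have e3 := finrank_eq hw'.top
  have e4 : finrank k H = finrank k (dg k w 0) := by rw [hwH]; rfl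
  have e5 : finrank k (LieSubalgebra.engel k y) = finrank k (dg k w' 0) := by rw [hwH']; rfl
  have e6 : finrank k (LieSubalgebra.engel k y) ≤
      finrank k (LinearMap.ker (LieAlgebra.ad k s y)) := by
    have h7 : (LieSubalgebra.engel k y).toSubmodule ≤ LinearMap.ker (LieAlgebra.ad k s y) := by
      intro z hz
      rw [LinearMap.mem_ker, LieAlgebra.ad_apply]
      have h8 : z ∈ dg k w' 0 := by rw [hwH']; exact hz
      have h9 : y ∈ dg k w' 0 := by
        rw [hwH']; exact LieSubalgebra.self_mem_engel k y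
      exact hw'.comm y h9 z h8
    exact Submodule.finrank_mono h7
  omega

end Pool.Agent.TH28.FL
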