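import Mathlib

/-!
# Grading elements, words, alternating forms: definitions and task statements (stage 2)

`L` is a finite-dimensional Killing Lie algebra over a field `K` of characteristic zero.
A datum is an element `w` of `L` whose adjoint action is diagonalisable with integer eigenvalues
in a special way: `dg K w 0` is a Cartan subalgebra, the other eigenspaces `dg K w j` are lines
(or zero), no eigenvalue `j ≠ 0` has `|j| < M`, the eigenvalues with `M ≤ |j| < 2 M` are those of the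
simple roots and their negatives and the lines with `|j| ≥ 2 M` are spanned by brackets.
-/

set_option autoImplicit false

universe u v

namespace Pool.Agent.TH28.FL

open Module

section defs

variable (K : Type u) {L : Type v} [Field K] [LieRing L] [LieAlgebra K L]

/-- the eigenspace of `ad w` for the integer `j` -/
def dg (w : L) (j : ℤ) : Submodule K L where
  carrier := {x | ⁅w, x⁆ = (j : K) • x}
  add_mem' := by
    intro x y hx hy
    simp only [Set.mem_ofPred_eq] at hx hy ⊢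
    rw [lie_add, hx, hy, smul_add]
  zero_mem' := by simp
  smul_mem' := by
    intro c x hx
    simp only [Set.mem_ofPred_eq] at hx ⊢
    rw [lie_smul, hx, smul_comm]

variable {K} in
theorem mem_dg {w x : L} {j : ℤ} : x ∈ dg K w j ↔ ⁅w, x⁆ = (j : K) • x := Iff.rfl

/-- the sum of the eigenspaces with `j ≥ 0` (a Borel subalgebra for a datum) -/
def bb (w : L) : Submodule K L := ⨆ j : ℤ, ⨆ _ : 0 ≤ j, dg K w j

/-- the sum of the eigenspaces with `j > 0` -/
def nn (w : L) : Submodule K L := ⨆ j : ℤ, ⨆ _ : 0 < j, dg K w j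

/-- a datum -/
structure Dat (w : L) (M : ℤ) : Prop where
  pos : 0 < M
  top : ⨆ j : ℤ, dg K w j = ⊤
  gap : ∀ j : ℤ, j ≠ 0 → |j| < M → dg K w j = ⊥
  one : ∀ j : ℤ, j ≠ 0 → finrank K (dg K w j) ≤ 1
  comm : ∀ x ∈ dg K w 0, ∀ y ∈ dg K w 0, ⁅x, y⁆ = 0
  gen : ∀ j : ℤ, 2 * M ≤ |j| → ∀ z ∈ dg K w j, z ∈ Submodule.span K
    {z | ∃ c : ℤ, M ≤ |c| ∧ |c| < 2 * M ∧ 0 < c * j ∧
      ∃ x ∈ dg K w c, ∃ y ∈ dg K w (j - c), z = ⁅x, y⁆}

/-- the exponential series of `ad a`, meaningful for `ad a` nilpotent -/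
noncomputable def expA (a : L) : L →ₗ[K] L :=
  ∑ j ∈ Finset.range (finrank K L + 1), ((j.factorial : K)⁻¹) • (LieAlgebra.ad K L a) ^ j

/-- the automorphisms of `L` that are products of exponentials `exp (ad a)`, `ad a` nilpotent -/
inductive Wd : (L ≃ₗ⁅K⁆ L) → Prop
  | one : Wd LieEquiv.refl
  | step (φ ψ : L ≃ₗ⁅K⁆ L) (a : L) (ha : IsNilpotent (LieAlgebra.ad K L a))
      (h : ∀ x, ψ x = expA K a (φ x)) (hφ : Wd φ) : Wd ψ

/-- `m`-linear forms on `L` -/
abbrev Frm (L : Type v) [LieRing L] [LieAlgebra K L] (m : ℕ) : Type (max u v) :=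
  MultilinearMap K (fun _ : Fin m => L) K

/-- the action of `a` on forms: `(act a F) (x) = ∑ i, F (x₁, …, [a, xᵢ], …)` -/
noncomputable def act {m : ℕ} (a : L) (F : Frm K L m) : Frm K L m :=
  ∑ i, F.compLinearMap (Function.update (fun _ => LinearMap.id) i (LieAlgebra.ad K L a))

/-- the form `x ↦ det (κ (xᵢ, nⱼ))` -/
noncomputable def fdet {m : ℕ} (n : Fin m → L) : Frm K L m :=
  (Matrix.detRowAlternating (R := K) (n := Fin m)).toMultilinearMap.compLinearMap
    (fun _ => LinearMap.pi fun j => (killingForm K L).flip (n j))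

variable {K} in
theorem act_apply {m : ℕ} (a : L) (F : Frm K L m) (x : Fin m → L) :
    act K a F x = ∑ i, F (Function.update x i ⁅a, x i⁆) := by
  unfold act
  rw [MultilinearMap.sum_apply]
  refine Finset.sum_congr rfl fun i _ => ?_
  rw [MultilinearMap.compLinearMap_apply]
  congr 1
  funext j
  by_cases h : j = i
  · subst h; simp
  · simp [Function.update_of_ne h]

variable {K} in
theorem fdet_apply {m : ℕ} (n : Fin m → L) (x : Fin m → L) :
    fdet K n x = Matrix.det (Matrix.of fun i j => killingForm K L (x i) (n j)) := rfl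

/-- the smallest space of forms that contains `fdet n` and is stable under `L` -/
noncomputable def VV {m : ℕ} (n : Fin m → L) : Submodule K (Frm K L m) :=
  sInf {V | fdet K n ∈ V ∧ ∀ a : L, ∀ F ∈ V, act K a F ∈ V}

end defs

/-! ### Task statements -/

/-- REF: the simple reflection. -/
def S_REF : Prop := ∀ (K : Type u) [Field K] [CharZero K] (L : Type v) [LieRing L] [LieAlgebra K L]
  [FiniteDimensional K L] [LieAlgebra.IsKilling K L] (w : L) (M : ℤ), Dat K w M →
  ∀ c : ℤ, M ≤ c → c < 2 * M → ∀ f ∈ dg K w (-c), f ≠ 0 →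
  ∃ φ : L ≃ₗ⁅K⁆ L, Wd K φ ∧
    (dg K w 0).map (φ : L →ₗ[K] L) = dg K w 0 ∧
    (nn K w).map (φ : L →ₗ[K] L) =
      (⨆ j : ℤ, ⨆ _ : 0 < j ∧ j ≠ c, dg K w j) ⊔ Submodule.span K {f}

/-- DAT1: every Cartan subalgebra carries a datum. -/
def S_DAT1 : Prop := ∀ (K : Type u) [Field K] [CharZero K] [IsAlgClosed K] (L : Type v) [LieRing L]
  [LieAlgebra K L] [FiniteDimensional K L] [LieAlgebra.IsKilling K L] (H : LieSubalgebra K L)
  [H.IsCartanSubalgebra], ∃ w : L, ∃ M : ℤ, Dat K w M ∧ dg K w 0 = H.toSubmodule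

/-- JORD: Jordan decomposition. -/
def S_JORD : Prop := ∀ (K : Type u) [Field K] [CharZero K] [IsAlgClosed K] (L : Type v) [LieRing L]
  [LieAlgebra K L] [FiniteDimensional K L] [LieAlgebra.IsKilling K L] (x : L),
  ∃ s n : L, x = s + n ∧ ⁅s, n⁆ = 0 ∧ (LieAlgebra.ad K L s).IsSemisimple ∧
    IsNilpotent (LieAlgebra.ad K L n) ∧
    ∀ (y : L) (c : K), ⁅x, y⁆ = c • y → ⁅s, y⁆ = c • y

/-- DAT3: a semisimple element lies in the Cartan subalgebra of a datum. -/
def S_DAT3 : Prop := ∀ (K : Type u) [Field K] [CharZero K] [IsAlgClosed K] (L : Type v) [LieRing L]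
  [LieAlgebra K L] [FiniteDimensional K L] [LieAlgebra.IsKilling K L] (x : L),
  (LieAlgebra.ad K L x).IsSemisimple → ∃ w : L, ∃ M : ℤ, Dat K w M ∧ x ∈ dg K w 0

/-- DAT2: a nilpotent element lies in the nilradical of a datum. -/
def S_DAT2 : Prop := ∀ (K : Type u) [Field K] [CharZero K] [IsAlgClosed K] (L : Type v) [LieRing L]
  [LieAlgebra K L] [FiniteDimensional K L] [LieAlgebra.IsKilling K L] (y : L),
  IsNilpotent (LieAlgebra.ad K L y) → ∃ w : L, ∃ M : ℤ, Dat K w M ∧ y ∈ nn K w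

/-- EXPM: a space of forms that is stable under the action of `a` is stable under `exp (ad a)`. -/
def S_EXPM : Prop := ∀ (K : Type u) [Field K] [CharZero K] (L : Type v) [LieRing L]
  [LieAlgebra K L] [FiniteDimensional K L] (a : L), IsNilpotent (LieAlgebra.ad K L a) →
  ∀ (m : ℕ) (V : Submodule K (Frm K L m)), (∀ F ∈ V, act K a F ∈ V) →
  ∀ F ∈ V, F.compLinearMap (fun _ => expA K a) ∈ V

/-- V1: the limit of a subalgebra of nilpotent elements. -/
def S_V1 : Prop := ∀ (K : Type u) [Field K] [CharZero K] (L : Type v) [LieRing L] [LieAlgebra K L]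
  [FiniteDimensional K L] [LieAlgebra.IsKilling K L] (w : L) (M : ℤ), Dat K w M →
  ∀ (m : ℕ) (n : Fin m → L), LinearIndependent K n →
  (∀ x ∈ Submodule.span K (Set.range n), ∀ y ∈ Submodule.span K (Set.range n),
    ⁅x, y⁆ ∈ Submodule.span K (Set.range n)) →
  (∀ x ∈ Submodule.span K (Set.range n), IsNilpotent (LieAlgebra.ad K L x)) →
  ∀ V : Submodule K (Frm K L m), (∀ F ∈ V, act K w F ∈ V) → fdet K n ∈ V →
  ∃ n₀ : Fin m → L, LinearIndependent K n₀ ∧ fdet K n₀ ∈ V ∧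
    (∀ x ∈ Submodule.span K (Set.range n₀), ∀ y ∈ Submodule.span K (Set.range n₀),
      ⁅x, y⁆ ∈ Submodule.span K (Set.range n₀)) ∧
    Submodule.span K (Set.range n₀) ≤ ⨆ j : ℤ, Submodule.span K (Set.range n₀) ⊓ dg K w j ∧
    Submodule.span K (Set.range n₀) ⊓ dg K w 0 = ⊥

/-- V2: graded subalgebras of maximal dimension. -/
def S_V2 : Prop := ∀ (K : Type u) [Field K] [CharZero K] (L : Type v) [LieRing L] [LieAlgebra K L]
  [FiniteDimensional K L] [LieAlgebra.IsKilling K L] (w : L) (M : ℤ), Dat K w M →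
  ∀ W : Submodule K L, (∀ x ∈ W, ∀ y ∈ W, ⁅x, y⁆ ∈ W) → (W ≤ ⨆ j : ℤ, W ⊓ dg K w j) →
  W ⊓ dg K w 0 = ⊥ → finrank K W ≤ finrank K (nn K w) ∧
    (finrank K W = finrank K (nn K w) →
      ∃ φ : L ≃ₗ⁅K⁆ L, Wd K φ ∧ (nn K w).map (φ : L →ₗ[K] L) = W)

/-- PV: any two data give the same space of forms. -/
def S_PV : Prop := ∀ (K : Type u) [Field K] [CharZero K] (L : Type v) [LieRing L] [LieAlgebra K L]
  [FiniteDimensional K L] [LieAlgebra.IsKilling K L] (w w' : L) (M M' : ℤ), Dat K w M →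
  Dat K w' M' → finrank K (nn K w) = finrank K (nn K w') ∧
  ∀ (m : ℕ) (n n' : Fin m → L), LinearIndependent K n → LinearIndependent K n' →
    Submodule.span K (Set.range n) = nn K w → Submodule.span K (Set.range n') = nn K w' →
    fdet K n' ∈ VV K n

/-- JM: the theorem of Jacobson and Morozov inside a subalgebra. -/
def S_JM : Prop := ∀ (K : Type u) [Field K] [CharZero K] (L : Type v) [LieRing L] [LieAlgebra K L]
  [FiniteDimensional K L] (P : LieSubalgebra K L),
  (∀ x ∈ P, (∀ y ∈ P, killingForm K L x y = 0) → x = 0) →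
  ∀ e ∈ P, e ≠ 0 → IsNilpotent (LieAlgebra.ad K L e) → ∃ h ∈ P, ∃ f ∈ P, IsSl2Triple h e f

/-- OBS: a subspace stable under `e`, `h` on which `h` has trace zero is stable under `f`. -/
def S_OBS : Prop := ∀ (K : Type u) [Field K] [CharZero K] (V : Type v) [AddCommGroup V]
  [Module K V] [FiniteDimensional K V] (h e f : Module.End K V), h * e - e * h = 2 • e →
  h * f - f * h = - (2 • f) → e * f - f * e = h →
  ∀ (W : Submodule K V) (_ : ∀ x ∈ W, e x ∈ W) (hh : ∀ x ∈ W, h x ∈ W),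
  LinearMap.trace K W (h.restrict hh) = 0 → ∀ x ∈ W, f x ∈ W

/-- GRD: an integer grading whose degree zero part is the centraliser of a semisimple element. -/
def S_GRD : Prop := ∀ (K : Type u) [Field K] [CharZero K] [IsAlgClosed K] (L : Type v) [LieRing L]
  [LieAlgebra K L] [FiniteDimensional K L] [LieAlgebra.IsKilling K L] (s : L),
  (LieAlgebra.ad K L s).IsSemisimple →
  ∃ w : L, (⨆ j : ℤ, dg K w j) = ⊤ ∧ dg K w 0 = LinearMap.ker (LieAlgebra.ad K L s)

/-- LEVI: the centraliser of a semisimple element is reductive. -/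
def S_LEVI : Prop := ∀ (K : Type u) [Field K] [CharZero K] [IsAlgClosed K] (L : Type v) [LieRing L]
  [LieAlgebra K L] [FiniteDimensional K L] [LieAlgebra.IsKilling K L] (s : L),
  (LieAlgebra.ad K L s).IsSemisimple →
  -- the Killing form is nondegenerate on the centraliser
  (∀ y : L, ⁅s, y⁆ = 0 → (∀ a : L, ⁅s, a⁆ = 0 → killingForm K L y a = 0) → y = 0) ∧
  -- and on its derived algebra
  (∀ y ∈ Submodule.span K {z : L | ∃ a b : L, ⁅s, a⁆ = 0 ∧ ⁅s, b⁆ = 0 ∧ z = ⁅a, b⁆},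
    (∀ a b : L, ⁅s, a⁆ = 0 → ⁅s, b⁆ = 0 → killingForm K L y ⁅a, b⁆ = 0) → y = 0) ∧
  -- the centraliser is the sum of its centre and its derived algebra
  (∀ y : L, ⁅s, y⁆ = 0 → ∃ z : L, ⁅s, z⁆ = 0 ∧ (∀ a : L, ⁅s, a⁆ = 0 → ⁅z, a⁆ = 0) ∧
    y - z ∈ Submodule.span K {z : L | ∃ a b : L, ⁅s, a⁆ = 0 ∧ ⁅s, b⁆ = 0 ∧ z = ⁅a, b⁆})

/-- SEM: a generic element orthogonal to `[r, r]` is semisimple. -/
def S_SEM : Prop := ∀ (K : Type u) [Field K] [CharZero K] [IsAlgClosed K] (L : Type v) [LieRing L]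
  [LieAlgebra K L] [FiniteDimensional K L] [LieAlgebra.IsKilling K L] (r : LieSubalgebra K L)
  (x s n : L), x = s + n → ⁅s, n⁆ = 0 → (LieAlgebra.ad K L s).IsSemisimple →
  IsNilpotent (LieAlgebra.ad K L n) →
  (∀ (y : L) (c : K), ⁅x, y⁆ = c • y → ⁅s, y⁆ = c • y) →
  (∀ a ∈ r, ∀ b ∈ r, killingForm K L x ⁅a, b⁆ = 0) →
  finrank K (LinearMap.range (LieAlgebra.ad K L x)) ≤
    2 * finrank K (r.toSubmodule.map (LieAlgebra.ad K L x)) →
  (∀ c : L, ⁅x, c⁆ = 0 →
    c ∈ Submodule.span K {z : L | ∃ a b : L, ⁅s, a⁆ = 0 ∧ ⁅s, b⁆ = 0 ∧ z = ⁅a, b⁆} →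
    c ∈ Submodule.span K {z : L | ∃ a ∈ r, ∃ b ∈ r, z = ⁅a, b⁆}) →
  (∀ y : L, (∀ a ∈ r, ∀ b ∈ r, killingForm K L y ⁅a, b⁆ = 0) →
    finrank K (LieSubalgebra.engel K x) ≤ finrank K (LieSubalgebra.engel K y)) →
  n = 0

/-- TRN: a transversal datum from a semisimple element. -/
def S_TRN : Prop := ∀ (K : Type u) [Field K] [CharZero K] [IsAlgClosed K] (L : Type v) [LieRing L]
  [LieAlgebra K L] [FiniteDimensional K L] [LieAlgebra.IsKilling K L] (r : LieSubalgebra K L)
  (x : L), (LieAlgebra.ad K L x).IsSemisimple →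
  (∀ a ∈ r, ∀ b ∈ r, killingForm K L x ⁅a, b⁆ = 0) →
  finrank K (LinearMap.range (LieAlgebra.ad K L x)) ≤
    2 * finrank K (r.toSubmodule.map (LieAlgebra.ad K L x)) →
  (∀ a b : L, ⁅x, a⁆ = 0 → ⁅x, b⁆ = 0 → ⁅a, b⁆ ∈ r) →
  ∃ w : L, ∃ M : ℤ, Dat K w M ∧ r.toSubmodule ⊔ bb K w = ⊤

/-- the form `((ρ, σ), (ρ', σ')) ↦ κ (α, [ρ, ρ']) + κ (x, [ρ, σ'] + [σ, ρ'])` on `r × L` -/
noncomputable def cform (K : Type u) {L : Type v} [Field K] [LieRing L] [LieAlgebra K L]
    (r : Submodule K L) (α x : L) : (r × L) →ₗ[K] (r × L) →ₗ[K] K :=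
  LinearMap.mk₂ K (fun a b => killingForm K L α ⁅(a.1 : L), (b.1 : L)⁆ +
      killingForm K L x (⁅(a.1 : L), b.2⁆ + ⁅a.2, (b.1 : L)⁆))
    (by intro a a' b
        simp only [Prod.fst_add, Prod.snd_add, Submodule.coe_add, add_lie, map_add]; ring)
    (by intro c a b
        simp only [Prod.smul_fst, Prod.smul_snd, Submodule.coe_smul, smul_lie, map_smul,
          smul_eq_mul, map_add]; ring)
    (by intro a b b'
        simp only [Prod.fst_add, Prod.snd_add, Submodule.coe_add, lie_add, map_add]; ring)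
    (by intro c a b
        simp only [Prod.smul_fst, Prod.smul_snd, Submodule.coe_smul, lie_smul, map_smul,
          smul_eq_mul, map_add]; ring)

/-- PENC: the inequality of Vinberg and Rais. -/
def S_PENC : Prop := ∀ (K : Type u) [Field K] [Infinite K] (L : Type v) [LieRing L]
  [LieAlgebra K L] [FiniteDimensional K L] [LieAlgebra.IsKilling K L] (r : LieSubalgebra K L)
  (α x : L) (ν : ℕ),
  (∀ t : K, finrank K (LinearMap.range (LieAlgebra.ad K L (x + t • α))) ≤ ν) →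
  ν ≤ finrank K (LinearMap.range (cform K r.toSubmodule α x)) →
  finrank K (LinearMap.range (LieAlgebra.ad K L x)) ≤
    2 * finrank K (r.toSubmodule.map (LieAlgebra.ad K L x))

end Pool.Agent.TH28.FL
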