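import Pool.Agent.TH28.FL.Fin
import Pool.Agent.TH28.FL.P3
import Pool.Agent.TH28.FL.RKS
import Pool.Agent.TH28.FL.RKG
import Pool.Agent.TH228.J1110
import Pool.Agent.TH293.J1781
import Pool.Agent.TH50.J1782
import Pool.Agent.TH606.J1769
import Pool.Agent.TH606.J1770
import Pool.Agent.TH611.J1767
import Pool.Agent.TH713.J1768
import Pool.Agent.TH367.J1771
import Pool.Agent.TH731.J1772
import Pool.Agent.TH113.J1773
import Pool.Agent.TH73.J1774
import Pool.Agent.TH830.J1775
import Pool.Agent.TH267.J1776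
import Pool.Agent.TH111.J1777
import Pool.Agent.TH494.J1778
import Pool.Agent.TH298.J1779
import Pool.Agent.TH298.J1780
import Pool.Agent.TH999.J1840
import Pool.Agent.TH999.J1841
import Pool.Agent.TH999.J1842
import Pool.Agent.TH713.J1843
import Pool.Agent.TH298.J1845
import Pool.Agent.TH511.J1846
import Pool.Agent.TH511.J1844
import Pool.Agent.TH713.J1847
import Pool.Agent.TH298.J1848
import Pool.Agent.TH73.J1849
import Pool.Agent.TH999.J1850
import Pool.Agent.TH999.J1851
import Pool.Agent.TH999.J1852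
import Pool.Agent.TH999.J1854
import Pool.Agent.TH699.J1855

/-! All statements of the project put together. -/

set_option autoImplicit false

universe u v

namespace Pool.Agent.TH28.FL

theorem aRK : S_RK.{u,v} := TH989.J1109.rk
theorem aPC : S_PC.{u,v} := TH228.FL.pc aRK
theorem aREF : S_REF.{u,v} := TH611.FL.ref
theorem aDAT1 : S_DAT1.{u,v} := TH713.J1768.dat1
theorem aJORD : S_JORD.{u,v} := TH606.FL.jord
theorem aDAT3 : S_DAT3.{u,v} := TH267.FL.dat3 aDAT1
theorem aDAT2 : S_DAT2.{u,v} := TH111.J1777.dat2 aREF aJORD aDAT3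
theorem aPV : S_PV.{u,v} :=
  TH298.FL.pv TH494.J1778.v1 (TH298.FL.v2 aREF) TH367.FL.expm
theorem aSEM : S_SEM.{u,v} :=
  TH293.Sem.sem TH606.FL.grd (TH73.J1774.levi aJORD) aJORD TH731.JM.jm TH113.J1773.obs
theorem aTRN : S_TRN.{u,v} := TH50.J1782.trn aREF aDAT3
theorem aCCL : S_CCL.{u,v} :=
  TH298.FLC.ccl TH999.J1840.ext aPV TH298.FLV.van TH511.J1846.mc
    (TH713.Step.step TH999.J1841.kt TH713.J1843.spc)
theorem aP4F : S_P4F.{u,v} :=
  TH73.J1849.p4f TH999.J1840.ext aDAT2 TH511.J1844.lamd aCCL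
theorem aP3 : S_P3.{u,v} :=
  p3 aJORD TH830.J1775.penc aSEM aTRN TH999.J1842.gen TH999.J1850.sb TH999.J1851.g3
    TH999.J1852.g4
theorem aRKG : S_RKG.{u,v} := rkg (rks aDAT1 aPV)

end Pool.Agent.TH28.FL
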