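import Pool.Agent.TH28.FL.DatK

/-!
# Basic facts on `K ⊗ s`: the operators `dL`, base change
-/

set_option autoImplicit false

universe u v

namespace Pool.Agent.TH28.FL

open Module TensorProduct

section dL

variable {k : Type u} [Field k] {s : Type v} [LieRing s] [LieAlgebra k s]
  {K : Type u} [Field K] [Algebra k K]

theorem dL_tmul (δ : Derivation k K K) (a : K) (x : s) :
    dL s δ (a ⊗ₜ[k] x) = δ a ⊗ₜ[k] x := rfl

theorem dL_smul (δ : Derivation k K K) (c : K) (x : K ⊗[k] s) :
    dL s δ (c • x) = δ c • x + c • dL s δ x := by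
  induction x using TensorProduct.induction_on with
  | zero => simp
  | tmul a y =>
    rw [smul_tmul', dL_tmul, dL_tmul, smul_tmul', smul_tmul', ← add_tmul, smul_eq_mul,
      Derivation.leibniz]
    simp only [smul_eq_mul]
    congr 1
    ring
  | add x y hx hy => rw [smul_add, map_add, hx, hy, map_add, smul_add, smul_add]; abel

theorem dL_lie (δ : Derivation k K K) (x y : K ⊗[k] s) :
    dL s δ ⁅x, y⁆ = ⁅dL s δ x, y⁆ + ⁅x, dL s δ y⁆ := by
  induction x using TensorProduct.induction_on with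
  | zero => simp
  | tmul a x =>
    induction y using TensorProduct.induction_on with
    | zero => simp
    | tmul b y =>
      rw [LieAlgebra.ExtendScalars.bracket_tmul, dL_tmul, dL_tmul, dL_tmul,
        LieAlgebra.ExtendScalars.bracket_tmul, LieAlgebra.ExtendScalars.bracket_tmul,
        ← add_tmul, Derivation.leibniz, smul_eq_mul, smul_eq_mul]
      congr 1
      ring
    | add y y' h h' =>
      rw [lie_add, map_add, h, h', map_add, lie_add, lie_add]; abel
  | add x x' h h' =>
    rw [add_lie, map_add, h, h', map_add, add_lie, add_lie]; abel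

theorem dL_add_der (δ δ' : Derivation k K K) (x : K ⊗[k] s) :
    dL s (δ + δ') x = dL s δ x + dL s δ' x := by
  induction x using TensorProduct.induction_on with
  | zero => simp
  | tmul a x => rw [dL_tmul, dL_tmul, dL_tmul, Derivation.add_apply, add_tmul]
  | add x y h h' => rw [map_add, h, h', map_add, map_add]; abel

theorem dL_smul_der (c : K) (δ : Derivation k K K) (x : K ⊗[k] s) :
    dL s (c • δ) x = c • dL s δ x := by
  induction x using TensorProduct.induction_on with
  | zero => simp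
  | tmul a x => rw [dL_tmul, dL_tmul, Derivation.smul_apply, smul_tmul']
  | add x y h h' => rw [map_add, h, h', map_add, smul_add]

theorem dL_zero_der (x : K ⊗[k] s) : dL s (0 : Derivation k K K) x = 0 := by
  have := dL_smul_der (0 : K) (0 : Derivation k K K) x
  rwa [zero_smul, zero_smul] at this

theorem dL_bracket (δ δ' : Derivation k K K) (x : K ⊗[k] s) :
    dL s ⁅δ, δ'⁆ x = dL s δ (dL s δ' x) - dL s δ' (dL s δ x) := by
  induction x using TensorProduct.induction_on with
  | zero => simp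
  | tmul a x =>
    rw [dL_tmul, dL_tmul, dL_tmul, dL_tmul, dL_tmul, Derivation.commutator_apply, sub_tmul]
  | add x y h h' => rw [map_add, h, h', map_add, map_add, map_add, map_add]; abel

/-- a semilinear map that vanishes on `1 ⊗ s` -/
theorem dL_one_tmul (δ : Derivation k K K) (x : s) : dL s δ (1 ⊗ₜ[k] x) = 0 := by
  rw [dL_tmul, Derivation.map_one_eq_zero, zero_tmul]

variable [FiniteDimensional k s]

theorem kf_baseChange : killingForm K (K ⊗[k] s) = (killingForm k s).baseChange K :=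
  LieModule.traceForm_baseChange (R := k) (L := s) (M := s) K

theorem kf_tmul (a b : K) (x y : s) :
    killingForm K (K ⊗[k] s) (a ⊗ₜ x) (b ⊗ₜ y) = a * b * algebraMap k K (killingForm k s x y) := by
  rw [kf_baseChange, LinearMap.BilinForm.baseChange_tmul]
  rw [Algebra.smul_def]
  ring

theorem dL_kf (δ : Derivation k K K) (x y : K ⊗[k] s) :
    δ (killingForm K (K ⊗[k] s) x y) =
      killingForm K (K ⊗[k] s) (dL s δ x) y + killingForm K (K ⊗[k] s) x (dL s δ y) := by
  induction x using TensorProduct.induction_on with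
  | zero => simp
  | tmul a x =>
    induction y using TensorProduct.induction_on with
    | zero => simp
    | tmul b y =>
      rw [kf_tmul, dL_tmul, dL_tmul, kf_tmul, kf_tmul, Derivation.leibniz, Derivation.leibniz,
        Derivation.map_algebraMap]
      simp only [smul_eq_mul]
      ring
    | add y y' h h' => rw [map_add, map_add, h, h', map_add, map_add, map_add]; ring
  | add x x' h h' =>
    rw [map_add, LinearMap.add_apply, map_add, h, h', map_add, map_add, LinearMap.add_apply,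
      LinearMap.add_apply]
    ring

instance isKilling_tensor [LieAlgebra.IsKilling k s] :
    LieAlgebra.IsKilling K (K ⊗[k] s) := by
  constructor
  rw [eq_bot_iff]
  intro x hx
  rw [LieIdeal.mem_killingCompl] at hx
  set e := finBasis k s
  rw [LieSubmodule.mem_bot]
  have h1 : ∀ j, (e.baseChange K).repr x j = 0 := by
    intro j
    have h2 := hx (1 ⊗ₜ[k] dualE e j) (LieSubmodule.mem_top _)
    rw [← (e.baseChange K).sum_repr x, map_sum] at h2
    have h3 : ∀ i, killingForm K (K ⊗[k] s) (1 ⊗ₜ[k] dualE e j)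
        ((e.baseChange K).repr x i • (e.baseChange K) i) =
        if i = j then (e.baseChange K).repr x i else 0 := by
      intro i
      rw [Basis.baseChange_apply, map_smul, kf_tmul, dualE_left, smul_eq_mul]
      split_ifs <;> simp
    have h4 : ∑ i, killingForm K (K ⊗[k] s) (1 ⊗ₜ[k] dualE e j)
        ((e.baseChange K).repr x i • (e.baseChange K) i) = 0 := h2
    simp only [h3, Finset.sum_ite_eq', Finset.mem_univ, if_true] at h4
    exact h4
  rw [← (e.baseChange K).sum_repr x]
  exact Finset.sum_eq_zero fun i _ => by rw [h1, zero_smul]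

end dL

section rK

variable {k : Type u} [Field k] {s : Type v} [LieRing s] [LieAlgebra k s]
  {K : Type u} [Field K] [Algebra k K]

theorem rK_eq_span (r : Submodule k s) :
    rK K r = Submodule.span K ((fun x : s => (1 : K) ⊗ₜ[k] x) '' (r : Set s)) := by
  unfold rK
  rw [Submodule.baseChange_eq_span]
  rfl

theorem tmul_mem_rK {r : Submodule k s} (a : K) {x : s} (hx : x ∈ r) : a ⊗ₜ[k] x ∈ rK K r :=
  Submodule.tmul_mem_baseChange_of_mem a hx

theorem rK_mono {r r' : Submodule k s} (h : r ≤ r') : rK K r ≤ rK K r' :=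
  Submodule.baseChange_mono K h

theorem rK_lie (r : LieSubalgebra k s) {x y : K ⊗[k] s} (hx : x ∈ rK K r.toSubmodule)
    (hy : y ∈ rK K r.toSubmodule) : ⁅x, y⁆ ∈ rK K r.toSubmodule := by
  rw [rK_eq_span] at hx
  induction hx using Submodule.span_induction with
  | mem x hx =>
    obtain ⟨x, hx, rfl⟩ := hx
    rw [rK_eq_span] at hy
    induction hy using Submodule.span_induction with
    | mem y hy =>
      obtain ⟨y, hy, rfl⟩ := hy
      rw [LieAlgebra.ExtendScalars.bracket_tmul]
      exact tmul_mem_rK _ (r.lie_mem hx hy)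
    | zero => rw [lie_zero]; exact zero_mem _
    | add y y' _ _ h h' => rw [lie_add]; exact add_mem h h'
    | smul c y _ h => rw [lie_smul]; exact Submodule.smul_mem _ c h
  | zero => rw [zero_lie]; exact zero_mem _
  | add y y' _ _ h h' => rw [add_lie]; exact add_mem h h'
  | smul c y _ h => rw [smul_lie]; exact Submodule.smul_mem _ c h

variable (K) in
/-- the extension of scalars of a Lie subalgebra -/
noncomputable def rKL (r : LieSubalgebra k s) : LieSubalgebra K (K ⊗[k] s) :=
  { rK K r.toSubmodule with lie_mem' := fun hx hy => rK_lie r hx hy }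

theorem rKL_toSubmodule (r : LieSubalgebra k s) : (rKL K r).toSubmodule = rK K r.toSubmodule := rfl

theorem mem_rKL {r : LieSubalgebra k s} {x : K ⊗[k] s} :
    x ∈ rKL K r ↔ x ∈ rK K r.toSubmodule := Iff.rfl

theorem dL_rK {r : Submodule k s} (δ : Derivation k K K) {x : K ⊗[k] s} (hx : x ∈ rK K r) :
    dL s δ x ∈ rK K r := by
  rw [rK_eq_span] at hx
  induction hx using Submodule.span_induction with
  | mem x hx =>
    obtain ⟨x, hx, rfl⟩ := hx
    change dL s δ (1 ⊗ₜ[k] x) ∈ _
    rw [dL_one_tmul]; exact zero_mem _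
  | zero => rw [map_zero]; exact zero_mem _
  | add y y' _ _ h h' => rw [map_add]; exact add_mem h h'
  | smul c y hy h =>
    rw [dL_smul]
    refine add_mem (Submodule.smul_mem _ _ ?_) (Submodule.smul_mem _ c h)
    rw [rK_eq_span]; exact hy

end rK

section vel

variable {k : Type u} [Field k] {s : Type v} [LieRing s] [LieAlgebra k s]
  {K : Type u} [Field K] [Algebra k K]

/-- the operator `x ↦ δ x - [A, x]` -/
noncomputable def Dop (δ : Derivation k K K) (A : K ⊗[k] s) : (K ⊗[k] s) →ₗ[k] (K ⊗[k] s) :=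
  dL s δ - LieAlgebra.ad k (K ⊗[k] s) A

theorem Dop_apply (δ : Derivation k K K) (A x : K ⊗[k] s) :
    Dop δ A x = dL s δ x - ⁅A, x⁆ := rfl

theorem Dop_smul (δ : Derivation k K K) (A : K ⊗[k] s) (c : K) (x : K ⊗[k] s) :
    Dop δ A (c • x) = δ c • x + c • Dop δ A x := by
  rw [Dop_apply, Dop_apply, dL_smul, lie_smul, smul_sub]; abel

theorem Dop_lie (δ : Derivation k K K) (A x y : K ⊗[k] s) :
    Dop δ A ⁅x, y⁆ = ⁅Dop δ A x, y⁆ + ⁅x, Dop δ A y⁆ := by
  rw [Dop_apply, Dop_apply, Dop_apply, dL_lie, leibniz_lie A x y, sub_lie, lie_sub]; abel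

theorem Dop_kf [FiniteDimensional k s] (δ : Derivation k K K) (A x y : K ⊗[k] s) :
    δ (killingForm K (K ⊗[k] s) x y) =
      killingForm K (K ⊗[k] s) (Dop δ A x) y + killingForm K (K ⊗[k] s) x (Dop δ A y) := by
  rw [dL_kf, Dop_apply, Dop_apply, map_sub, LinearMap.sub_apply, map_sub, kf_lie' A x y]
  ring

theorem Dop_dg {δ : Derivation k K K} {w A : K ⊗[k] s} (hA : dL s δ w = ⁅A, w⁆) {j : ℤ}
    {x : K ⊗[k] s} (hx : x ∈ dg K w j) : Dop δ A x ∈ dg K w j := by
  rw [mem_dg] at hx ⊢
  have h1 : Dop δ A ⁅w, x⁆ = ⁅Dop δ A w, x⁆ + ⁅w, Dop δ A x⁆ := Dop_lie δ A w x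
  have h2 : Dop δ A w = 0 := by rw [Dop_apply, hA, sub_self]
  rw [h2, zero_lie, zero_add, hx, Dop_smul] at h1
  rw [← h1, Derivation.map_intCast, zero_smul, zero_add]

theorem vel_dg {δ : Derivation k K K} {w A : K ⊗[k] s} (hA : dL s δ w = ⁅A, w⁆) {j : ℤ}
    {x : K ⊗[k] s} (hx : x ∈ dg K w j) : dL s δ x - ⁅A, x⁆ ∈ dg K w j := Dop_dg hA hx

theorem Dop_graded {δ : Derivation k K K} {w A : K ⊗[k] s} (hA : dL s δ w = ⁅A, w⁆) {p : ℤ → Prop}
    {x : K ⊗[k] s} (hx : x ∈ ⨆ j : ℤ, ⨆ _ : p j, dg K w j) :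
    Dop δ A x ∈ ⨆ j : ℤ, ⨆ _ : p j, dg K w j := by
  obtain ⟨t, f, ht, hf, rfl⟩ := exists_sum_of_mem hx
  rw [map_sum]
  refine Submodule.sum_mem _ fun j hj => ?_
  exact (le_iSup₂_of_le j (ht j hj) le_rfl : dg K w j ≤ _) (Dop_dg hA (hf j))

theorem vel_bb {δ : Derivation k K K} {w A : K ⊗[k] s} (hA : dL s δ w = ⁅A, w⁆)
    {x : K ⊗[k] s} (hx : x ∈ bb K w) : dL s δ x - ⁅A, x⁆ ∈ bb K w := Dop_graded hA hx

theorem vel_nn {δ : Derivation k K K} {w A : K ⊗[k] s} (hA : dL s δ w = ⁅A, w⁆)
    {x : K ⊗[k] s} (hx : x ∈ nn K w) : dL s δ x - ⁅A, x⁆ ∈ nn K w := Dop_graded hA hx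

/-- the bracket of two velocities -/
theorem vel_bracket {δ δ' : Derivation k K K} {w A A' : K ⊗[k] s} (hA : dL s δ w = ⁅A, w⁆)
    (hA' : dL s δ' w = ⁅A', w⁆) :
    dL s ⁅δ, δ'⁆ w = ⁅dL s δ A' - dL s δ' A - ⁅A, A'⁆, w⁆ := by
  rw [dL_bracket, hA, hA', dL_lie, dL_lie, hA, hA', sub_lie, sub_lie, lie_lie]
  abel

/-- existence of the velocity -/
theorem exa [CharZero k] [FiniteDimensional k s] [LieAlgebra.IsKilling k s] {w : K ⊗[k] s}
    (ht : ⨆ j : ℤ, dg K w j = ⊤) (δ : Derivation k K K) :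
    ∃ A : K ⊗[k] s, dL s δ w = ⁅A, w⁆ := by
  classical
  have hK : CharZero K := charZero_of_injective_algebraMap (algebraMap k K).injective
  obtain ⟨t, f, hf, hsum⟩ := exists_sum_of_top ht (dL s δ w)
  -- the degree zero component commutes with everything
  have h0 : 0 ∈ t → f 0 = 0 := by
    intro h0t
    have hcomm : ∀ v : K ⊗[k] s, ⁅f 0, v⁆ = 0 := by
      intro v
      obtain ⟨t', g, hg, rfl⟩ := exists_sum_of_top ht v
      rw [lie_sum]
      refine Finset.sum_eq_zero fun j _ => ?_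
      -- `[δ w, g j] + [w, δ (g j)] = j δ (g j)`
      have h1 : dL s δ ⁅w, g j⁆ = ⁅dL s δ w, g j⁆ + ⁅w, dL s δ (g j)⁆ := dL_lie δ w (g j)
      rw [mem_dg.1 (hg j), dL_smul, Derivation.map_intCast, zero_smul, zero_add] at h1
      apply kf_dg_nondeg ht (i := 0 + j) (lie_dg (hf 0) (hg j))
      intro y hy
      have h2 : killingForm K (K ⊗[k] s) ⁅dL s δ w, g j⁆ y = 0 := by
        have h3 : ⁅dL s δ w, g j⁆ = (j : K) • dL s δ (g j) - ⁅w, dL s δ (g j)⁆ := by
          rw [h1]; abel
        rw [h3, map_sub, LinearMap.sub_apply, map_smul, LinearMap.smul_apply, kf_lie',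
          mem_dg.1 hy, map_smul]
        simp only [smul_eq_mul]
        push_cast
        ring
      rw [hsum, sum_lie, map_sum, LinearMap.sum_apply,
        Finset.sum_eq_single_of_mem 0 h0t] at h2
      · exact h2
      · intro i _ hi
        exact killing_dg (lie_dg (hf i) (hg j)) hy (by omega)
    apply kf_nondeg (K := K)
    intro y
    -- `f 0` is central, so `ad (f 0) = 0`
    have h3 : LieAlgebra.ad K (K ⊗[k] s) (f 0) = 0 := by
      ext v; exact hcomm _
    rw [killingForm_apply_apply, h3]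
    simp
  refine ⟨- ∑ j ∈ t, (j : K)⁻¹ • f j, ?_⟩
  rw [hsum, neg_lie, sum_lie, ← Finset.sum_neg_distrib]
  refine Finset.sum_congr rfl fun j hj => ?_
  rw [smul_lie, ← lie_skew, mem_dg.1 (hf j)]
  by_cases hj0 : j = 0
  · subst hj0
    rw [h0 hj]; simp
  · have : (j : K) ≠ 0 := by exact_mod_cast hj0
    rw [smul_neg, neg_neg, smul_smul, inv_mul_cancel₀ this, one_smul]

end vel

section io

variable {k : Type u} [Field k] {s : Type v} [LieRing s] [LieAlgebra k s]
  {K : Type u} [Field K] [Algebra k K]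
  {K₁ : Type u} [Field K₁] [Algebra k K₁] [Algebra K K₁] [IsScalarTower k K K₁]

theorem io_tmul (a : K) (x : s) :
    io k s K K₁ (a ⊗ₜ[k] x) = algebraMap K K₁ a ⊗ₜ[k] x := rfl

theorem io_smul (a : K) (x : K ⊗[k] s) :
    io k s K K₁ (a • x) = algebraMap K K₁ a • io k s K K₁ x := by
  induction x using TensorProduct.induction_on with
  | zero => simp
  | tmul b y => rw [smul_tmul', io_tmul, io_tmul, smul_tmul', smul_eq_mul, smul_eq_mul, map_mul]
  | add x y hx hy => rw [smul_add, map_add, hx, hy, map_add, smul_add]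

theorem io_lie (x y : K ⊗[k] s) :
    io k s K K₁ ⁅x, y⁆ = ⁅io k s K K₁ x, io k s K K₁ y⁆ := by
  induction x using TensorProduct.induction_on with
  | zero => simp
  | tmul a x =>
    induction y using TensorProduct.induction_on with
    | zero => simp
    | tmul b y =>
      rw [LieAlgebra.ExtendScalars.bracket_tmul, io_tmul, io_tmul, io_tmul,
        LieAlgebra.ExtendScalars.bracket_tmul, map_mul]
    | add y y' h h' => rw [lie_add, map_add, h, h', map_add, lie_add]
  | add x x' h h' => rw [add_lie, map_add, h, h', map_add, add_lie]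

theorem io_kf [FiniteDimensional k s] (x y : K ⊗[k] s) :
    killingForm K₁ (K₁ ⊗[k] s) (io k s K K₁ x) (io k s K K₁ y) =
      algebraMap K K₁ (killingForm K (K ⊗[k] s) x y) := by
  induction x using TensorProduct.induction_on with
  | zero => simp
  | tmul a x =>
    induction y using TensorProduct.induction_on with
    | zero => simp
    | tmul b y =>
      rw [io_tmul, io_tmul, kf_tmul, kf_tmul, map_mul, map_mul,
        ← IsScalarTower.algebraMap_apply]
    | add y y' h h' => rw [map_add, map_add, h, h', map_add, map_add]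
  | add x x' h h' =>
    rw [map_add, map_add, LinearMap.add_apply, h, h', map_add, LinearMap.add_apply, map_add]

theorem io_dL {δ : Derivation k K K} {δ₁ : Derivation k K₁ K₁}
    (h : ∀ a, δ₁ (algebraMap K K₁ a) = algebraMap K K₁ (δ a)) (x : K ⊗[k] s) :
    dL s δ₁ (io k s K K₁ x) = io k s K K₁ (dL s δ x) := by
  induction x using TensorProduct.induction_on with
  | zero => simp
  | tmul b y => rw [io_tmul, dL_tmul, dL_tmul, io_tmul, h]
  | add x y hx hy => rw [map_add, map_add, hx, hy, map_add, map_add]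

/-- the image of a basis -/
noncomputable def ioB (K₁ : Type u) [Field K₁] [Algebra k K₁] [Algebra K K₁]
    [IsScalarTower k K K₁] {ι : Type*} (v : Basis ι K (K ⊗[k] s)) : Basis ι K₁ (K₁ ⊗[k] s) :=
  (v.baseChange K₁).map (TensorProduct.AlgebraTensorModule.cancelBaseChange k K K₁ K₁ s)

theorem ioB_apply {ι : Type*} (v : Basis ι K (K ⊗[k] s)) (i : ι) :
    ioB K₁ v i = io k s K K₁ (v i) := by
  unfold ioB
  rw [Basis.map_apply, Basis.baseChange_apply]
  induction v i using TensorProduct.induction_on with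
  | zero => simp
  | tmul b y =>
    rw [TensorProduct.AlgebraTensorModule.cancelBaseChange_tmul, io_tmul, Algebra.smul_def, mul_one]
  | add x y hx hy => rw [tmul_add, map_add, map_add, hx, hy]

theorem ioB_repr {ι : Type*} [Fintype ι] (v : Basis ι K (K ⊗[k] s)) (x : K ⊗[k] s) (i : ι) :
    (ioB K₁ v).repr (io k s K K₁ x) i = algebraMap K K₁ (v.repr x i) := by
  classical
  conv_lhs => rw [← v.sum_repr x]
  rw [map_sum, map_sum, Finsupp.finsetSum_apply]
  rw [Finset.sum_eq_single i]
  · rw [io_smul, ← ioB_apply, map_smul, Basis.repr_self, Finsupp.smul_apply, Finsupp.single_eq_same,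
      smul_eq_mul, mul_one]
  · intro j _ hj
    rw [io_smul, ← ioB_apply, map_smul, Basis.repr_self, Finsupp.smul_apply,
      Finsupp.single_eq_of_ne hj.symm, smul_zero]
  · intro h; exact absurd (Finset.mem_univ i) h

variable [FiniteDimensional k s]

/-- extension of a linear form -/
theorem exists_form (φ : (K ⊗[k] s) →ₗ[K] K) : ∃ φ₁ : (K₁ ⊗[k] s) →ₗ[K₁] K₁,
    ∀ x, φ₁ (io k s K K₁ x) = algebraMap K K₁ (φ x) := by
  let v := finBasis K (K ⊗[k] s)
  refine ⟨(ioB K₁ v).constr K₁ (fun i => algebraMap K K₁ (φ (v i))), fun x => ?_⟩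
  rw [Basis.constr_apply_fintype]
  conv_rhs => rw [← v.sum_repr x]
  rw [map_sum, map_sum]
  refine Finset.sum_congr rfl fun i _ => ?_
  rw [Basis.equivFun_apply, ioB_repr, smul_eq_mul, map_smul, smul_eq_mul, map_mul]

theorem io_injective : Function.Injective (io k s K K₁) := by
  intro x y h
  let v := finBasis K (K ⊗[k] s)
  apply v.repr.injective
  ext i
  apply (algebraMap K K₁).injective
  rw [← ioB_repr, ← ioB_repr, h]

omit [FiniteDimensional k s] in
theorem io_mem_ioS {V : Submodule K (K ⊗[k] s)} {x : K ⊗[k] s} (hx : x ∈ V) :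
    io k s K K₁ x ∈ ioS K K₁ V := Submodule.subset_span ⟨x, hx, rfl⟩

theorem io_mem_ioS_iff {V : Submodule K (K ⊗[k] s)} {x : K ⊗[k] s} :
    io k s K K₁ x ∈ ioS K K₁ V ↔ x ∈ V := by
  refine ⟨fun h => ?_, io_mem_ioS⟩
  by_contra hx
  obtain ⟨φ, h1, h2⟩ := Submodule.exists_le_ker_of_notMem hx
  obtain ⟨φ₁, hφ⟩ := exists_form (K₁ := K₁) φ
  have h3 : ioS K K₁ V ≤ LinearMap.ker φ₁ := by
    unfold ioS
    rw [Submodule.span_le]
    rintro _ ⟨y, hy, rfl⟩
    rw [SetLike.mem_coe, LinearMap.mem_ker, hφ, h2 hy, map_zero]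
  have h4 := h3 h
  rw [LinearMap.mem_ker, hφ] at h4
  exact h1 ((map_eq_zero _).1 h4)

omit [FiniteDimensional k s] in
theorem ioS_mono {V W : Submodule K (K ⊗[k] s)} (h : V ≤ W) : ioS K K₁ V ≤ ioS K K₁ W :=
  Submodule.span_mono (Set.image_mono h)

omit [FiniteDimensional k s] in
theorem ioS_span (S : Set (K ⊗[k] s)) :
    ioS K K₁ (Submodule.span K S) = Submodule.span K₁ (io k s K K₁ '' S) := by
  apply le_antisymm
  · unfold ioS
    rw [Submodule.span_le]
    rintro _ ⟨y, hy, rfl⟩
    rw [SetLike.mem_coe] at hy ⊢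
    induction hy using Submodule.span_induction with
    | mem x hx => exact Submodule.subset_span ⟨x, hx, rfl⟩
    | zero => rw [map_zero]; exact zero_mem _
    | add x y _ _ h h' => rw [map_add]; exact add_mem h h'
    | smul c x _ h => rw [io_smul]; exact Submodule.smul_mem _ _ h
  · exact Submodule.span_mono (Set.image_mono Submodule.subset_span)

omit [FiniteDimensional k s] in
theorem ioS_sup (V W : Submodule K (K ⊗[k] s)) : ioS K K₁ (V ⊔ W) = ioS K K₁ V ⊔ ioS K K₁ W := by
  conv_lhs => rw [← Submodule.span_eq V, ← Submodule.span_eq W, ← Submodule.span_union]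
  rw [ioS_span, Set.image_union, Submodule.span_union]
  rfl

omit [FiniteDimensional k s] in
theorem ioS_bot : ioS K K₁ (⊥ : Submodule K (K ⊗[k] s)) = ⊥ := by
  unfold ioS
  rw [Submodule.bot_coe, Set.image_singleton, map_zero, Submodule.span_zero_singleton]

omit [FiniteDimensional k s] in
theorem ioS_iSup {ι : Sort*} (V : ι → Submodule K (K ⊗[k] s)) :
    ioS K K₁ (⨆ i, V i) = ⨆ i, ioS K K₁ (V i) := by
  have h : ⨆ i, V i = Submodule.span K (⋃ i, (V i : Set (K ⊗[k] s))) := by
    rw [Submodule.span_iUnion]; simp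
  rw [h, ioS_span, Set.image_iUnion, Submodule.span_iUnion]
  rfl

theorem ioS_top : ioS K K₁ (⊤ : Submodule K (K ⊗[k] s)) = ⊤ := by
  let v := finBasis K (K ⊗[k] s)
  rw [eq_top_iff, ← (ioB K₁ v).span_eq, Submodule.span_le]
  rintro _ ⟨i, rfl⟩
  rw [ioB_apply]
  exact io_mem_ioS Submodule.mem_top

theorem linearIndependent_io {ι : Type*} {v : ι → K ⊗[k] s} (hv : LinearIndependent K v) :
    LinearIndependent K₁ (fun i => io k s K K₁ (v i)) := by
  classical
  have : Finite ι := hv.finite_of_isNoetherian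
  let _ := Fintype.ofFinite ι
  rw [Fintype.linearIndependent_iff]
  intro g hg i
  have hi := linearIndependent_iff_notMem_span.1 hv i
  obtain ⟨φ, h1, h2⟩ := Submodule.exists_le_ker_of_notMem hi
  obtain ⟨φ₁, hφ₁⟩ := exists_form (K₁ := K₁) φ
  have h3 := congrArg φ₁ hg
  rw [map_sum, map_zero, Finset.sum_eq_single i] at h3
  · rw [map_smul, hφ₁, smul_eq_mul] at h3
    rcases mul_eq_zero.1 h3 with h4 | h4
    · exact h4
    · exact absurd ((map_eq_zero _).1 h4) h1
  · intro j _ hj
    have h4 : φ (v j) = 0 := h2 (Submodule.subset_span ⟨j, by simpa using hj, rfl⟩)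
    rw [map_smul, hφ₁, h4, map_zero, smul_zero]
  · intro h; exact absurd (Finset.mem_univ i) h

theorem finrank_ioS (V : Submodule K (K ⊗[k] s)) : finrank K₁ (ioS K K₁ V) = finrank K V := by
  let v := finBasis K V
  have h1 : LinearIndependent K (fun i => (v i : K ⊗[k] s)) :=
    v.linearIndependent.map' V.subtype (Submodule.ker_subtype V)
  have h2 := linearIndependent_io (K₁ := K₁) h1
  have h3 : ioS K K₁ V = Submodule.span K₁ (Set.range fun i => io k s K K₁ (v i)) := by
    have h4 : V = Submodule.span K (Set.range fun i => (v i : K ⊗[k] s)) := by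
      have := congrArg (Submodule.map V.subtype) v.span_eq
      rw [Submodule.map_span, Submodule.map_top, Submodule.range_subtype, ← Set.range_comp] at this
      exact this.symm
    conv_lhs => rw [h4]
    rw [ioS_span, ← Set.range_comp]
    rfl
  rw [h3, finrank_span_eq_card h2, Fintype.card_fin]

theorem ioS_inf (V W : Submodule K (K ⊗[k] s)) : ioS K K₁ (V ⊓ W) = ioS K K₁ V ⊓ ioS K K₁ W := by
  apply Submodule.eq_of_le_of_finrank_eq
  · exact le_inf (ioS_mono inf_le_left) (ioS_mono inf_le_right)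
  · have h1 := Submodule.finrank_sup_add_finrank_inf_eq V W
    have h2 := Submodule.finrank_sup_add_finrank_inf_eq (ioS K K₁ V) (ioS K K₁ W)
    rw [← ioS_sup, finrank_ioS, finrank_ioS, finrank_ioS] at h2
    rw [finrank_ioS]
    omega

theorem finrank_tensor : finrank K (K ⊗[k] s) = finrank k s := Module.finrank_baseChange

omit [FiniteDimensional k s] in
theorem ioS_rK (r : Submodule k s) : ioS K K₁ (rK K r) = rK K₁ r := by
  rw [rK_eq_span, ioS_span, rK_eq_span, ← Set.image_comp]
  congr 1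
  refine Set.image_congr fun x _ => ?_
  change io k s K K₁ (1 ⊗ₜ x) = 1 ⊗ₜ x
  rw [io_tmul, map_one]

/-- kernels commute with extension of scalars -/
theorem ioS_ker {T : (K ⊗[k] s) →ₗ[K] (K ⊗[k] s)} {T₁ : (K₁ ⊗[k] s) →ₗ[K₁] (K₁ ⊗[k] s)}
    (h : ∀ x, T₁ (io k s K K₁ x) = io k s K K₁ (T x)) :
    ioS K K₁ (LinearMap.ker T) = LinearMap.ker T₁ := by
  have hle : ioS K K₁ (LinearMap.ker T) ≤ LinearMap.ker T₁ := by
    unfold ioS
    rw [Submodule.span_le]
    rintro _ ⟨x, hx, rfl⟩
    rw [SetLike.mem_coe, LinearMap.mem_ker, h, LinearMap.mem_ker.1 hx, map_zero]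
  apply Submodule.eq_of_le_of_finrank_eq hle
  have h1 : LinearMap.range T₁ = ioS K K₁ (LinearMap.range T) := by
    rw [LinearMap.range_eq_map, ← ioS_top (K := K)]
    unfold ioS
    rw [Submodule.map_span]
    congr 1
    rw [← Set.image_comp]
    ext y
    constructor
    · rintro ⟨x, _, rfl⟩
      exact ⟨T x, ⟨x, rfl⟩, (h x).symm⟩
    · rintro ⟨_, ⟨x, rfl⟩, rfl⟩
      exact ⟨x, trivial, h x⟩
  have h2 := LinearMap.finrank_range_add_finrank_ker T
  have h3 := LinearMap.finrank_range_add_finrank_ker T₁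
  rw [h1, finrank_ioS, finrank_tensor] at h3
  rw [finrank_tensor] at h2
  rw [finrank_ioS]
  omega

theorem ioS_dg (w : K ⊗[k] s) (j : ℤ) : ioS K K₁ (dg K w j) = dg K₁ (io k s K K₁ w) j := by
  have e : ∀ (F : Type u) [Field F] [Algebra k F] (w : F ⊗[k] s), dg F w j =
      LinearMap.ker (LieAlgebra.ad F (F ⊗[k] s) w - (j : F) • LinearMap.id) := by
    intro F _ _ w
    ext x
    rw [mem_dg, LinearMap.mem_ker, LinearMap.sub_apply, LieAlgebra.ad_apply, LinearMap.smul_apply,
      LinearMap.id_apply, sub_eq_zero]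
  rw [e, e]
  apply ioS_ker
  intro x
  rw [LinearMap.sub_apply, LinearMap.sub_apply, LieAlgebra.ad_apply, LieAlgebra.ad_apply,
    LinearMap.smul_apply, LinearMap.smul_apply, LinearMap.id_apply, LinearMap.id_apply, map_sub,
    io_lie, io_smul, map_intCast]

theorem ioS_bb (w : K ⊗[k] s) : ioS K K₁ (bb K w) = bb K₁ (io k s K K₁ w) := by
  unfold bb
  simp only [ioS_iSup, ioS_dg]

theorem ioS_nn (w : K ⊗[k] s) : ioS K K₁ (nn K w) = nn K₁ (io k s K K₁ w) := by
  unfold nn
  simp only [ioS_iSup, ioS_dg]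

theorem dat_io {w : K ⊗[k] s} {M : ℤ} (h : Dat K w M) : Dat K₁ (io k s K K₁ w) M where
  pos := h.pos
  top := by
    simp only [← ioS_dg, ← ioS_iSup]
    rw [h.top, ioS_top]
  gap := by
    intro j h0 h1
    rw [← ioS_dg, h.gap j h0 h1, ioS_bot]
  one := by
    intro j h0
    rw [← ioS_dg, finrank_ioS]
    exact h.one j h0
  comm := by
    intro x hx y hy
    rw [← ioS_dg] at hx hy
    unfold ioS at hx hy
    induction hx using Submodule.span_induction with
    | mem x hx =>
      obtain ⟨x, hx, rfl⟩ := hx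
      induction hy using Submodule.span_induction with
      | mem y hy =>
        obtain ⟨y, hy, rfl⟩ := hy
        rw [← io_lie, h.comm x hx y hy, map_zero]
      | zero => rw [lie_zero]
      | add y y' _ _ h h' => rw [lie_add, h, h', add_zero]
      | smul c y _ h => rw [lie_smul, h, smul_zero]
    | zero => rw [zero_lie]
    | add y y' _ _ h h' => rw [add_lie, h, h', add_zero]
    | smul c y _ h => rw [smul_lie, h, smul_zero]
  gen := by
    intro j hj z hz
    rw [← ioS_dg] at hz
    have h1 : dg K w j ≤ Submodule.span K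
      {z | ∃ c : ℤ, M ≤ |c| ∧ |c| < 2 * M ∧ 0 < c * j ∧
        ∃ x ∈ dg K w c, ∃ y ∈ dg K w (j - c), z = ⁅x, y⁆} := fun z hz => h.gen j hj z hz
    have h2 := ioS_mono (K₁ := K₁) h1 hz
    rw [ioS_span] at h2
    refine Submodule.span_mono ?_ h2
    rintro _ ⟨_, ⟨c, c1, c2, c3, x, hx, y, hy, rfl⟩, rfl⟩
    refine ⟨c, c1, c2, c3, io k s K K₁ x, ?_, io k s K K₁ y, ?_, io_lie x y⟩
    · rw [← ioS_dg]; exact io_mem_ioS hx
    · rw [← ioS_dg]; exact io_mem_ioS hy

end io

section vel2

variable {k : Type u} [Field k] {s : Type v} [LieRing s] [LieAlgebra k s]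
  {K : Type u} [Field K] [Algebra k K]

/-- the velocities form a subspace -/
theorem span_vel {w A : K ⊗[k] s}
    (hA : A ∈ Submodule.span K {A : K ⊗[k] s | ∃ δ : Derivation k K K, dL s δ w = ⁅A, w⁆}) :
    ∃ δ : Derivation k K K, dL s δ w = ⁅A, w⁆ := by
  induction hA using Submodule.span_induction with
  | mem A hA => exact hA
  | zero => exact ⟨0, by rw [dL_zero_der, zero_lie]⟩
  | add A A' _ _ h h' =>
    obtain ⟨δ, h⟩ := h
    obtain ⟨δ', h'⟩ := h'
    exact ⟨δ + δ', by rw [dL_add_der, h, h', add_lie]⟩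
  | smul c A _ h =>
    obtain ⟨δ, h⟩ := h
    exact ⟨c • δ, by rw [dL_smul_der, h, smul_lie]⟩

theorem mem_TT {r : Submodule k s} {w x : K ⊗[k] s} : x ∈ TT r w ↔
    ∃ (δ : Derivation k K K) (A : K ⊗[k] s), dL s δ w = ⁅A, w⁆ ∧
      ∃ ρ ∈ rK K r, ∃ β ∈ bb K w, x = A + ρ + β := by
  constructor
  · intro h
    unfold TT at h
    obtain ⟨y, hy, β, hβ, rfl⟩ := Submodule.mem_sup.1 h
    obtain ⟨A, hA, ρ, hρ, rfl⟩ := Submodule.mem_sup.1 hy
    obtain ⟨δ, hδ⟩ := span_vel hA
    exact ⟨δ, A, hδ, ρ, hρ, β, hβ, rfl⟩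
  · rintro ⟨δ, A, hδ, ρ, hρ, β, hβ, rfl⟩
    exact add_mem (add_mem (Submodule.mem_sup_left (Submodule.mem_sup_left
      (Submodule.subset_span ⟨δ, hδ⟩))) (Submodule.mem_sup_left (Submodule.mem_sup_right hρ)))
      (Submodule.mem_sup_right hβ)

theorem vel_mem_TT {r : Submodule k s} {w A : K ⊗[k] s} {δ : Derivation k K K}
    (h : dL s δ w = ⁅A, w⁆) : A ∈ TT r w :=
  Submodule.mem_sup_left (Submodule.mem_sup_left (Submodule.subset_span ⟨δ, h⟩))

theorem rK_le_TT (r : Submodule k s) (w : K ⊗[k] s) : rK K r ≤ TT r w :=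
  le_sup_of_le_left le_sup_right

theorem bb_le_TT (r : Submodule k s) (w : K ⊗[k] s) : bb K w ≤ TT r w := le_sup_right

variable {K₁ : Type u} [Field K₁] [Algebra k K₁] [Algebra K K₁] [IsScalarTower k K K₁]
  [FiniteDimensional k s]

theorem ioS_TT_le (hE : ∀ δ : Derivation k K K, ∃ δ₁ : Derivation k K₁ K₁,
      ∀ a, δ₁ (algebraMap K K₁ a) = algebraMap K K₁ (δ a)) (r : Submodule k s)
    (w : K ⊗[k] s) : ioS K K₁ (TT r w) ≤ TT r (io k s K K₁ w) := by
  unfold TT
  rw [ioS_sup, ioS_sup, ioS_span, ioS_rK, ioS_bb]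
  refine sup_le_sup_right (sup_le_sup_right (Submodule.span_mono ?_) _) _
  rintro _ ⟨A, ⟨δ, hA⟩, rfl⟩
  obtain ⟨δ₁, hδ₁⟩ := hE δ
  exact ⟨δ₁, by rw [io_dL hδ₁, hA, io_lie]⟩

end vel2

end Pool.Agent.TH28.FL
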