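import Mathlib

/-!
# Flatness for splitting subalgebras (MP_80e906_al): definitions and task statements

`g` is a Lie algebra with a basis `b : Basis (Fin N) k g`; `S(g) = k[g*]` is
`MvPolynomial (Fin N) k`, the variable `X i` standing for `b i`.
-/

set_option autoImplicit false

universe u v

namespace Pool.Agent.TH28.FL

open Module MvPolynomial

section defs

variable {k : Type u} [Field k] {g : Type v} [LieRing g] [LieAlgebra k g] {N : ℕ}

/-- the linear form on `g*` given by a vector of `g` -/
noncomputable def lin (b : Basis (Fin N) k g) : g →ₗ[k] MvPolynomial (Fin N) k :=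
  b.constr k fun i => (X i : MvPolynomial (Fin N) k)

/-- the biderivation of `S(g)` extending a bilinear map `β : g × g → g` -/
noncomputable def pbr (b : Basis (Fin N) k g) (β : g →ₗ[k] g →ₗ[k] g)
    (p q : MvPolynomial (Fin N) k) : MvPolynomial (Fin N) k :=
  ∑ i, ∑ j, pderiv i p * pderiv j q * lin b (β (b i) (b j))

/-- the index of a bracket: the least dimension of a stabiliser
`{x | ξ (β x y) = 0 for all y}`, `ξ` in the dual space -/
noncomputable def ind (β : g →ₗ[k] g →ₗ[k] g) : ℕ :=
  sInf (Set.range fun ξ : Dual k g => finrank k (LinearMap.ker (β.compr₂ ξ)))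

/-- the Lie bracket as a bilinear map -/
noncomputable def lieB (k : Type u) (g : Type v) [Field k] [LieRing g] [LieAlgebra k g] :
    g →ₗ[k] g →ₗ[k] g :=
  LinearMap.mk₂ k (fun x y => ⁅x, y⁆) add_lie smul_lie lie_add lie_smul

/-- `(x, y) ↦ [Px, Py] + Q([Px, Qy] + [Qx, Py])` -/
noncomputable def contr (P Q : g →ₗ[k] g) : g →ₗ[k] g →ₗ[k] g :=
  LinearMap.mk₂ k (fun x y => ⁅P x, P y⁆ + Q (⁅P x, Q y⁆ + ⁅Q x, P y⁆))
    (by intro x x' y; simp only [map_add, add_lie]; abel)
    (by intro c x y; simp only [map_smul, smul_lie, smul_add, map_add])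
    (by intro x y y'; simp only [map_add, lie_add]; abel)
    (by intro c x y; simp only [map_smul, lie_smul, smul_add, map_add])

variable (h r : LieSubalgebra k g) (hc : IsCompl h.toSubmodule r.toSubmodule)

/-- the projection to `h` along `r` -/
noncomputable def prh : g →ₗ[k] g := h.toSubmodule.projection r.toSubmodule hc

/-- the projection to `r` along `h` -/
noncomputable def prr : g →ₗ[k] g := r.toSubmodule.projection h.toSubmodule hc.symm

/-- the brackets `[ , ]_t = [ , ]_0 + t [ , ]_∞`, `t = none` standing for `∞` -/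
noncomputable def brt : Option k → (g →ₗ[k] g →ₗ[k] g)
  | none => contr (prr h r hc) (prh h r hc)
  | some t => contr (prh h r hc) (prr h r hc) + t • contr (prr h r hc) (prh h r hc)

/-- `t` is in `ℙ_reg` -/
def isReg (t : Option k) : Prop := ∀ s : Option k, ind (brt h r hc t) ≤ ind (brt h r hc s)

/-- the algebra `Z⟨h, r⟩` generated by all Poisson centres `Z_t`, `t` in `ℙ_reg` -/
noncomputable def Zalg (b : Basis (Fin N) k g) : Subalgebra k (MvPolynomial (Fin N) k) :=
  Algebra.adjoin k {f | ∃ t : Option k, isReg h r hc t ∧ ∀ q, pbr b (brt h r hc t) f q = 0}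

end defs

section points

variable {k : Type u} [Field k] {g : Type v} [LieRing g] [LieAlgebra k g] {N : ℕ}
  {K : Type u} [Field K] [Algebra k K]

/-- the matrix of the form `(x, y) ↦ ξ (β x y)` for a `K`-point `ξ` of `g*` -/
noncomputable def fmat (b : Basis (Fin N) k g) (β : g →ₗ[k] g →ₗ[k] g) (ξ : Fin N → K) :
    Matrix (Fin N) (Fin N) K :=
  Matrix.of fun i j => aeval ξ (lin b (β (b i) (b j)))

/-- the space of the vectors `(δ (x i))_i`, `δ` a derivation of `K / k` -/
noncomputable def derSpace (k : Type u) [Field k] [Algebra k K] (x : Fin N → K) :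
    Submodule K (Fin N → K) where
  carrier := {v | ∃ δ : Derivation k K K, ∀ i, v i = δ (x i)}
  add_mem' := by
    rintro v w ⟨δ, hδ⟩ ⟨δ', hδ'⟩
    exact ⟨δ + δ', fun i => by simp [hδ, hδ']⟩
  zero_mem' := ⟨0, fun i => by simp⟩
  smul_mem' := by
    rintro c v ⟨δ, hδ⟩
    exact ⟨c • δ, fun i => by simp [hδ]⟩

end points

/-! ### Task statements -/

/-- Task FL-REG. Homogeneous polynomials of positive degree such that every prime containing them
has a quotient of transcendence degree at most `N - m` form a regular sequence. -/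
def S_REG : Prop := ∀ (k : Type u) [Field k] (N m : ℕ) (f : Fin m → MvPolynomial (Fin N) k),
  (∀ i, ∃ d, 0 < d ∧ (f i).IsHomogeneous d) →
  (∀ P : Ideal (MvPolynomial (Fin N) k), P.IsPrime → (∀ i, f i ∈ P) →
    Algebra.trdeg k (MvPolynomial (Fin N) k ⧸ P) + m ≤ N) →
  RingTheory.Sequence.IsRegular (MvPolynomial (Fin N) k) (List.ofFn f)

/-- Task FL-TRD. The transcendence degree is at most the number of independent derivations. -/
def S_TRD : Prop := ∀ (k : Type u) [Field k] [CharZero k] (N : ℕ)
  (P : Ideal (MvPolynomial (Fin N) k)) [P.IsPrime],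
  Algebra.trdeg k (MvPolynomial (Fin N) k ⧸ P) ≤
    finrank (FractionRing (MvPolynomial (Fin N) k ⧸ P))
      (derSpace (K := FractionRing (MvPolynomial (Fin N) k ⧸ P)) k
        (fun i => algebraMap (MvPolynomial (Fin N) k ⧸ P) _ (Ideal.Quotient.mk P (X i))))

/-- Task FL-RK. At every point over every field extension the rank of the form is at most
`N - ind`. -/
def S_RK : Prop := ∀ (k : Type u) [Field k] [Infinite k] (K : Type u) [Field K] [Algebra k K]
  (g : Type v) [LieRing g] [LieAlgebra k g] (N : ℕ) (b : Basis (Fin N) k g)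
  (β : g →ₗ[k] g →ₗ[k] g) (ξ : Fin N → K), (fmat b β ξ).rank + ind β ≤ N

/-- Task FL-IND. All `t ≠ 0, ∞` are in `ℙ_reg`. -/
def S_IND : Prop := ∀ (k : Type u) [Field k] [Infinite k] (g : Type v) [LieRing g]
  [LieAlgebra k g] (N : ℕ) (_ : Basis (Fin N) k g) (h r : LieSubalgebra k g)
  (hc : IsCompl h.toSubmodule r.toSubmodule) (t : k), t ≠ 0 → isReg h r hc (some t)

/-- Task FL-PC. Algebraically independent elements of `Z⟨h, r⟩` are at most `(N + ind g) / 2`
many. -/
def S_PC : Prop := ∀ (k : Type u) [Field k] [CharZero k] (g : Type v) [LieRing g]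
  [LieAlgebra k g] (N : ℕ) (b : Basis (Fin N) k g) (h r : LieSubalgebra k g)
  (hc : IsCompl h.toSubmodule r.toSubmodule) (m : ℕ) (f : Fin m → MvPolynomial (Fin N) k),
  (∀ i, f i ∈ Zalg h r hc b) → AlgebraicIndependent k f → 2 * m ≤ N + ind (lieB k g)

/-- Task FL-ISO. For `t ≠ 0` the substitution `b i ↦ pr_h (b i) + t⁻¹ pr_r (b i)` maps the Poisson
centre of the Lie bracket to the Poisson centre of `[ , ]_t`. -/
def S_ISO : Prop := ∀ (k : Type u) [Field k] (g : Type v) [LieRing g]
  [LieAlgebra k g] (N : ℕ) (b : Basis (Fin N) k g) (h r : LieSubalgebra k g)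
  (hc : IsCompl h.toSubmodule r.toSubmodule) (t : k), t ≠ 0 →
  ∀ F : MvPolynomial (Fin N) k, (∀ q, pbr b (lieB k g) F q = 0) →
    ∀ q, pbr b (brt h r hc (some t))
      (aeval (fun i => lin b (prh h r hc (b i) + t⁻¹ • prr h r hc (b i))) F) q = 0

end Pool.Agent.TH28.FL
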