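import Pool.Agent.TH28.FL.Add
import Pool.Agent.TH28.FL.Defs

/-! Isotropy and the dimension estimate. -/

set_option autoImplicit false

namespace Pool.Agent.TH28.FL

open Module Matrix

section iso

variable {k K : Type*} [Field k] [Field K] [Algebra k K] {n : ℕ}

/-- `λ = 0` implies `ω = 0`. -/
theorem isotropic (𝔞 : Submodule K (Matrix (Fin n) (Fin n) K))
    (hbr : ∀ a ∈ 𝔞, ∀ b ∈ 𝔞, a * b - b * a ∈ 𝔞)
    (hder : ∀ (δ : Derivation k K K), ∀ a ∈ 𝔞, a.map δ ∈ 𝔞)
    (X : Matrix (Fin n) (Fin n) K)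
    (hlam : ∀ (δ : Derivation k K K), ∀ B ∈ 𝔞, X.map δ = B * X - X * B → (X * B).trace = 0)
    (δ δ' : Derivation k K K) (B B' : Matrix (Fin n) (Fin n) K) (hB : B ∈ 𝔞) (hB' : B' ∈ 𝔞)
    (h : X.map δ = B * X - X * B) (h' : X.map δ' = B' * X - X * B') :
    (X * (B * B' - B' * B)).trace = 0 := by
  set B'' := B'.map δ - B.map δ' + (B' * B - B * B') with hB''
  have hB''m : B'' ∈ 𝔞 :=
    𝔞.add_mem (𝔞.sub_mem (hder δ _ hB') (hder δ' _ hB)) (hbr _ hB' _ hB)
  have e1 : X.map (⁅δ, δ'⁆ : Derivation k K K) = (X.map δ').map δ - (X.map δ).map δ' := by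
    ext i j
    simp [Derivation.commutator_apply]
  have e2 : X.map (⁅δ, δ'⁆ : Derivation k K K) = B'' * X - X * B'' := by
    rw [e1, h, h', map_sub_der, map_sub_der, map_mul_der, map_mul_der, map_mul_der, map_mul_der,
      h, h', hB'']
    noncomm_ring
  have t := hlam _ _ hB''m e2
  have t1 : (X * B'.map δ).trace = - ((B * X - X * B) * B').trace := by
    have h1 := hlam δ' B' hB' h'
    have h2 := trace_map_der δ (X * B')
    rw [h1, map_zero, map_mul_der, h, Matrix.trace_add] at h2
    linear_combination h2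
  have t2 : (X * B.map δ').trace = - ((B' * X - X * B') * B).trace := by
    have h1 := hlam δ B hB h
    have h2 := trace_map_der δ' (X * B)
    rw [h1, map_zero, map_mul_der, h', Matrix.trace_add] at h2
    linear_combination h2
  have c1 : (B * X * B').trace = (X * (B' * B)).trace := by
    rw [Matrix.mul_assoc, Matrix.trace_mul_comm, Matrix.mul_assoc]
  have c2 : (B' * X * B).trace = (X * (B * B')).trace := by
    rw [Matrix.mul_assoc, Matrix.trace_mul_comm, Matrix.mul_assoc]
  rw [hB'', Matrix.mul_add, Matrix.mul_sub, Matrix.trace_add, Matrix.trace_sub, t1, t2,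
    Matrix.sub_mul, Matrix.sub_mul, Matrix.trace_sub, Matrix.trace_sub, Matrix.mul_sub,
    Matrix.trace_sub, c1, c2, Matrix.mul_assoc, Matrix.mul_assoc] at t
  rw [Matrix.mul_sub, Matrix.trace_sub]
  linear_combination t

/-- an element orthogonal to the centraliser of `X` is a commutator with `X` -/
theorem exists_commutator (𝔞 : Submodule K (Matrix (Fin n) (Fin n) K))
    (hbr : ∀ a ∈ 𝔞, ∀ b ∈ 𝔞, a * b - b * a ∈ 𝔞)
    (hnd : ∀ a ∈ 𝔞, (∀ b ∈ 𝔞, (a * b).trace = 0) → a = 0)
    (X : Matrix (Fin n) (Fin n) K) (hX : X ∈ 𝔞) (w : Matrix (Fin n) (Fin n) K) (hw : w ∈ 𝔞)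
    (hwc : ∀ c ∈ 𝔞, X * c = c * X → (w * c).trace = 0) :
    ∃ B ∈ 𝔞, w = B * X - X * B := by
  let form : LinearMap.BilinForm K 𝔞 :=
    LinearMap.mk₂ K (fun a b => ((a : Matrix (Fin n) (Fin n) K) * b).trace)
      (by intro a a' b; simp [Matrix.add_mul])
      (by intro c a b; simp)
      (by intro a b b'; simp [Matrix.mul_add])
      (by intro c a b; simp)
  have hform : ∀ a b : 𝔞, form a b = ((a : Matrix (Fin n) (Fin n) K) * b).trace := fun _ _ => rfl
  have hsymm : form.IsRefl := by
    intro a b h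
    rw [hform] at h ⊢
    rw [Matrix.trace_mul_comm]
    exact h
  have hndg : form.Nondegenerate := by
    refine (LinearMap.IsRefl.nondegenerate_iff_separatingLeft hsymm).2 ?_
    intro a ha
    apply Subtype.ext
    exact hnd a a.2 fun b hb => ha ⟨b, hb⟩
  let T : 𝔞 →ₗ[K] 𝔞 :=
    { toFun := fun a => ⟨a * X - X * a, hbr _ a.2 _ hX⟩
      map_add' := by
        intro a b; apply Subtype.ext
        simp [Matrix.add_mul, Matrix.mul_add]; abel
      map_smul' := by
        intro c a; apply Subtype.ext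
        simp [smul_sub] }
  have hT : ∀ a : 𝔞, ((T a : 𝔞) : Matrix (Fin n) (Fin n) K) = a * X - X * a := fun _ => rfl
  have horth := LinearMap.BilinForm.orthogonal_orthogonal hndg hsymm (LinearMap.range T)
  have hmem : (⟨w, hw⟩ : 𝔞) ∈ form.orthogonal (form.orthogonal (LinearMap.range T)) := by
    rw [LinearMap.BilinForm.mem_orthogonal_iff]
    intro c hc
    rw [LinearMap.BilinForm.mem_orthogonal_iff] at hc
    have hcX : (c : Matrix (Fin n) (Fin n) K) * X - X * c = 0 := by
      apply hnd _ (hbr _ c.2 _ hX)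
      intro a ha
      have h1 := hc (T ⟨a, ha⟩) (LinearMap.mem_range_self T _)
      rw [hform, hT] at h1
      change ((a * X - X * a) * (c : Matrix (Fin n) (Fin n) K)).trace = 0 at h1
      rw [Matrix.sub_mul, Matrix.trace_sub] at h1 ⊢
      have c1 : ((c : Matrix (Fin n) (Fin n) K) * X * a).trace = (X * a * c).trace := by
        rw [Matrix.mul_assoc, Matrix.trace_mul_comm]
      have c2 : (X * (c : Matrix (Fin n) (Fin n) K) * a).trace = (a * X * c).trace := by
        rw [Matrix.trace_mul_comm, Matrix.mul_assoc]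
      rw [c1, c2]
      linear_combination -h1
    rw [hform, Matrix.trace_mul_comm]
    exact hwc c c.2 (sub_eq_zero.1 hcX).symm
  rw [horth] at hmem
  obtain ⟨B, hB⟩ := hmem
  refine ⟨B, B.2, ?_⟩
  have := congrArg Subtype.val hB
  exact this.symm

/-- dimension of an isotropic space of tangent vectors -/
theorem two_finrank_le (M : Matrix (Fin n) (Fin n) K) (hM : Mᵀ = -M)
    (E : Submodule K (Fin n → K))
    (hE : ∀ e ∈ E, ∃ a : Fin n → K, a ᵥ* M = e ∧ ∀ e' ∈ E, a ⬝ᵥ e' = 0) :
    2 * finrank K E ≤ M.rank := by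
  classical
  let form : LinearMap.BilinForm K (Fin n → K) := Matrix.toBilin' (1 : Matrix (Fin n) (Fin n) K)
  have hform : ∀ a b, form a b = a ⬝ᵥ b := by
    intro a b
    rw [Matrix.toBilin'_apply']
    simp
  have hsymm : form.IsRefl := by
    intro a b h
    rw [hform] at h ⊢
    rw [dotProduct_comm]; exact h
  have hndg : form.Nondegenerate := by
    refine (LinearMap.IsRefl.nondegenerate_iff_separatingLeft hsymm).2 ?_
    intro a ha
    ext i
    have h1 := ha (Pi.single i 1)
    rw [hform, dotProduct_single, mul_one] at h1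
    exact h1
  let T : (Fin n → K) →ₗ[K] (Fin n → K) := Matrix.vecMulLinear M
  have hT : ∀ a, T a = a ᵥ* M := fun _ => rfl
  have hskew : ∀ a b : Fin n → K, a ⬝ᵥ (b ᵥ* M) = - ((a ᵥ* M) ⬝ᵥ b) := by
    intro a b
    have h1 : b ᵥ* M = Mᵀ *ᵥ b := (Matrix.mulVec_transpose M b).symm
    rw [h1, hM, Matrix.neg_mulVec, dotProduct_neg, Matrix.dotProduct_mulVec]
  have hrank : M.rank = finrank K (LinearMap.range T) := by
    have h1 : M.rank = Mᵀ.rank := (Matrix.rank_transpose M).symm
    have h2 : Mᵀ.mulVecLin = T := by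
      apply LinearMap.ext
      intro a
      rw [Matrix.mulVecLin_apply, Matrix.mulVec_transpose]
      rfl
    rw [h1, Matrix.rank, h2]
  let 𝒜 := E.comap T
  have hker : LinearMap.ker T ≤ 𝒜 := fun a ha => by
    change T a ∈ E
    rw [LinearMap.mem_ker.1 ha]; exact E.zero_mem
  have hle : 𝒜 ≤ form.orthogonal E := by
    intro a ha
    rw [LinearMap.BilinForm.mem_orthogonal_iff]
    intro e' he'
    rw [hform, dotProduct_comm]
    obtain ⟨a0, h0, h0'⟩ := hE (T a) ha
    obtain ⟨a1, h1, -⟩ := hE e' he'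
    have h2 : (a - a0) ⬝ᵥ e' = 0 := by
      rw [← h1, hskew, Matrix.sub_vecMul, h0, ← hT, sub_self]
      simp
    rw [sub_dotProduct, h0' e' he', sub_zero] at h2
    exact h2
  have hEr : E ≤ LinearMap.range T := fun e he => by
    obtain ⟨a, ha, -⟩ := hE e he
    exact ⟨a, ha⟩
  have d1 : finrank K 𝒜 = finrank K E + finrank K (LinearMap.ker T) := by
    let S : 𝒜 →ₗ[K] E := T.restrict (fun a ha => ha)
    have hS : Function.Surjective S := by
      rintro ⟨e, he⟩
      obtain ⟨a, ha⟩ := hEr he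
      exact ⟨⟨a, by change T a ∈ E; rw [ha]; exact he⟩, Subtype.ext ha⟩
    have h1 := LinearMap.finrank_range_add_finrank_ker S
    rw [LinearMap.range_eq_top.2 hS, finrank_top] at h1
    rw [← h1]
    congr 1
    refine LinearEquiv.finrank_eq ?_
    exact
      { toFun := fun a => ⟨a.1.1, by
          have := congrArg Subtype.val (LinearMap.mem_ker.1 a.2)
          exact this⟩
        invFun := fun a => ⟨⟨a.1, hker a.2⟩, by
          rw [LinearMap.mem_ker]
          exact Subtype.ext (LinearMap.mem_ker.1 a.2)⟩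
        map_add' := fun _ _ => rfl
        map_smul' := fun _ _ => rfl
        left_inv := fun _ => rfl
        right_inv := fun _ => rfl }
  have d2 := Submodule.finrank_mono hle
  have d3 : finrank K (form.orthogonal E) = n - finrank K E := by
    rw [LinearMap.BilinForm.finrank_orthogonal hndg, Module.finrank_fin_fun]
  have d4 := LinearMap.finrank_range_add_finrank_ker T
  rw [Module.finrank_fin_fun] at d4
  have d5 : finrank K E ≤ n := by
    have := Submodule.finrank_le E
    rwa [Module.finrank_fin_fun] at this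
  rw [hrank]
  omega

end iso

end Pool.Agent.TH28.FL
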