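import Pool.Agent.TH28.FL.Dat

/-!
# Basic facts on grading elements and data
-/

set_option autoImplicit false

universe u v v'

namespace Pool.Agent.TH28.FL

open Module

section basic

variable {K : Type u} {L : Type v} [Field K] [LieRing L] [LieAlgebra K L]

theorem dg_eq_eigenspace (w : L) (j : ℤ) :
    dg K w j = (LieAlgebra.ad K L w).eigenspace (j : K) := by
  ext x; rw [mem_dg, Module.End.mem_eigenspace_iff, LieAlgebra.ad_apply]

theorem self_mem_dg (w : L) : w ∈ dg K w 0 := by simp [mem_dg]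

theorem lie_dg {w x y : L} {i j : ℤ} (hx : x ∈ dg K w i) (hy : y ∈ dg K w j) :
    ⁅x, y⁆ ∈ dg K w (i + j) := by
  rw [mem_dg] at hx hy ⊢
  rw [leibniz_lie, hx, hy, smul_lie, lie_smul, Int.cast_add, add_smul]

theorem dg_indep [CharZero K] (w : L) : iSupIndep (fun j : ℤ => dg K w j) := by
  have h := (Module.End.eigenspaces_iSupIndep (LieAlgebra.ad K L w)).comp
    (f := fun j : ℤ => (j : K)) Int.cast_injective
  have e : (fun j : ℤ => dg K w j) =
      (LieAlgebra.ad K L w).eigenspace ∘ (fun j : ℤ => (j : K)) := by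
    funext j; exact dg_eq_eigenspace w j
  rw [e]; exact h

/-- a sum of homogeneous elements of distinct degrees vanishes only if all summands do -/
theorem dg_sum_zero [CharZero K] {w : L} (s : Finset ℤ) (f : ℤ → L)
    (hf : ∀ j ∈ s, f j ∈ dg K w j) (h : ∑ j ∈ s, f j = 0) : ∀ j ∈ s, f j = 0 := by
  intro j hj
  exact ((iSupIndep_iff_finsetSum_eq_zero_imp_eq_zero _).1 (dg_indep (K := K) w)) s f hf h j hj

theorem le_bb (w : L) {j : ℤ} (hj : 0 ≤ j) : dg K w j ≤ bb K w :=
  le_iSup_of_le j (le_iSup_of_le hj le_rfl)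

theorem le_nn (w : L) {j : ℤ} (hj : 0 < j) : dg K w j ≤ nn K w :=
  le_iSup_of_le j (le_iSup_of_le hj le_rfl)

theorem nn_le_bb (w : L) : nn K w ≤ bb K w :=
  iSup_le fun _ => iSup_le fun hj => le_bb w hj.le

theorem bb_le_iff {w : L} {S : Submodule K L} : bb K w ≤ S ↔ ∀ j, 0 ≤ j → dg K w j ≤ S :=
  ⟨fun h _ hj => (le_bb w hj).trans h, fun h => iSup_le fun j => iSup_le fun hj => h j hj⟩

theorem nn_le_iff {w : L} {S : Submodule K L} : nn K w ≤ S ↔ ∀ j, 0 < j → dg K w j ≤ S :=
  ⟨fun h _ hj => (le_nn w hj).trans h, fun h => iSup_le fun j => iSup_le fun hj => h j hj⟩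

theorem bb_eq (w : L) : bb K w = dg K w 0 ⊔ nn K w := by
  apply le_antisymm
  · rw [bb_le_iff]
    intro j hj
    rcases hj.eq_or_lt with rfl | h
    · exact le_sup_left
    · exact (le_nn w h).trans le_sup_right
  · exact sup_le (le_bb w le_rfl) (nn_le_bb w)

/-- decomposition of an element in homogeneous components, indexed by a set of degrees -/
theorem exists_sum_of_mem {w : L} {p : ℤ → Prop} {x : L}
    (hx : x ∈ ⨆ j : ℤ, ⨆ _ : p j, dg K w j) :
    ∃ (s : Finset ℤ) (f : ℤ → L), (∀ j ∈ s, p j) ∧ (∀ j, f j ∈ dg K w j) ∧ x = ∑ j ∈ s, f j := by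
  classical
  induction hx using Submodule.iSup_induction' with
  | zero => exact ⟨∅, fun _ => 0, by simp, fun _ => zero_mem _, by simp⟩
  | add x y _ _ hx hy =>
    obtain ⟨s, f, hs, hf, rfl⟩ := hx
    obtain ⟨t, g, ht, hg, rfl⟩ := hy
    refine ⟨s ∪ t, fun j => (if j ∈ s then f j else 0) + (if j ∈ t then g j else 0), ?_, ?_, ?_⟩
    · intro j hj
      rcases Finset.mem_union.1 hj with h | h
      exacts [hs j h, ht j h]
    · intro j
      refine add_mem ?_ ?_
      · split_ifs; exacts [hf j, zero_mem _]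
      · split_ifs; exacts [hg j, zero_mem _]
    · rw [Finset.sum_add_distrib, ← Finset.sum_filter, ← Finset.sum_filter,
        Finset.filter_mem_eq_inter, Finset.filter_mem_eq_inter,
        Finset.inter_eq_right.2 Finset.subset_union_left,
        Finset.inter_eq_right.2 Finset.subset_union_right]
  | mem i x hx =>
    by_cases hp : p i
    · rw [iSup_pos hp] at hx
      refine ⟨{i}, fun j => if h : j = i then x else 0, by simpa using hp, ?_, by simp⟩
      intro j
      by_cases h : j = i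
      · subst h; simpa using hx
      · simp [h]
    · rw [iSup_neg hp] at hx
      rw [Submodule.mem_bot] at hx
      exact ⟨∅, fun _ => 0, by simp, fun _ => zero_mem _, by simp [hx]⟩

theorem exists_sum_of_top {w : L} (ht : ⨆ j : ℤ, dg K w j = ⊤) (x : L) :
    ∃ (s : Finset ℤ) (f : ℤ → L), (∀ j, f j ∈ dg K w j) ∧ x = ∑ j ∈ s, f j := by
  have hx : x ∈ ⨆ j : ℤ, ⨆ _ : True, dg K w j := by
    simp only [iSup_pos]; rw [ht]; exact Submodule.mem_top
  obtain ⟨s, f, -, hf, h⟩ := exists_sum_of_mem hx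
  exact ⟨s, f, hf, h⟩

theorem lie_mem_of_graded {w : L} {p q r : ℤ → Prop} (h : ∀ i j, p i → q j → r (i + j)) {x y : L}
    (hx : x ∈ ⨆ j : ℤ, ⨆ _ : p j, dg K w j) (hy : y ∈ ⨆ j : ℤ, ⨆ _ : q j, dg K w j) :
    ⁅x, y⁆ ∈ ⨆ j : ℤ, ⨆ _ : r j, dg K w j := by
  obtain ⟨s, f, hs, hf, rfl⟩ := exists_sum_of_mem hx
  obtain ⟨t, g, ht, hg, rfl⟩ := exists_sum_of_mem hy
  rw [sum_lie]
  refine Submodule.sum_mem _ fun i hi => ?_
  rw [lie_sum]
  refine Submodule.sum_mem _ fun j hj => ?_
  have hle : dg K w (i + j) ≤ ⨆ j : ℤ, ⨆ _ : r j, dg K w j :=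
    le_iSup₂_of_le (i + j) (h i j (hs i hi) (ht j hj)) le_rfl
  exact hle (lie_dg (hf i) (hg j))

theorem lie_bb_bb {w x y : L} (hx : x ∈ bb K w) (hy : y ∈ bb K w) : ⁅x, y⁆ ∈ bb K w :=
  lie_mem_of_graded (fun _ _ hi hj => add_nonneg hi hj) hx hy

theorem lie_nn_nn {w x y : L} (hx : x ∈ nn K w) (hy : y ∈ nn K w) : ⁅x, y⁆ ∈ nn K w :=
  lie_mem_of_graded (fun _ _ hi hj => add_pos hi hj) hx hy

theorem lie_bb_nn {w x y : L} (hx : x ∈ bb K w) (hy : y ∈ nn K w) : ⁅x, y⁆ ∈ nn K w :=
  lie_mem_of_graded (fun _ _ hi hj => add_pos_of_nonneg_of_pos hi hj) hx hy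

theorem lie_nn_bb {w x y : L} (hx : x ∈ nn K w) (hy : y ∈ bb K w) : ⁅x, y⁆ ∈ nn K w :=
  lie_mem_of_graded (fun _ _ hi hj => add_pos_of_pos_of_nonneg hi hj) hx hy

/-- for commuting `dg 0` the brackets of elements of `bb` lie in `nn` -/
theorem lie_bb_bb_nn {w x y : L} (hc : ∀ x ∈ dg K w 0, ∀ y ∈ dg K w 0, ⁅x, y⁆ = 0)
    (hx : x ∈ bb K w) (hy : y ∈ bb K w) : ⁅x, y⁆ ∈ nn K w := by
  rw [bb_eq] at hx hy
  obtain ⟨x0, hx0, x1, hx1, rfl⟩ := Submodule.mem_sup.1 hx
  obtain ⟨y0, hy0, y1, hy1, rfl⟩ := Submodule.mem_sup.1 hy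
  rw [add_lie, lie_add, lie_add, hc x0 hx0 y0 hy0, zero_add]
  refine add_mem ?_ (add_mem ?_ ?_)
  · exact lie_bb_nn (le_bb w le_rfl hx0) hy1
  · exact lie_nn_bb hx1 (le_bb w le_rfl hy0)
  · exact lie_nn_nn hx1 hy1

theorem finite_dg_ne_bot [CharZero K] [FiniteDimensional K L] (w : L) :
    {j : ℤ | dg K w j ≠ ⊥}.Finite :=
  WellFoundedGT.finite_ne_bot_of_iSupIndep (dg_indep w)

/-- the eigenspaces of large degree vanish -/
theorem exists_bound [CharZero K] [FiniteDimensional K L] (w : L) :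
    ∃ D : ℤ, 0 ≤ D ∧ ∀ j : ℤ, D < |j| → dg K w j = ⊥ := by
  obtain ⟨D, hD⟩ := ((finite_dg_ne_bot (K := K) w).image (fun j : ℤ => |j|)).bddAbove
  refine ⟨max D 0, le_max_right _ _, fun j hj => ?_⟩
  by_contra h
  have := hD ⟨j, h, rfl⟩
  exact absurd (lt_of_le_of_lt (le_max_left D 0) hj) (not_lt.2 this)

end basic

section transport

variable {K : Type u} {L : Type v} {L' : Type v'} [Field K] [LieRing L] [LieAlgebra K L]
  [LieRing L'] [LieAlgebra K L']

theorem dg_map (φ : L ≃ₗ⁅K⁆ L') (w : L) (j : ℤ) :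
    (dg K w j).map (φ : L →ₗ[K] L') = dg K (φ w) j := by
  ext y
  constructor
  · rintro ⟨x, hx, rfl⟩
    have hx' : ⁅w, x⁆ = (j : K) • x := hx
    change ⁅φ w, φ x⁆ = (j : K) • φ x
    rw [← LieEquiv.map_lie, hx', map_smul]
  · intro hy
    have hy' : ⁅φ w, y⁆ = (j : K) • y := hy
    refine ⟨φ.symm y, ?_, by simp⟩
    change ⁅w, φ.symm y⁆ = (j : K) • φ.symm y
    have h1 : φ ⁅w, φ.symm y⁆ = φ ((j : K) • φ.symm y) := by
      rw [LieEquiv.map_lie, map_smul, LieEquiv.apply_symm_apply, hy']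
    exact φ.injective h1

theorem bb_map (φ : L ≃ₗ⁅K⁆ L') (w : L) :
    (bb K w).map (φ : L →ₗ[K] L') = bb K (φ w) := by
  unfold bb
  rw [Submodule.map_iSup]
  congr 1; funext j
  rw [Submodule.map_iSup]
  congr 1; funext _
  exact dg_map φ w j

theorem nn_map (φ : L ≃ₗ⁅K⁆ L') (w : L) :
    (nn K w).map (φ : L →ₗ[K] L') = nn K (φ w) := by
  unfold nn
  rw [Submodule.map_iSup]
  congr 1; funext j
  rw [Submodule.map_iSup]
  congr 1; funext _
  exact dg_map φ w j

theorem mem_dg_map {φ : L ≃ₗ⁅K⁆ L'} {w : L} {j : ℤ} {y : L'} :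
    y ∈ dg K (φ w) j ↔ ∃ x ∈ dg K w j, φ x = y := by
  rw [← dg_map φ w j]; rfl

theorem Dat.map {w : L} {M : ℤ} (h : Dat K w M) (φ : L ≃ₗ⁅K⁆ L') : Dat K (φ w) M where
  pos := h.pos
  top := by
    simp_rw [← dg_map φ w]
    rw [← Submodule.map_iSup, h.top, Submodule.map_top, LinearMap.range_eq_top]
    exact φ.surjective
  gap := by
    intro j h0 h1
    rw [← dg_map φ w, h.gap j h0 h1, Submodule.map_bot]
  one := by
    intro j h0
    rw [← dg_map φ w]
    exact (LinearEquiv.finrank_map_eq φ.toLinearEquiv (dg K w j)).trans_le (h.one j h0)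
  comm := by
    intro x hx y hy
    obtain ⟨x', hx', rfl⟩ := mem_dg_map.1 hx
    obtain ⟨y', hy', rfl⟩ := mem_dg_map.1 hy
    rw [← LieEquiv.map_lie, h.comm x' hx' y' hy', map_zero]
  gen := by
    intro j hj z hz
    obtain ⟨z', hz', rfl⟩ := mem_dg_map.1 hz
    have h1 := Submodule.mem_map_of_mem (f := (φ : L →ₗ[K] L')) (h.gen j hj z' hz')
    rw [Submodule.map_span] at h1
    refine Submodule.span_mono ?_ h1
    rintro _ ⟨_, ⟨c, h2, h3, h4, x, hx, y, hy, rfl⟩, rfl⟩
    exact ⟨c, h2, h3, h4, φ x, mem_dg_map.2 ⟨x, hx, rfl⟩, φ y, mem_dg_map.2 ⟨y, hy, rfl⟩,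
      LieEquiv.map_lie φ x y⟩

end transport

section killing

variable {K : Type u} {L : Type v} [Field K] [LieRing L] [LieAlgebra K L]

/-- invariance of the Killing form -/
theorem kf_lie (x y z : L) : killingForm K L ⁅x, y⁆ z = killingForm K L x ⁅y, z⁆ :=
  LieModule.traceForm_apply_lie_apply K L L x y z

theorem kf_comm (x y : L) : killingForm K L x y = killingForm K L y x :=
  LieModule.traceForm_comm K L L x y

theorem kf_lie' (w x y : L) : killingForm K L ⁅w, x⁆ y = - killingForm K L x ⁅w, y⁆ := by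
  rw [← lie_skew, map_neg, LinearMap.neg_apply, kf_lie]

theorem killing_dg [CharZero K] {w x y : L} {i j : ℤ} (hx : x ∈ dg K w i) (hy : y ∈ dg K w j)
    (h : i + j ≠ 0) : killingForm K L x y = 0 := by
  have h1 : killingForm K L ⁅w, x⁆ y = - killingForm K L x ⁅w, y⁆ := kf_lie' w x y
  rw [mem_dg.1 hx, mem_dg.1 hy, map_smul, LinearMap.smul_apply, map_smul, smul_eq_mul,
    smul_eq_mul] at h1
  have h2 : ((i + j : ℤ) : K) * killingForm K L x y = 0 := by
    push_cast
    linear_combination h1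
  rcases mul_eq_zero.1 h2 with h3 | h3
  · exact absurd (by exact_mod_cast h3) h
  · exact h3

theorem kf_sum_dg [CharZero K] {w : L} (s : Finset ℤ) (f : ℤ → L) (hf : ∀ j, f j ∈ dg K w j)
    {i : ℤ} (hi : i ∈ s) {y : L} (hy : y ∈ dg K w (-i)) :
    killingForm K L (∑ j ∈ s, f j) y = killingForm K L (f i) y := by
  rw [map_sum, LinearMap.sum_apply]
  refine Finset.sum_eq_single_of_mem i hi fun j _ hj => ?_
  exact killing_dg (hf j) hy (by omega)

variable [FiniteDimensional K L] [LieAlgebra.IsKilling K L]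

theorem kf_nondeg {x : L} (h : ∀ y, killingForm K L x y = 0) : x = 0 := by
  have h1 : x ∈ LinearMap.ker (killingForm K L) := by
    rw [LinearMap.mem_ker]; ext y; exact h y
  rw [LieAlgebra.IsKilling.ker_killingForm_eq_bot] at h1
  exact (Submodule.mem_bot K).1 h1

/-- the pairing of `dg j` with `dg (-j)` is perfect -/
theorem kf_dg_nondeg [CharZero K] {w : L} (ht : ⨆ j : ℤ, dg K w j = ⊤) {x : L} {i : ℤ}
    (hx : x ∈ dg K w i) (h : ∀ y ∈ dg K w (-i), killingForm K L x y = 0) : x = 0 := by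
  classical
  apply kf_nondeg (K := K)
  intro y
  obtain ⟨s, f, hf, rfl⟩ := exists_sum_of_top ht y
  rw [map_sum]
  refine Finset.sum_eq_zero fun j _ => ?_
  by_cases hj : i + j = 0
  · have : j = -i := by omega
    subst this
    exact h _ (hf _)
  · exact killing_dg hx (hf j) hj

theorem mem_bb_iff [CharZero K] {w : L} (ht : ⨆ j : ℤ, dg K w j = ⊤) {x : L} :
    x ∈ bb K w ↔ ∀ z ∈ nn K w, killingForm K L x z = 0 := by
  classical
  constructor
  · intro hx z hz
    obtain ⟨s, f, hs, hf, rfl⟩ := exists_sum_of_mem hx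
    obtain ⟨t, g, ht, hg, rfl⟩ := exists_sum_of_mem hz
    rw [map_sum]
    refine Finset.sum_eq_zero fun j hj => ?_
    rw [map_sum, LinearMap.sum_apply]
    refine Finset.sum_eq_zero fun i hi => ?_
    exact killing_dg (hf i) (hg j) (by have := hs i hi; have := ht j hj; omega)
  · intro h
    obtain ⟨s, f, hf, rfl⟩ := exists_sum_of_top ht x
    refine Submodule.sum_mem _ fun i hi => ?_
    by_cases h0 : 0 ≤ i
    · exact le_bb w h0 (hf i)
    · have : f i = 0 := by
        apply kf_dg_nondeg ht (hf i)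
        intro y hy
        rw [← kf_sum_dg s f hf hi hy]
        exact h y (le_nn w (by omega) hy)
      rw [this]; exact zero_mem _

theorem mem_nn_iff [CharZero K] {w : L} (ht : ⨆ j : ℤ, dg K w j = ⊤) {x : L} :
    x ∈ nn K w ↔ ∀ z ∈ bb K w, killingForm K L x z = 0 := by
  classical
  constructor
  · intro hx z hz
    rw [kf_comm]
    exact (mem_bb_iff ht).1 hz x hx
  · intro h
    obtain ⟨s, f, hf, rfl⟩ := exists_sum_of_top ht x
    refine Submodule.sum_mem _ fun i hi => ?_
    by_cases h0 : 0 < i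
    · exact le_nn w h0 (hf i)
    · have : f i = 0 := by
        apply kf_dg_nondeg ht (hf i)
        intro y hy
        rw [← kf_sum_dg s f hf hi hy]
        exact h y (le_bb w (by omega) hy)
      rw [this]; exact zero_mem _

theorem kf_bb_nn [CharZero K] {w x z : L} (hx : x ∈ bb K w) (hz : z ∈ nn K w) :
    killingForm K L x z = 0 := by
  obtain ⟨s, f, hs, hf, rfl⟩ := exists_sum_of_mem hx
  obtain ⟨t, g, ht, hg, rfl⟩ := exists_sum_of_mem hz
  rw [map_sum]
  refine Finset.sum_eq_zero fun j hj => ?_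
  rw [map_sum, LinearMap.sum_apply]
  refine Finset.sum_eq_zero fun i hi => ?_
  exact killing_dg (hf i) (hg j) (by have := hs i hi; have := ht j hj; omega)

/-- the Killing form as a linear equivalence with the dual space, restricted -/
theorem finrank_dg_neg [CharZero K] {w : L} (ht : ⨆ j : ℤ, dg K w j = ⊤) (i : ℤ) :
    finrank K (dg K w (-i)) = finrank K (dg K w i) := by
  have key : ∀ i : ℤ, finrank K (dg K w i) ≤ finrank K (dg K w (-i)) := by
    intro i
    let T : dg K w i →ₗ[K] Dual K (dg K w (-i)) :=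
      LinearMap.comp ((dg K w (-i)).subtype.dualMap)
        (LinearMap.comp (killingForm K L) (dg K w i).subtype)
    have hT : Function.Injective T := by
      rw [← LinearMap.ker_eq_bot, LinearMap.ker_eq_bot']
      intro x hx
      apply Subtype.ext
      apply kf_dg_nondeg ht x.2
      intro y hy
      exact LinearMap.congr_fun hx ⟨y, hy⟩
    have := LinearMap.finrank_le_finrank_of_injective hT
    rwa [Subspace.dual_finrank_eq] at this
  apply le_antisymm
  · have := key (-i)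
    rwa [neg_neg] at this
  · exact key i

end killing

section nilp

variable {K : Type u} {L : Type v} [Field K] [LieRing L] [LieAlgebra K L]

theorem ad_pow_dg {w y : L} {p : ℤ → Prop} (hp : ∀ j, p j → 0 < j)
    (hy : y ∈ ⨆ j : ℤ, ⨆ _ : p j, dg K w j) (n : ℕ) {x : L} {i : ℤ} (hx : x ∈ dg K w i) :
    ((LieAlgebra.ad K L y) ^ n) x ∈ ⨆ j : ℤ, ⨆ _ : i + n ≤ j, dg K w j := by
  induction n with
  | zero =>
    have hle : dg K w i ≤ ⨆ j : ℤ, ⨆ _ : i + ((0 : ℕ) : ℤ) ≤ j, dg K w j :=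
      le_iSup₂_of_le i (by push_cast; omega) le_rfl
    exact hle (by simpa using hx)
  | succ n ih =>
    rw [pow_succ', Module.End.mul_apply, LieAlgebra.ad_apply]
    refine lie_mem_of_graded (fun a b ha hb => ?_) hy ih
    have := hp a ha
    push_cast; omega

/-- the elements of `nn` are nilpotent -/
theorem nn_nilpotent [CharZero K] [FiniteDimensional K L] {w : L}
    (ht : ⨆ j : ℤ, dg K w j = ⊤) {y : L} (hy : y ∈ nn K w) :
    IsNilpotent (LieAlgebra.ad K L y) := by
  obtain ⟨D, hD0, hD⟩ := exists_bound (K := K) w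
  refine ⟨(2 * D + 1).toNat, ?_⟩
  ext x
  obtain ⟨s, f, hf, rfl⟩ := exists_sum_of_top ht x
  rw [map_sum, LinearMap.zero_apply]
  refine Finset.sum_eq_zero fun j _ => ?_
  by_cases hj : D < |j|
  · have : f j = 0 := by
      have := hf j
      rw [hD j hj] at this
      exact (Submodule.mem_bot K).1 this
    rw [this, map_zero]
  · have h1 := ad_pow_dg (K := K) (fun _ h => h) hy (2 * D + 1).toNat (hf j)
    have h2 : (⨆ i : ℤ, ⨆ _ : j + ((2 * D + 1).toNat : ℤ) ≤ i, dg K w i) = ⊥ := by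
      rw [iSup_eq_bot]; intro i
      rw [iSup_eq_bot]; intro hi
      apply hD
      have h3 : ((2 * D + 1).toNat : ℤ) = 2 * D + 1 := Int.toNat_of_nonneg (by omega)
      rw [h3] at hi
      have h4 := abs_le.1 (not_lt.1 hj)
      rw [abs_of_nonneg (by omega)]
      omega
    rw [h2] at h1
    exact (Submodule.mem_bot K).1 h1

end nilp

section dims

variable {K : Type u} {L : Type v} [Field K] [LieRing L] [LieAlgebra K L] [CharZero K]

theorem disjoint_of_graded {w : L} {p q : ℤ → Prop} (h : ∀ j, p j → ¬ q j) :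
    Disjoint (⨆ j : ℤ, ⨆ _ : p j, dg K w j) (⨆ j : ℤ, ⨆ _ : q j, dg K w j) :=
  (dg_indep (K := K) w).disjoint_biSup_biSup (Set.disjoint_left.2 h : Disjoint {j | p j} {j | q j})

theorem disjoint_dg0_nn (w : L) : Disjoint (dg K w 0) (nn K w) := by
  have := disjoint_of_graded (K := K) (w := w) (p := fun j => j = 0) (q := fun j => 0 < j)
    (by intro j h; omega)
  rw [iSup_iSup_eq_left] at this
  exact this

/-- the sum of the eigenspaces with `j < 0` -/
def mm (K : Type u) {L : Type v} [Field K] [LieRing L] [LieAlgebra K L] (w : L) :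
    Submodule K L := ⨆ j : ℤ, ⨆ _ : j < 0, dg K w j

theorem isCompl_bb_mm {w : L} (ht : ⨆ j : ℤ, dg K w j = ⊤) : IsCompl (bb K w) (mm K w) := by
  refine ⟨disjoint_of_graded (fun j h => not_lt.2 h), ?_⟩
  rw [codisjoint_iff, eq_top_iff, ← ht]
  refine iSup_le fun j => ?_
  by_cases h : 0 ≤ j
  · exact (le_bb w h).trans le_sup_left
  · exact le_sup_of_le_right (le_iSup_of_le j (le_iSup_of_le (not_le.1 h) le_rfl))

theorem finrank_bb [FiniteDimensional K L] (w : L) :
    finrank K (bb K w) = finrank K (dg K w 0) + finrank K (nn K w) := by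
  have h := Submodule.finrank_sup_add_finrank_inf_eq (dg K w 0) (nn K w)
  rw [(disjoint_dg0_nn w).eq_bot, finrank_bot, add_zero, ← bb_eq] at h
  exact h

theorem finrank_eq [FiniteDimensional K L] [LieAlgebra.IsKilling K L] {w : L}
    (ht : ⨆ j : ℤ, dg K w j = ⊤) :
    finrank K L = finrank K (dg K w 0) + 2 * finrank K (nn K w) := by
  have h1 := finrank_bb (K := K) w
  -- `bb` is the orthogonal of `nn`
  let T : L →ₗ[K] Dual K (nn K w) := ((nn K w).subtype.dualMap).comp (killingForm K L)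
  have hker : LinearMap.ker T = bb K w := by
    ext x
    rw [LinearMap.mem_ker, mem_bb_iff ht]
    constructor
    · intro h z hz
      exact LinearMap.congr_fun h ⟨z, hz⟩
    · intro h
      ext z
      exact h z z.2
  have hsurj : Function.Surjective T := by
    have h2 : Function.Surjective (killingForm K L) := by
      have : LinearMap.ker (killingForm K L) = ⊥ := LieAlgebra.IsKilling.ker_killingForm_eq_bot K L
      have h3 : Function.Injective (killingForm K L) := LinearMap.ker_eq_bot.1 this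
      exact (LinearMap.injective_iff_surjective_of_finrank_eq_finrank
        (Subspace.dual_finrank_eq (K := K) (V := L)).symm).1 h3
    intro φ
    obtain ⟨ψ, hψ⟩ := Subspace.dualRestrict_surjective (W := nn K w) φ
    obtain ⟨x, hx⟩ := h2 ψ
    refine ⟨x, ?_⟩
    rw [← hψ, ← hx]; rfl
  have h3 := LinearMap.finrank_range_add_finrank_ker T
  rw [hker, LinearMap.range_eq_top.2 hsurj, finrank_top, Subspace.dual_finrank_eq] at h3
  omega

end dims

end Pool.Agent.TH28.FL
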