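import Pool.Agent.TH28.FL.DatB
import Pool.Agent.TH28.FL.AK

/-!
# The Lie algebra `K ⊗ s` over a differential field: definitions and task statements (stage 2)

`k` is a field of characteristic zero, `s` a Killing Lie algebra over `k`, `K` a field extension
of `k`, `r` a subspace of `s`.
-/

set_option autoImplicit false

universe u v

namespace Pool.Agent.TH28.FL

open Module TensorProduct

section defs

variable (k : Type u) [Field k] (s : Type v) [LieRing s] [LieAlgebra k s]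
  (K : Type u) [Field K] [Algebra k K]
  (K₁ : Type u) [Field K₁] [Algebra k K₁] [Algebra K K₁] [IsScalarTower k K K₁]

variable {k K} in
/-- the operator `δ ⊗ 1` on `K ⊗ s` -/
noncomputable def dL (δ : Derivation k K K) : (K ⊗[k] s) →ₗ[k] (K ⊗[k] s) :=
  (δ : K →ₗ[k] K).rTensor s

/-- the extension of scalars `K ⊗ s → K₁ ⊗ s` -/
noncomputable def io : (K ⊗[k] s) →ₗ[k] (K₁ ⊗[k] s) :=
  (IsScalarTower.toAlgHom k K K₁).toLinearMap.rTensor s

variable {k s}

/-- the extension of scalars of a subspace of `K ⊗ s` -/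
noncomputable def ioS (V : Submodule K (K ⊗[k] s)) : Submodule K₁ (K₁ ⊗[k] s) :=
  Submodule.span K₁ (io k s K K₁ '' V)

/-- the extension of scalars of a subspace of `s` -/
noncomputable def rK (r : Submodule k s) : Submodule K (K ⊗[k] s) := r.baseChange K

variable {K}

/-- the space of all velocities `A` (modulo `dg w 0`) plus `K ⊗ r` plus `bb w` -/
noncomputable def TT (r : Submodule k s) (w : K ⊗[k] s) : Submodule K (K ⊗[k] s) :=
  Submodule.span K {A | ∃ δ : Derivation k K K, dL s δ w = ⁅A, w⁆} ⊔ rK K r ⊔ bb K w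

/-- all velocities lie in `K ⊗ r + bb w` -/
def CC (r : Submodule k s) (w : K ⊗[k] s) : Prop :=
  ∀ (δ : Derivation k K K) (A : K ⊗[k] s), dL s δ w = ⁅A, w⁆ → A ∈ rK K r ⊔ bb K w

/-- over large algebraically closed fields there are data transversal to `r` -/
def HS (r : Submodule k s) : Prop :=
  ∀ (K : Type u) [Field K] [Algebra k K], ∃ (K₂ : Type u) (_ : Field K₂) (_ : Algebra k K₂)
    (_ : Algebra K K₂) (_ : IsScalarTower k K K₂) (_ : IsAlgClosed K₂) (w : K₂ ⊗[k] s) (M : ℤ),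
    Dat K₂ w M ∧ rK K₂ r ⊔ bb K₂ w = ⊤

end defs

/-! ### Task statements -/

/-- EXT: extension of derivations. -/
def S_EXT : Prop := ∀ (k : Type u) [Field k] [CharZero k] (K K₁ : Type u) [Field K] [Algebra k K]
  [Field K₁] [Algebra k K₁] [Algebra K K₁] [IsScalarTower k K K₁] (δ : Derivation k K K),
  ∃ δ₁ : Derivation k K₁ K₁, ∀ a, δ₁ (algebraMap K K₁ a) = algebraMap K K₁ (δ a)

/-- KT: the field `K(t)`. -/
def S_KT : Prop := ∀ (k : Type u) [Field k] [CharZero k] (K : Type u) [Field K] [Algebra k K],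
  ∃ (K₁ : Type u) (_ : Field K₁) (_ : Algebra k K₁) (_ : Algebra K K₁)
    (_ : IsScalarTower k K K₁) (t : K₁), Transcendental K t ∧
    (∀ δ : Derivation k K K, ∃ δ₁ : Derivation k K₁ K₁,
      (∀ a, δ₁ (algebraMap K K₁ a) = algebraMap K K₁ (δ a)) ∧ δ₁ t = 0) ∧
    (∃ δ₁ : Derivation k K₁ K₁, (∀ a, δ₁ (algebraMap K K₁ a) = 0) ∧ δ₁ t = 1)

/-- GEN: algebraically independent elements and dual derivations. -/
def S_GEN : Prop := ∀ (k : Type u) [Field k] [CharZero k] (K : Type u) [Field K] [Algebra k K]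
  (p : ℕ), ∃ (K₂ : Type u) (_ : Field K₂) (_ : Algebra k K₂) (_ : Algebra K K₂)
    (_ : IsScalarTower k K K₂) (_ : IsAlgClosed K₂) (X : Fin p → K₂), AlgebraicIndependent k X ∧
    ∃ D : Fin p → Derivation k K₂ K₂, ∀ i j, D i (X j) = if i = j then 1 else 0

/-- SPC: vectors depending polynomially on `t` that are independent at `t = 0` are
independent. -/
def S_SPC : Prop := ∀ (K K₁ : Type u) [Field K] [Field K₁] [Algebra K K₁] (t : K₁),
  Transcendental K t → ∀ (ι : Type) [Fintype ι] (d : ℕ) (P : ι → Fin d → Polynomial K),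
  LinearIndependent K (fun i j => (P i j).eval 0) →
  LinearIndependent K₁ (fun i j => Polynomial.aeval t (P i j))

/-- LAMD: the value of `Lam` on the nilradical. -/
def S_LAMD : Prop := ∀ (k : Type u) [Field k] [CharZero k] (s : Type v) [LieRing s]
  [LieAlgebra k s] [FiniteDimensional k s] [LieAlgebra.IsKilling k s] (d : ℕ)
  (e : Basis (Fin d) k s) (K : Type u) [Field K] [Algebra k K] (δ : Derivation k K K)
  (w A y : K ⊗[k] s), (⨆ j : ℤ, dg K w j = ⊤) → dL s δ w = ⁅A, w⁆ → y ∈ nn K w →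
  Lam δ (LinearMap.toMatrix (e.baseChange K) (e.baseChange K)
    (LieAlgebra.ad K (K ⊗[k] s) y)) (killingForm K (K ⊗[k] s) y A)

/-- VAN: the vanishing lemma. -/
def S_VAN : Prop := ∀ (k : Type u) [Field k] [CharZero k] (s : Type v) [LieRing s]
  [LieAlgebra k s] [FiniteDimensional k s] [LieAlgebra.IsKilling k s] (r : LieSubalgebra k s)
  (K : Type u) [Field K] [Algebra k K] (w : K ⊗[k] s) (M : ℤ), Dat K w M →
  TT r.toSubmodule w = ⊤ → ∀ (m : ℕ) (n : Fin m → K ⊗[k] s), LinearIndependent K n →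
  Submodule.span K (Set.range n) = nn K w →
  (∃ F ∈ VV K n, ∃ ρ : Fin m → K ⊗[k] s, (∀ i, ρ i ∈ rK K r.toSubmodule) ∧ F ρ ≠ 0) →
  rK K r.toSubmodule ⊔ bb K w = ⊤

/-- MC: the simple root spaces generate. -/
def S_MC : Prop := ∀ (k : Type u) [Field k] [CharZero k] (s : Type v) [LieRing s]
  [LieAlgebra k s] [FiniteDimensional k s] [LieAlgebra.IsKilling k s] (r : LieSubalgebra k s)
  (K : Type u) [Field K] [Algebra k K] (w : K ⊗[k] s) (M : ℤ), Dat K w M →
  (∀ c : ℤ, M ≤ c → c < 2 * M → dg K w (-c) ≤ TT r.toSubmodule w) → TT r.toSubmodule w = ⊤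

/-- STEP: moving the datum along a simple root. -/
def S_STEP : Prop := ∀ (k : Type u) [Field k] [CharZero k] (s : Type v) [LieRing s]
  [LieAlgebra k s] [FiniteDimensional k s] [LieAlgebra.IsKilling k s] (r : LieSubalgebra k s)
  (K : Type u) [Field K] [Algebra k K] (w : K ⊗[k] s) (M : ℤ), Dat K w M →
  ∀ c : ℤ, M ≤ c → c < 2 * M → ∀ f ∈ dg K w (-c), f ∉ TT r.toSubmodule w →
  ∃ (K₁ : Type u) (_ : Field K₁) (_ : Algebra k K₁) (w₁ : K₁ ⊗[k] s), Dat K₁ w₁ M ∧
    finrank K (TT r.toSubmodule w) < finrank K₁ (TT r.toSubmodule w₁) ∧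
    (CC r.toSubmodule w₁ → CC r.toSubmodule w)

/-- CCL: all data satisfy `CC`. -/
def S_CCL : Prop := ∀ (k : Type u) [Field k] [CharZero k] (s : Type v) [LieRing s]
  [LieAlgebra k s] [FiniteDimensional k s] [LieAlgebra.IsKilling k s] (r : LieSubalgebra k s),
  HS r.toSubmodule → ∀ (K : Type u) [Field K] [Algebra k K] (w : K ⊗[k] s) (M : ℤ),
  Dat K w M → CC r.toSubmodule w

/-- P4F: the vanishing of `Lam` on the orthogonal of `r`. -/
def S_P4F : Prop := ∀ (k : Type u) [Field k] [CharZero k] (s : Type v) [LieRing s]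
  [LieAlgebra k s] [FiniteDimensional k s] [LieAlgebra.IsKilling k s] (d : ℕ)
  (e : Basis (Fin d) k s) (r : LieSubalgebra k s), HS r.toSubmodule → P4 e r.toSubmodule

/-- SB: the derivative of an element is orthogonal to part of its centraliser. -/
def S_SB : Prop := ∀ (k : Type u) [Field k] [CharZero k] (s : Type v) [LieRing s]
  [LieAlgebra k s] [FiniteDimensional k s] [LieAlgebra.IsKilling k s]
  (K : Type u) [Field K] [Algebra k K] [IsAlgClosed K] (δ : Derivation k K K)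
  (S N c : K ⊗[k] s), ⁅S, N⁆ = 0 → (LieAlgebra.ad K (K ⊗[k] s) S).IsSemisimple →
  IsNilpotent (LieAlgebra.ad K (K ⊗[k] s) N) → ⁅S, c⁆ = 0 → ⁅N, c⁆ = 0 →
  c ∈ Submodule.span K {z : K ⊗[k] s | ∃ a b : K ⊗[k] s, ⁅S, a⁆ = 0 ∧ ⁅S, b⁆ = 0 ∧ z = ⁅a, b⁆} →
  killingForm K (K ⊗[k] s) (dL s δ (S + N)) c = 0

/-- G3: the generic element has the smallest Engel subalgebra. -/
def S_G3 : Prop := ∀ (k : Type u) [Field k] [CharZero k] (s : Type v) [LieRing s]
  [LieAlgebra k s] [FiniteDimensional k s] (p : ℕ) (v : Fin p → s)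
  (K : Type u) [Field K] [Algebra k K] (X : Fin p → K), AlgebraicIndependent k X →
  ∀ y : Fin p → K,
  finrank K (LieSubalgebra.engel K (∑ i, X i ⊗ₜ[k] v i)) ≤
    finrank K (LieSubalgebra.engel K (∑ i, y i ⊗ₜ[k] v i))

/-- G4: the rank of the form is semicontinuous. -/
def S_G4 : Prop := ∀ (k : Type u) [Field k] [CharZero k] (s : Type v) [LieRing s]
  [LieAlgebra k s] [FiniteDimensional k s] (r : Submodule k s) (p : ℕ) (v : Fin p → s)
  (K : Type u) [Field K] [Algebra k K] (X : Fin p → K), AlgebraicIndependent k X →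
  ∀ (α : s) (y : Fin p → k),
  finrank k (LinearMap.range (cform k r α (∑ i, y i • v i))) ≤
    finrank K (LinearMap.range (cform K (rK K r) (1 ⊗ₜ[k] α) (∑ i, X i ⊗ₜ[k] v i)))

/-- P3: from the rank estimates to transversal data. -/
def S_P3 : Prop := ∀ (k : Type u) [Field k] [CharZero k] (s : Type v) [LieRing s]
  [LieAlgebra k s] [FiniteDimensional k s] [LieAlgebra.IsKilling k s] (r : LieSubalgebra k s)
  (ν : ℕ), (∀ (K : Type u) [Field K] [Algebra k K] (y : K ⊗[k] s),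
    finrank K (LinearMap.range (LieAlgebra.ad K (K ⊗[k] s) y)) ≤ ν) →
  (∃ α x : s, (∀ a ∈ r, ∀ b ∈ r, killingForm k s x ⁅a, b⁆ = 0) ∧
    ν ≤ finrank k (LinearMap.range (cform k r.toSubmodule α x))) →
  HS r.toSubmodule

/-- H1: the rank of `ad y` over field extensions. -/
def S_H1 : Prop := ∀ (k : Type u) [Field k] [CharZero k] (g s : Type v) [LieRing g]
  [LieAlgebra k g] [LieRing s] [LieAlgebra k s] [FiniteDimensional k s]
  [LieAlgebra.IsKilling k s] (N : ℕ) (_ : Basis (Fin N) k g) (π : g →ₗ⁅k⁆ s),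
  Function.Surjective π → ∀ (K : Type u) [Field K] [Algebra k K] (y : K ⊗[k] s),
    finrank K (LinearMap.range (LieAlgebra.ad K (K ⊗[k] s) y)) + ind (lieB k g) ≤ N

/-- H2: the rank of the form for a contraction. -/
def S_H2 : Prop := ∀ (k : Type u) [Field k] [CharZero k] (g s : Type v) [LieRing g]
  [LieAlgebra k g] [LieRing s] [LieAlgebra k s] [FiniteDimensional k s]
  [LieAlgebra.IsKilling k s] (N : ℕ) (_ : Basis (Fin N) k g) (ι : s →ₗ⁅k⁆ g) (π : g →ₗ⁅k⁆ s),
  (∀ x y : g, ⁅x - ι (π x), y⁆ = 0) → ∀ (h r : LieSubalgebra k g)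
  (hc : IsCompl h.toSubmodule r.toSubmodule), ∃ α x : s,
  (∀ a ∈ r.toSubmodule.map (π : g →ₗ[k] s), ∀ b ∈ r.toSubmodule.map (π : g →ₗ[k] s),
    killingForm k s x ⁅a, b⁆ = 0) ∧
  N ≤ finrank k (LinearMap.range (cform k (r.toSubmodule.map (π : g →ₗ[k] s)) α x)) +
    ind (brt h r hc none)

end Pool.Agent.TH28.FL
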