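import Pool.Agent.TH28.FL.DatK

/-!
# The rank: task statements (stage 2)
-/

set_option autoImplicit false

universe u v

namespace Pool.Agent.TH28.FL

open Module TensorProduct

/-- RKS: centralisers are at least as large as a Cartan subalgebra. -/
def S_RKS : Prop := ∀ (k : Type u) [Field k] [CharZero k] [IsAlgClosed k] (s : Type v)
  [LieRing s] [LieAlgebra k s] [FiniteDimensional k s] [LieAlgebra.IsKilling k s]
  (H : LieSubalgebra k s) [H.IsCartanSubalgebra] (x : s),
  finrank k H ≤ finrank k (LinearMap.ker (LieAlgebra.ad k s x))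

/-- RKG: the index of a reductive Lie algebra is at least the dimension of a Cartan subalgebra. -/
def S_RKG : Prop := ∀ (k : Type u) [Field k] [CharZero k] [IsAlgClosed k] (g s : Type v)
  [LieRing g] [LieAlgebra k g] [FiniteDimensional k g] [LieRing s] [LieAlgebra k s]
  [FiniteDimensional k s] [LieAlgebra.IsKilling k s] (ι : s →ₗ⁅k⁆ g) (π : g →ₗ⁅k⁆ s),
  (∀ v, π (ι v) = v) → (∀ x y : g, ⁅x - ι (π x), y⁆ = 0) →
  ∀ (t : LieSubalgebra k g) [t.IsCartanSubalgebra], finrank k t ≤ ind (lieB k g)

end Pool.Agent.TH28.FL
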