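import Pool.Agent.TH28.FL.Main
import Pool.Agent.TH28.FL.DatR

/-! The final assembly for MP_80e906_al. -/

set_option autoImplicit false

universe u v

namespace Pool.Agent.TH28.FL

open Module TensorProduct MvPolynomial

section red

variable {k : Type u} [Field k] {g : Type v} [LieRing g] [LieAlgebra k g]
  (I : LieIdeal k g) (hI : IsCompl (LieAlgebra.center k g).toSubmodule I.toSubmodule)

theorem red_sub_mem (x : g) :
    x - (I.toSubmodule.projectionOnto (LieAlgebra.center k g).toSubmodule hI.symm x : g) ∈
      LieAlgebra.center k g := by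
  have h1 := Submodule.projection_add_projection_eq_self hI x
  have h2 : x - (I.toSubmodule.projectionOnto (LieAlgebra.center k g).toSubmodule hI.symm x : g) =
      (LieAlgebra.center k g).toSubmodule.projection I.toSubmodule hI x := by
    rw [sub_eq_iff_eq_add]
    exact h1.symm
  rw [h2]
  exact Submodule.projection_apply_mem hI x

theorem red_lie (x y : g) :
    ⁅x - (I.toSubmodule.projectionOnto (LieAlgebra.center k g).toSubmodule hI.symm x : g), y⁆ = 0 := by
  have h1 := red_sub_mem I hI x
  rw [LieModule.mem_maxTrivSubmodule] at h1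
  rw [← lie_skew, h1, neg_zero]

/-- the projection to the ideal as a linear map -/
noncomputable def piL : g →ₗ[k] I :=
  I.toSubmodule.projectionOnto (LieAlgebra.center k g).toSubmodule hI.symm

theorem piL_coe (v : I) : piL I hI (v : g) = v := Submodule.projectionOnto_apply_left hI.symm v

theorem piL_lie (x y : g) : ⁅x - (piL I hI x : g), y⁆ = 0 := red_lie I hI x y

/-- the projection of a direct sum of the centre and an ideal to the ideal -/
noncomputable def piRed : g →ₗ⁅k⁆ I where
  toLinearMap := piL I hI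
  map_lie' := by
    intro x y
    have h1 : ⁅x, y⁆ = ((⁅piL I hI x, piL I hI y⁆ : I) : g) := by
      have h2 : ⁅x - (piL I hI x : g), y⁆ = 0 := piL_lie I hI x y
      have h3 : ⁅y - (piL I hI y : g), (piL I hI x : g)⁆ = 0 := piL_lie I hI y _
      rw [sub_lie, sub_eq_zero] at h2 h3
      rw [h2, ← lie_skew, h3, lie_skew]
      rfl
    have h4 := piL_coe I hI ⁅piL I hI x, piL I hI y⁆
    change piL I hI ⁅x, y⁆ = ⁅piL I hI x, piL I hI y⁆
    rw [h1]
    exact h4

end red

theorem final (hPC : S_PC.{u,v}) (hF : S_P4F.{u,v}) (h3 : S_P3.{u,v}) (h1 : S_H1.{u,v})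
    (h2 : S_H2.{u,v}) (hR : S_RKG.{u,v}) (k : Type u) [Field k] [CharZero k] [IsAlgClosed k]
    (g : Type v) [LieRing g] [LieAlgebra k g] [FiniteDimensional k g]
    (I : LieIdeal k g) (hI : IsCompl (LieAlgebra.center k g).toSubmodule I.toSubmodule)
    (hrad : LieAlgebra.HasTrivialRadical k I) (N : ℕ) (b : Basis (Fin N) k g)
    (h r : LieSubalgebra k g) (hc : IsCompl h.toSubmodule r.toSubmodule)
    (t : LieSubalgebra k g) [t.IsCartanSubalgebra]
    (hh : ind (brt h r hc (some 0)) = finrank k t) (hr : ind (brt h r hc none) = finrank k t)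
    (m : ℕ) (f : Fin m → MvPolynomial (Fin N) k)
    (hhom : ∀ i, ∃ n, (f i).IsHomogeneous n) (hai : AlgebraicIndependent k f)
    (hgen : Algebra.adjoin k (Set.range f) = Zalg h r hc b) :
    RingTheory.Sequence.IsRegular (MvPolynomial (Fin N) k) (List.ofFn f) := by
  let π : g →ₗ⁅k⁆ I := piRed I hI
  let ι : I →ₗ⁅k⁆ g := I.incl
  have hK : LieAlgebra.IsKilling k I := inferInstance
  have hπι : ∀ v, π (ι v) = v := fun v => piL_coe I hI v
  have hz : ∀ x y : g, ⁅x - ι (π x), y⁆ = 0 := fun x y => piL_lie I hI x y
  have hsurj : Function.Surjective π := fun v => ⟨ι v, hπι v⟩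
  let e := finBasis k I
  have hrk : finrank k t ≤ ind (lieB k g) := hR k g I ι π hπι hz t
  have key : ∀ (h' r' : LieSubalgebra k g) (hc' : IsCompl h'.toSubmodule r'.toSubmodule),
      ind (brt h' r' hc' none) ≤ ind (lieB k g) →
      P4 e (r'.toSubmodule.map (π : g →ₗ[k] I)) := by
    intro h' r' hc' hle
    have hS : HS (r'.map π).toSubmodule := by
      apply h3 k I (r'.map π) (N - ind (lieB k g))
      · intro K _ _ y
        have := h1 k g I N b π hsurj K y
        omega
      · obtain ⟨α, x, hx1, hx2⟩ := h2 k g I N b ι π hz h' r' hc'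
        refine ⟨α, x, fun a ha b hb => hx1 a ha b hb, ?_⟩
        have h5 : N ≤ finrank k (LinearMap.range (cform k (r'.map π).toSubmodule α x)) +
          ind (brt h' r' hc' none) := hx2
        omega
    exact hF k I _ e (r'.map π) hS
  have hr' : P4 e (r.toSubmodule.map (π : g →ₗ[k] I)) := key h r hc (hr.trans_le hrk)
  have hh' : P4 e (h.toSubmodule.map (π : g →ₗ[k] I)) := by
    apply key r h hc.symm
    have h6 : brt r h hc.symm none = brt h r hc (some 0) := by
      change contr (prr r h hc.symm) (prh r h hc.symm) =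
        contr (prh h r hc) (prr h r hc) + (0 : k) • contr (prr h r hc) (prh h r hc)
      rw [zero_smul, add_zero]
      rfl
    rw [h6, hh]
    exact hrk
  exact main_of_P4 b e ι π hz h r hc hPC hr' hh' m f hhom hai hgen

end Pool.Agent.TH28.FL
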