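import Pool.Agent.TH28.FL.Core

/-! The invariants `tr (M ^ j)` of a reductive Lie algebra. -/

set_option autoImplicit false

universe u v

namespace Pool.Agent.TH28.FL

open Module Matrix MvPolynomial

section ad

variable {k : Type u} [Field k] {s : Type v} [LieRing s] [LieAlgebra k s] {d : ℕ}
  (e : Basis (Fin d) k s)

/-- the matrix of `ad v` -/
noncomputable def adM (v : s) : Matrix (Fin d) (Fin d) k := LinearMap.toMatrix e e (LieAlgebra.ad k s v)

theorem adM_add (v w : s) : adM e (v + w) = adM e v + adM e w := by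
  unfold adM; rw [map_add, map_add]

theorem adM_smul (c : k) (v : s) : adM e (c • v) = c • adM e v := by
  unfold adM; rw [map_smul, map_smul]

theorem adM_lie (v w : s) : adM e ⁅v, w⁆ = adM e v * adM e w - adM e w * adM e v := by
  unfold adM
  rw [← LinearMap.toMatrix_mul, ← LinearMap.toMatrix_mul, ← map_sub]
  congr 1
  ext z
  simp only [LieAlgebra.ad_apply, LinearMap.sub_apply, Module.End.mul_apply]
  exact lie_lie v w z

theorem trace_adM (v w : s) : (adM e v * adM e w).trace = killingForm k s v w := by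
  unfold adM
  rw [killingForm_apply_apply, ← LinearMap.toMatrix_mul, LinearMap.trace_eq_matrix_trace k e]
  rfl

/-- `adM` as a linear map -/
noncomputable def adL : s →ₗ[k] Matrix (Fin d) (Fin d) k where
  toFun := adM e
  map_add' := adM_add e
  map_smul' := adM_smul e

theorem adL_apply (v : s) : adL e v = adM e v := rfl

end ad

section KK

variable {k : Type u} [Field k] {s : Type v} [LieRing s] [LieAlgebra k s] {d : ℕ}
  (e : Basis (Fin d) k s) (R : Type u) [CommRing R] [Algebra k R]

/-- `adM` over an extension -/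
noncomputable def adR (v : s) : Matrix (Fin d) (Fin d) R := (adM e v).map (algebraMap k R)

theorem adR_add (v w : s) : adR e R (v + w) = adR e R v + adR e R w := by
  unfold adR
  rw [adM_add]
  exact Matrix.map_add _ (map_add _) _ _

theorem adR_smul (c : k) (v : s) : adR e R (c • v) = c • adR e R v := by
  unfold adR
  rw [adM_smul]
  ext i j
  rw [Matrix.map_apply, Matrix.smul_apply, Matrix.smul_apply, Matrix.map_apply, smul_eq_mul,
    map_mul, Algebra.smul_def]

theorem adR_zero : adR e R 0 = 0 := by
  have := adR_smul e R 0 0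
  rw [zero_smul, zero_smul] at this
  exact this

theorem adR_sum {ι : Type*} (t : Finset ι) (f : ι → s) :
    adR e R (∑ i ∈ t, f i) = ∑ i ∈ t, adR e R (f i) := by
  classical
  induction t using Finset.induction_on with
  | empty => simp [adR_zero]
  | insert a t ha ih => rw [Finset.sum_insert ha, Finset.sum_insert ha, adR_add, ih]

theorem adR_lie (v w : s) : adR e R ⁅v, w⁆ = adR e R v * adR e R w - adR e R w * adR e R v := by
  unfold adR
  rw [adM_lie, Matrix.map_sub _ (map_sub _), Matrix.map_mul, Matrix.map_mul]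

theorem adR_trace (v w : s) :
    (adR e R v * adR e R w).trace = algebraMap k R (killingForm k s v w) := by
  unfold adR
  rw [← Matrix.map_mul, ← trace_adM e, Matrix.trace, Matrix.trace, map_sum]
  rfl

variable [FiniteDimensional k s] [LieAlgebra.IsKilling k s]

/-- the basis dual to `e` for the Killing form -/
noncomputable def dualE : Basis (Fin d) k s :=
  (killingForm k s).dualBasis (LieAlgebra.IsKilling.killingForm_nondegenerate k s) e

theorem dualE_left (i j : Fin d) : killingForm k s (dualE e i) (e j) = if j = i then 1 else 0 :=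
  LinearMap.BilinForm.apply_dualBasis_left _ _ _ _

theorem dualE_sum (v : s) : v = ∑ i, killingForm k s v (e i) • dualE e i := by
  conv_lhs => rw [← (dualE e).sum_repr v]
  refine Finset.sum_congr rfl fun i _ => ?_
  congr 1
  exact LinearMap.BilinForm.dualBasis_repr_apply _ _ _ _

theorem e_sum (v : s) : v = ∑ i, killingForm k s (dualE e i) v • e i := by
  conv_lhs => rw [← e.sum_repr v]
  refine Finset.sum_congr rfl fun i _ => ?_
  congr 1
  conv_rhs => rw [← e.sum_repr v]
  rw [map_sum]
  simp only [map_smul, smul_eq_mul, dualE_left]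
  simp

/-- the Casimir tensor is invariant -/
theorem casimir {M : Type*} [AddCommGroup M] [Module k M] (T : s →ₗ[k] s →ₗ[k] M) (w : s) :
    ∑ i, T ⁅e i, w⁆ (dualE e i) = - ∑ i, T (e i) ⁅dualE e i, w⁆ := by
  have h1 : ∀ i, T ⁅e i, w⁆ (dualE e i) =
      ∑ j, killingForm k s (dualE e j) ⁅e i, w⁆ • T (e j) (dualE e i) := by
    intro i
    conv_lhs => rw [e_sum e ⁅e i, w⁆]
    rw [map_sum, LinearMap.sum_apply]
    refine Finset.sum_congr rfl fun j _ => ?_
    rw [map_smul, LinearMap.smul_apply]
  have h2 : ∀ j, T (e j) ⁅dualE e j, w⁆ =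
      ∑ i, killingForm k s ⁅dualE e j, w⁆ (e i) • T (e j) (dualE e i) := by
    intro j
    conv_lhs => rw [dualE_sum e ⁅dualE e j, w⁆]
    rw [map_sum]
    refine Finset.sum_congr rfl fun i _ => ?_
    rw [map_smul]
  simp only [h1, h2]
  rw [Finset.sum_comm, ← Finset.sum_neg_distrib]
  refine Finset.sum_congr rfl fun j _ => ?_
  rw [← Finset.sum_neg_distrib]
  refine Finset.sum_congr rfl fun i _ => ?_
  rw [← neg_smul]
  congr 1
  have := LieModule.traceForm_apply_lie_apply k s s (dualE e j) w (e i)
  change killingForm k s ⁅dualE e j, w⁆ (e i) = killingForm k s (dualE e j) ⁅w, e i⁆ at this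
  rw [this, ← lie_skew, map_neg]

end KK

section gen

variable {k : Type u} [Field k] {g s : Type v} [LieRing g] [LieAlgebra k g] [LieRing s]
  [LieAlgebra k s] {N d : ℕ} (b : Basis (Fin N) k g) (e : Basis (Fin d) k s)
  [FiniteDimensional k s] [LieAlgebra.IsKilling k s]
  (ι : s →ₗ⁅k⁆ g) (π : g →ₗ⁅k⁆ s)

/-- the matrix attached to a linear map `ξ : g → R` -/
noncomputable def mat (R : Type u) [CommRing R] [Algebra k R] (ξ : g →ₗ[k] R) :
    Matrix (Fin d) (Fin d) R := ∑ i, ξ (ι (e i)) • adR e R (dualE e i)

/-- the generic matrix -/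
noncomputable def genM : Matrix (Fin d) (Fin d) (MvPolynomial (Fin N) k) :=
  mat e ι (MvPolynomial (Fin N) k) (lin b)

theorem mat_trace (R : Type u) [CommRing R] [Algebra k R] (ξ : g →ₗ[k] R) (v : s) :
    (mat e ι R ξ * adR e R v).trace = ξ (ι v) := by
  unfold mat
  rw [Finset.sum_mul, Matrix.trace_sum]
  simp only [Matrix.smul_mul, Matrix.trace_smul, adR_trace, smul_eq_mul]
  conv_rhs => rw [e_sum e v]
  rw [map_sum, map_sum]
  refine Finset.sum_congr rfl fun i _ => ?_
  rw [map_smul, map_smul, Algebra.smul_def, mul_comm]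

theorem mat_map (R R' : Type u) [CommRing R] [Algebra k R] [CommRing R'] [Algebra k R']
    (φ : R →ₐ[k] R') (ξ : g →ₗ[k] R) :
    (mat e ι R ξ).map φ = mat e ι R' (φ.toLinearMap ∘ₗ ξ) := by
  unfold mat
  ext i j
  simp [Matrix.sum_apply, adR]

theorem mat_add (R : Type u) [CommRing R] [Algebra k R] (ξ η : g →ₗ[k] R) :
    mat e ι R (ξ + η) = mat e ι R ξ + mat e ι R η := by
  unfold mat
  rw [← Finset.sum_add_distrib]
  refine Finset.sum_congr rfl fun i _ => ?_
  rw [LinearMap.add_apply, add_smul]

theorem mat_smul (R : Type u) [CommRing R] [Algebra k R] (c : R) (ξ : g →ₗ[k] R) :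
    mat e ι R (c • ξ) = c • mat e ι R ξ := by
  unfold mat
  rw [Finset.smul_sum]
  refine Finset.sum_congr rfl fun i _ => ?_
  rw [LinearMap.smul_apply, smul_smul, smul_eq_mul]

/-- the derivation `p ↦ {p, q}` -/
noncomputable def pder (β : g →ₗ[k] g →ₗ[k] g) (q : MvPolynomial (Fin N) k) :
    Derivation k (MvPolynomial (Fin N) k) (MvPolynomial (Fin N) k) :=
  ∑ i, (∑ j, pderiv j q * lin b (β (b i) (b j))) • pderiv i

theorem pder_apply (β : g →ₗ[k] g →ₗ[k] g) (p q : MvPolynomial (Fin N) k) :
    pder b β q p = pbr b β p q := by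
  unfold pder pbr
  have h1 : ∀ (t : Finset (Fin N)) (f : Fin N → Derivation k (MvPolynomial (Fin N) k)
      (MvPolynomial (Fin N) k)), (∑ i ∈ t, f i) p = ∑ i ∈ t, f i p := by
    intro t f
    classical
    induction t using Finset.induction_on with
    | empty => simp
    | insert a t ha ih => rw [Finset.sum_insert ha, Finset.sum_insert ha, Derivation.add_apply, ih]
  rw [h1]
  refine Finset.sum_congr rfl fun i _ => ?_
  rw [Derivation.smul_apply, smul_eq_mul, Finset.sum_mul]
  refine Finset.sum_congr rfl fun j _ => ?_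
  ring

theorem lin_b (i : Fin N) : lin b (b i) = X i := by
  unfold lin; rw [Basis.constr_basis]

theorem pder_lin (β : g →ₗ[k] g →ₗ[k] g) (q : MvPolynomial (Fin N) k) (v : g) :
    pder b β q (lin b v) = ∑ j, pderiv j q * lin b (β v (b j)) := by
  have h : (pder b β q : MvPolynomial (Fin N) k →ₗ[k] MvPolynomial (Fin N) k) ∘ₗ lin b =
      ∑ j, (LinearMap.mulLeft k (pderiv j q)) ∘ₗ lin b ∘ₗ (β.flip (b j)) := by
    apply b.ext
    intro i
    rw [LinearMap.comp_apply, lin_b, LinearMap.sum_apply]
    change pder b β q (X i) = _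
    rw [pder_apply]
    unfold pbr
    rw [Finset.sum_eq_single i]
    · refine Finset.sum_congr rfl fun j _ => ?_
      rw [pderiv_X_self, one_mul]
      rfl
    · intro l _ hl
      refine Finset.sum_eq_zero fun j _ => ?_
      rw [pderiv_X_of_ne hl.symm, zero_mul, zero_mul]
    · intro h; exact absurd (Finset.mem_univ i) h
  have := LinearMap.congr_fun h v
  rw [LinearMap.sum_apply] at this
  exact this

variable (hπι : ∀ v, π (ι v) = v) (hz : ∀ x y : g, ⁅x - ι (π x), y⁆ = 0)

include hz in
theorem lie_eq (x : s) (y : g) : ⁅ι x, y⁆ = ι ⁅x, π y⁆ := by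
  have h1 := hz y (ι x)
  rw [sub_lie, sub_eq_zero] at h1
  rw [LieHom.map_lie, ← lie_skew, h1, lie_skew]

include hz in
/-- the generic matrix is equivariant -/
theorem pder_genM (q : MvPolynomial (Fin N) k) :
    (genM b e ι).map (pder b (lieB k g) q) =
      (∑ j, pderiv j q • adR e _ (π (b j))) * genM b e ι -
        genM b e ι * (∑ j, pderiv j q • adR e _ (π (b j))) := by
  set D := pder b (lieB k g) q with hD
  have h0 : ∀ (r : MvPolynomial (Fin N) k) (v : s), (r • adR e (MvPolynomial (Fin N) k) v).map D =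
      D r • adR e (MvPolynomial (Fin N) k) v := by
    intro r v
    ext1 i j
    simp only [Matrix.map_apply, Matrix.smul_apply, smul_eq_mul, adR, Derivation.leibniz,
      Derivation.map_algebraMap, mul_zero, zero_add]
    ring
  have h1 : (genM b e ι).map D = ∑ i, D (lin b (ι (e i))) • adR e _ (dualE e i) := by
    unfold genM mat
    have : ∀ (t : Finset (Fin d)), (∑ i ∈ t, lin b (ι (e i)) • adR e (MvPolynomial (Fin N) k)
        (dualE e i)).map D = ∑ i ∈ t, D (lin b (ι (e i))) • adR e _ (dualE e i) := by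
      intro t
      classical
      induction t using Finset.induction_on with
      | empty => ext i j; simp
      | insert a t ha ih =>
        rw [Finset.sum_insert ha, Finset.sum_insert ha, map_add_der, ih, h0]
    exact this _
  rw [h1]
  have h2 : ∀ i, D (lin b (ι (e i))) = ∑ j, pderiv j q * lin b (ι ⁅e i, π (b j)⁆) := by
    intro i
    rw [hD, pder_lin]
    refine Finset.sum_congr rfl fun j _ => ?_
    have : lieB k g (ι (e i)) (b j) = ⁅ι (e i), b j⁆ := rfl
    rw [this, lie_eq ι π hz]
  simp only [h2, Finset.sum_smul]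
  rw [Finset.sum_comm]
  have h3 : ∀ j, ∑ i, (pderiv j q * lin b (ι ⁅e i, π (b j)⁆)) • adR e (MvPolynomial (Fin N) k)
      (dualE e i) = pderiv j q • (adR e _ (π (b j)) * genM b e ι - genM b e ι * adR e _ (π (b j))) := by
    intro j
    set w := π (b j) with hw
    let T : s →ₗ[k] s →ₗ[k] Matrix (Fin d) (Fin d) (MvPolynomial (Fin N) k) :=
      LinearMap.mk₂ k (fun x y => lin b (ι x) • adR e (MvPolynomial (Fin N) k) y)
        (by intro x x' y; rw [map_add, map_add, add_smul])
        (by intro c x y; rw [map_smul, map_smul, smul_assoc])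
        (by intro x y y'; rw [adR_add, smul_add])
        (by intro c x y; rw [adR_smul, smul_comm])
    have hc := casimir e T w
    have hT : ∀ x y, T x y = lin b (ι x) • adR e (MvPolynomial (Fin N) k) y := fun _ _ => rfl
    simp only [hT] at hc
    simp only [mul_smul]
    rw [← Finset.smul_sum, hc]
    congr 1
    unfold genM mat
    rw [Finset.sum_mul, Finset.mul_sum, ← Finset.sum_sub_distrib, ← Finset.sum_neg_distrib]
    refine Finset.sum_congr rfl fun i _ => ?_
    rw [adR_lie, Matrix.smul_mul, Matrix.mul_smul, ← smul_sub, ← smul_neg]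
    congr 1
    abel
  simp only [h3]
  rw [Finset.sum_mul, Finset.mul_sum, ← Finset.sum_sub_distrib]
  refine Finset.sum_congr rfl fun j _ => ?_
  rw [Matrix.smul_mul, Matrix.mul_smul, smul_sub]

include hz in
/-- `tr (M ^ j)` is in the Poisson centre -/
theorem pbr_trace (n : ℕ) (q : MvPolynomial (Fin N) k) :
    pbr b (lieB k g) ((genM b e ι ^ n).trace) q = 0 := by
  rw [← pder_apply, ← trace_map_der, pow_commutator_der _ (pder_genM b e ι π hz q),
    Matrix.trace_sub, Matrix.trace_mul_comm, sub_self]

theorem pbr_centre {c : g} (hc : ∀ y : g, ⁅c, y⁆ = 0) (q : MvPolynomial (Fin N) k) :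
    pbr b (lieB k g) (lin b c) q = 0 := by
  rw [← pder_apply, pder_lin]
  refine Finset.sum_eq_zero fun j _ => ?_
  have : lieB k g c (b j) = ⁅c, b j⁆ := rfl
  rw [this, hc, map_zero, mul_zero]

end gen

end Pool.Agent.TH28.FL
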