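import Pool.Agent.TH28.FL.Nil
import Pool.Agent.TH28.FL.Bru

/-! The form `lambda` on nilpotent matrices over a differential field. -/

set_option autoImplicit false

namespace Pool.Agent.TH28.FL

open Module Matrix

section ring

variable {k K : Type*} [CommRing k] [CommRing K] [Algebra k K] (δ : Derivation k K K) {n : ℕ}

theorem map_mul_der (A B : Matrix (Fin n) (Fin n) K) :
    (A * B).map δ = A.map δ * B + A * B.map δ := by
  ext i j
  simp only [Matrix.map_apply, Matrix.mul_apply, Matrix.add_apply, map_sum, Derivation.leibniz,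
    smul_eq_mul]
  rw [← Finset.sum_add_distrib]
  refine Finset.sum_congr rfl fun l _ => ?_
  ring

theorem map_one_der : (1 : Matrix (Fin n) (Fin n) K).map δ = 0 := by
  ext i j
  rw [Matrix.map_apply, Matrix.one_apply]
  split_ifs <;> simp

theorem map_add_der (A B : Matrix (Fin n) (Fin n) K) :
    (A + B).map δ = A.map δ + B.map δ := by
  ext i j; simp

theorem map_sub_der (A B : Matrix (Fin n) (Fin n) K) :
    (A - B).map δ = A.map δ - B.map δ := by
  ext i j; simp

theorem trace_map_der (A : Matrix (Fin n) (Fin n) K) : (A.map δ).trace = δ A.trace := by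
  simp only [Matrix.trace, Matrix.diag_apply, Matrix.map_apply, map_sum]

theorem pow_commutator_der {x b : Matrix (Fin n) (Fin n) K} (hx : x.map δ = b * x - x * b)
    (m : ℕ) : (x ^ m).map δ = b * x ^ m - x ^ m * b := by
  induction m with
  | zero => rw [pow_zero, map_one_der, Matrix.mul_one, Matrix.one_mul, sub_self]
  | succ m ih =>
    rw [pow_succ, map_mul_der, ih, hx]
    simp only [Matrix.sub_mul, Matrix.mul_sub, Matrix.mul_assoc]
    abel

end ring

section der

variable {k K : Type*} [CommRing k] [Field K] [Algebra k K] (δ : Derivation k K K) {n : ℕ}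

theorem mulVec_der (A : Matrix (Fin n) (Fin n) K) (v : Fin n → K) :
    (fun i => δ ((A *ᵥ v) i)) = A.map δ *ᵥ v + A *ᵥ (fun i => δ (v i)) := by
  ext i
  simp only [Matrix.mulVec, dotProduct, Matrix.map_apply, Pi.add_apply, map_sum,
    Derivation.leibniz, smul_eq_mul]
  rw [← Finset.sum_add_distrib]
  refine Finset.sum_congr rfl fun l _ => ?_
  ring

/-- `P` conjugates `x` to a strictly upper triangular matrix -/
structure Tri (x P Q : Matrix (Fin n) (Fin n) K) : Prop where
  pq : P * Q = 1
  qp : Q * P = 1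
  tri : ∀ i j, j ≤ i → (Q * x * P) i j = 0

theorem Adapted.tri {x P Q : Matrix (Fin n) (Fin n) K} {l : Fin n → ℕ} (h : Adapted x P Q l) :
    Tri x P Q := ⟨h.pq, h.qp, fun _ _ hij => h.triangular hij⟩

/-- upper times strictly upper has trace zero -/
theorem trace_upper {A B : Matrix (Fin n) (Fin n) K} (hA : ∀ i j, j ≤ i → A i j = 0)
    (hB : ∀ i j, j < i → B i j = 0) : (A * B).trace = 0 := by
  simp only [Matrix.trace, Matrix.diag_apply, Matrix.mul_apply]
  refine Finset.sum_eq_zero fun i _ => Finset.sum_eq_zero fun j _ => ?_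
  rcases le_or_gt j i with h | h
  · rw [hA i j h, zero_mul]
  · rw [hB j i h, mul_zero]

theorem strict_mul_upper {A B : Matrix (Fin n) (Fin n) K} (hA : ∀ i j, j ≤ i → A i j = 0)
    (hB : ∀ i j, j < i → B i j = 0) : ∀ i j, j ≤ i → (A * B) i j = 0 := by
  intro i j hij
  rw [Matrix.mul_apply]
  refine Finset.sum_eq_zero fun l _ => ?_
  rcases le_or_gt l i with h | h
  · rw [hA i l h, zero_mul]
  · rw [hB l j (lt_of_le_of_lt hij h), mul_zero]

theorem upper_mul_strict {A B : Matrix (Fin n) (Fin n) K} (hA : ∀ i j, j < i → A i j = 0)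
    (hB : ∀ i j, j ≤ i → B i j = 0) : ∀ i j, j ≤ i → (A * B) i j = 0 := by
  intro i j hij
  rw [Matrix.mul_apply]
  refine Finset.sum_eq_zero fun l _ => ?_
  rcases lt_or_ge l i with h | h
  · rw [hA i l h, zero_mul]
  · rw [hB l j (hij.trans h), mul_zero]

theorem inv_der {P Q : Matrix (Fin n) (Fin n) K} (h : P * Q = 1) (h' : Q * P = 1) :
    Q.map δ = - (Q * P.map δ * Q) := by
  have h1 := congrArg (fun M : Matrix (Fin n) (Fin n) K => M.map δ) h
  simp only [map_mul_der, map_one_der] at h1
  have h2 : P * Q.map δ = - (P.map δ * Q) := by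
    rw [eq_neg_iff_add_eq_zero, add_comm]; exact h1
  calc Q.map δ = (Q * P) * Q.map δ := by rw [h', Matrix.one_mul]
    _ = - (Q * P.map δ * Q) := by rw [Matrix.mul_assoc, h2, Matrix.mul_neg, Matrix.mul_assoc]

theorem lam_unique {x P Q P' Q' : Matrix (Fin n) (Fin n) K} (h : Tri x P Q) (h' : Tri x P' Q') :
    (x * (P.map δ * Q)).trace = (x * (P'.map δ * Q')).trace := by
  classical
  have hdet : IsUnit (Q * P').det := by
    rw [← Matrix.isUnit_iff_isUnit_det]
    refine ⟨⟨Q * P', Q' * P, ?_, ?_⟩, rfl⟩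
    · rw [Matrix.mul_assoc, ← Matrix.mul_assoc P', h'.pq, Matrix.one_mul, h.qp]
    · rw [Matrix.mul_assoc, ← Matrix.mul_assoc P, h.pq, Matrix.one_mul, h'.qp]
  obtain ⟨w, b, hb, b', hb', hw⟩ := Bru.bruhat (Q * P') hdet
  set W := Bru.permMat K w with hWdef
  have hP' : P' = P * b * W * b' := by
    calc P' = (P * Q) * P' := by rw [h.pq, Matrix.one_mul]
      _ = P * (Q * P') := by rw [Matrix.mul_assoc]
      _ = P * b * W * b' := by rw [hw]; simp only [Matrix.mul_assoc]
  -- inverses
  set c := b⁻¹ with hcdef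
  set c' := b'⁻¹ with hc'def
  have hbc : b * c = 1 := Matrix.mul_nonsing_inv _ hb.1
  have hcb : c * b = 1 := Matrix.nonsing_inv_mul _ hb.1
  have hbc' : b' * c' = 1 := Matrix.mul_nonsing_inv _ hb'.1
  have hcb' : c' * b' = 1 := Matrix.nonsing_inv_mul _ hb'.1
  have hcB : c ∈ Bru.borel K n := Bru.borel_inv hb
  have hcB' : c' ∈ Bru.borel K n := Bru.borel_inv hb'
  -- the inverse of `W`
  set V := Wᵀ with hVdef
  have hVW : V * W = 1 := by
    ext i j
    rw [Matrix.mul_apply]
    simp only [hVdef, hWdef, Bru.permMat, Matrix.transpose_apply, Matrix.of_apply, ite_mul,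
      one_mul, zero_mul, Finset.sum_ite_eq', Finset.mem_univ, if_true]
    rw [Matrix.one_apply]
    simp [EmbeddingLike.apply_eq_iff_eq]
  have hWV : W * V = 1 := mul_eq_one_comm.1 hVW
  have hWδ : W.map δ = 0 := by
    ext i j
    simp only [hWdef, Bru.permMat, Matrix.map_apply, Matrix.of_apply, Matrix.zero_apply]
    split_ifs <;> simp
  have hQ' : Q' = c' * V * c * Q := by
    have h1 : P' * (c' * V * c * Q) = 1 := by
      rw [hP']
      calc P * b * W * b' * (c' * V * c * Q) = P * (b * (W * ((b' * c') * (V * (c * Q))))) := by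
            simp only [Matrix.mul_assoc]
        _ = P * (b * ((W * V) * (c * Q))) := by rw [hbc', Matrix.one_mul]; simp only [Matrix.mul_assoc]
        _ = P * ((b * c) * Q) := by rw [hWV, Matrix.one_mul]; simp only [Matrix.mul_assoc]
        _ = 1 := by rw [hbc, Matrix.one_mul, h.pq]
    calc Q' = Q' * (P' * (c' * V * c * Q)) := by rw [h1, Matrix.mul_one]
      _ = (Q' * P') * (c' * V * c * Q) := by simp only [Matrix.mul_assoc]
      _ = _ := by rw [h'.qp, Matrix.one_mul]
  -- the derivative
  have hder : P'.map δ * Q' = P.map δ * Q + P * (b.map δ * c) * Q +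
      (P * b * W) * (b'.map δ * c') * (V * c * Q) := by
    have e1 : P'.map δ = P.map δ * (b * W * b') + P * b.map δ * (W * b') +
        (P * b * W) * b'.map δ := by
      rw [hP', map_mul_der, map_mul_der, map_mul_der, hWδ]
      simp only [Matrix.mul_zero, add_zero, Matrix.add_mul, Matrix.mul_assoc]
    have e2 : (b * W * b') * (c' * V * c * Q) = Q := by
      calc (b * W * b') * (c' * V * c * Q) = b * (W * ((b' * c') * (V * (c * Q)))) := by
            simp only [Matrix.mul_assoc]
        _ = b * ((W * V) * (c * Q)) := by rw [hbc', Matrix.one_mul]; simp only [Matrix.mul_assoc]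
        _ = (b * c) * Q := by rw [hWV, Matrix.one_mul]; simp only [Matrix.mul_assoc]
        _ = Q := by rw [hbc, Matrix.one_mul]
    have e3 : (W * b') * (c' * V * c * Q) = c * Q := by
      calc (W * b') * (c' * V * c * Q) = W * ((b' * c') * (V * (c * Q))) := by
            simp only [Matrix.mul_assoc]
        _ = (W * V) * (c * Q) := by rw [hbc', Matrix.one_mul]; simp only [Matrix.mul_assoc]
        _ = c * Q := by rw [hWV, Matrix.one_mul]
    rw [e1, hQ', Matrix.add_mul, Matrix.add_mul, Matrix.mul_assoc (P.map δ), e2,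
      Matrix.mul_assoc (P * b.map δ), e3]
    simp only [Matrix.mul_assoc]
  have hbδ : ∀ i j, j < i → (b.map δ * c) i j = 0 := by
    intro i j hij
    have h1 : BlockTriangular (b.map δ) id := fun i j h => by
      rw [Matrix.map_apply, hb.2 i j h, map_zero]
    have h2 : BlockTriangular c id := fun i j h => hcB.2 i j h
    exact (h1.mul h2) hij
  have hbδ' : ∀ i j, j < i → (b'.map δ * c') i j = 0 := by
    intro i j hij
    have h1 : BlockTriangular (b'.map δ) id := fun i j h => by
      rw [Matrix.map_apply, hb'.2 i j h, map_zero]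
    have h2 : BlockTriangular c' id := fun i j h => hcB'.2 i j h
    exact (h1.mul h2) hij
  have t1 : (x * (P * (b.map δ * c) * Q)).trace = 0 := by
    have : (x * (P * (b.map δ * c) * Q)).trace = ((Q * x * P) * (b.map δ * c)).trace := by
      rw [← Matrix.mul_assoc x, Matrix.trace_mul_comm]
      simp only [Matrix.mul_assoc]
    rw [this]
    exact trace_upper h.tri hbδ
  have t2 : (x * ((P * b * W) * (b'.map δ * c') * (V * c * Q))).trace = 0 := by
    have e : (x * ((P * b * W) * (b'.map δ * c') * (V * c * Q))).trace =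
        (((V * c * Q) * x * (P * b * W)) * (b'.map δ * c')).trace := by
      rw [← Matrix.mul_assoc x, Matrix.trace_mul_comm]
      simp only [Matrix.mul_assoc]
    have e2 : (V * c * Q) * x * (P * b * W) = b' * (Q' * x * P') * c' := by
      rw [hQ', hP']
      calc V * c * Q * x * (P * b * W) = (1 : Matrix (Fin n) (Fin n) K) * (V * c * Q * x * (P * b * W)) *
            (1 : Matrix (Fin n) (Fin n) K) := by
            rw [Matrix.one_mul, Matrix.mul_one]
        _ = b' * (c' * V * c * Q * x * (P * b * W * b')) * c' := by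
            rw [← hbc']; simp only [Matrix.mul_assoc]
    rw [e, e2]
    refine trace_upper ?_ hbδ'
    exact strict_mul_upper (upper_mul_strict hb'.2 h'.tri) hcB'.2
  rw [hder, Matrix.mul_add, Matrix.mul_add, Matrix.trace_add, Matrix.trace_add, t1, t2, add_zero,
    add_zero]

/-- the value of the form `lambda` at a nilpotent matrix -/
def Lam (x : Matrix (Fin n) (Fin n) K) (v : K) : Prop :=
  ∃ P Q : Matrix (Fin n) (Fin n) K, Tri x P Q ∧ v = (x * (P.map δ * Q)).trace

variable {δ}

theorem Lam.unique {x : Matrix (Fin n) (Fin n) K} {v v' : K} (h : Lam δ x v) (h' : Lam δ x v') :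
    v = v' := by
  obtain ⟨P, Q, h1, rfl⟩ := h
  obtain ⟨P', Q', h1', rfl⟩ := h'
  exact lam_unique δ h1 h1'

variable (δ)

theorem Lam.exists {x : Matrix (Fin n) (Fin n) K} (hx : IsNilpotent x) : ∃ v, Lam δ x v := by
  obtain ⟨P, Q, l, h⟩ := exists_adapted x hx
  exact ⟨_, P, Q, h.tri, rfl⟩

/-- block lower-free times strictly lowering has trace zero -/
theorem trace_level {A B : Matrix (Fin n) (Fin n) K} {l : Fin n → ℕ}
    (hA : ∀ i j, l j ≤ l i → A i j = 0) (hB : ∀ i j, l j < l i → B i j = 0) :
    (A * B).trace = 0 := by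
  simp only [Matrix.trace, Matrix.diag_apply, Matrix.mul_apply]
  refine Finset.sum_eq_zero fun i _ => Finset.sum_eq_zero fun j _ => ?_
  rcases le_or_gt (l j) (l i) with h | h
  · rw [hA i j h, zero_mul]
  · rw [hB j i h, mul_zero]

theorem trace_conj {P Q A B : Matrix (Fin n) (Fin n) K} (h : P * Q = 1) :
    (A * B).trace = ((Q * A * P) * (Q * B * P)).trace := by
  calc (A * B).trace = (A * (P * Q) * (B * (P * Q))).trace := by rw [h, Matrix.mul_one, Matrix.mul_one]
    _ = ((A * P * (Q * B * P)) * Q).trace := by simp only [Matrix.mul_assoc]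
    _ = (Q * (A * P * (Q * B * P))).trace := Matrix.trace_mul_comm _ _
    _ = _ := by simp only [Matrix.mul_assoc]

/-- If `δ x = [b, x]` then `lambda x (δ) = tr (x b)`. -/
theorem Lam.eq_trace {x b : Matrix (Fin n) (Fin n) K} (hx : IsNilpotent x)
    (hδ : x.map δ = b * x - x * b) {v : K} (hv : Lam δ x v) : v = (x * b).trace := by
  obtain ⟨P, Q, l, h⟩ := exists_adapted x hx
  rw [hv.unique ⟨P, Q, h.tri, rfl⟩]
  rw [← sub_eq_zero, ← Matrix.trace_sub, ← Matrix.mul_sub]
  have hD : ∀ (m : ℕ) (v : Fin n → K), (x ^ m) *ᵥ v = 0 →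
      (x ^ m) *ᵥ ((P.map δ * Q - b) *ᵥ v) = 0 := by
    intro m v hv
    set w := Q *ᵥ v with hw
    have hvw : v = P *ᵥ w := by rw [hw, Matrix.mulVec_mulVec, h.pq, Matrix.one_mulVec]
    have hw0 := (h.ker m v).1 hv
    -- `δ v = δP w + P δw`
    have e1 : (fun i => δ (v i)) = P.map δ *ᵥ w + P *ᵥ (fun i => δ (w i)) := by
      conv_lhs => rw [hvw]
      exact mulVec_der δ P w
    have e2 : (x ^ m) *ᵥ (P *ᵥ (fun i => δ (w i))) = 0 := by
      rw [h.ker]
      intro i hi
      rw [Matrix.mulVec_mulVec, h.qp, Matrix.one_mulVec]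
      change δ ((Q *ᵥ v) i) = 0
      rw [hw0 i hi, map_zero]
    have e3 : (x ^ m) *ᵥ ((fun i => δ (v i)) - b *ᵥ v) = 0 := by
      have h1 := mulVec_der δ (x ^ m) v
      rw [hv, pow_commutator_der δ hδ] at h1
      have h2 : (fun i => δ ((0 : Fin n → K) i)) = 0 := by ext i; simp
      rw [h2, Matrix.sub_mulVec, ← Matrix.mulVec_mulVec, ← Matrix.mulVec_mulVec, hv,
        Matrix.mulVec_zero, zero_sub] at h1
      rw [Matrix.mulVec_sub, sub_eq_add_neg, add_comm]
      exact h1.symm
    have e4 : (P.map δ * Q - b) *ᵥ v = ((fun i => δ (v i)) - b *ᵥ v) -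
        P *ᵥ (fun i => δ (w i)) := by
      rw [e1, Matrix.sub_mulVec, ← Matrix.mulVec_mulVec, ← hw]
      abel
    rw [e4, Matrix.mulVec_sub, e3, e2, sub_zero]
  rw [trace_conj h.pq]
  exact trace_level (fun i j hij => h.strict hij) (fun i j hij => h.block hD hij)

/-- If `c` commutes with the nilpotent `x` then `tr (δ x c) = 0`. -/
theorem trace_der_mul {x c : Matrix (Fin n) (Fin n) K} (hx : IsNilpotent x)
    (hc : x * c = c * x) : (x.map δ * c).trace = 0 := by
  obtain ⟨P, Q, l, h⟩ := exists_adapted x hx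
  set u := Q * x * P with hu
  have hxu : x = P * u * Q := by
    rw [hu]
    calc x = (P * Q) * x * (P * Q) := by rw [h.pq, Matrix.one_mul, Matrix.mul_one]
      _ = _ := by simp only [Matrix.mul_assoc]
  set A := P.map δ * Q with hA
  have e : x.map δ = P * u.map δ * Q + (A * x - x * A) := by
    have hPA : P.map δ = A * P := by
      rw [hA, Matrix.mul_assoc, h.qp, Matrix.mul_one]
    have hQA : Q.map δ = - (Q * A) := by
      rw [inv_der δ h.pq h.qp, hA, Matrix.mul_assoc]
    conv_lhs => rw [hxu]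
    rw [map_mul_der, map_mul_der, hPA, hQA]
    have h2 : x * A = P * u * Q * A := by rw [← hxu]
    have h3 : A * x = A * P * u * Q := by
      conv_lhs => rw [hxu]
      simp only [Matrix.mul_assoc]
    rw [h2, h3]
    simp only [Matrix.add_mul, Matrix.mul_neg, Matrix.mul_assoc]
    abel
  have t1 : ((A * x - x * A) * c).trace = 0 := by
    have e0 : (x * A * c).trace = (A * (c * x)).trace := by
      rw [Matrix.mul_assoc, Matrix.trace_mul_comm, Matrix.mul_assoc]
    rw [Matrix.sub_mul, Matrix.trace_sub, e0, ← hc, ← Matrix.mul_assoc, sub_self]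
  rw [e, Matrix.add_mul, Matrix.trace_add, t1, add_zero, trace_conj h.pq]
  have e5 : Q * (P * u.map δ * Q) * P = u.map δ := by
    calc Q * (P * u.map δ * Q) * P = (Q * P) * u.map δ * (Q * P) := by simp only [Matrix.mul_assoc]
      _ = _ := by rw [h.qp, Matrix.one_mul, Matrix.mul_one]
  rw [e5]
  refine trace_level (l := l) (fun i j hij => ?_) (fun i j hij => ?_)
  · have h1 : u i j = 0 := h.strict hij
    rw [Matrix.map_apply, h1, map_zero]
  · refine h.block (D := c) (fun m v hv => ?_) hij
    have hcm : x ^ m * c = c * x ^ m := (Commute.pow_left (show Commute x c from hc) m).eq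
    rw [Matrix.mulVec_mulVec, hcm, ← Matrix.mulVec_mulVec, hv, Matrix.mulVec_zero]

end der

end Pool.Agent.TH28.FL
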