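import Pool.Agent.TH28.FL.Pt
import Pool.Agent.TH989.J1109
import Pool.Agent.TH89.J1107
import Pool.Agent.TH113.J1108
import Pool.Agent.TH228.J1111

/-! The regular sequence, assuming `P4` for the images of `h` and `r`. -/

set_option autoImplicit false

universe u v

namespace Pool.Agent.TH28.FL

open Module Matrix MvPolynomial

section

variable {k : Type u} [Field k] [CharZero k] {g s : Type v} [LieRing g] [LieAlgebra k g] [LieRing s]
  [LieAlgebra k s] {N d : ℕ} (b : Basis (Fin N) k g) (e : Basis (Fin d) k s)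
  [FiniteDimensional k s] [LieAlgebra.IsKilling k s]
  (ι : s →ₗ⁅k⁆ g) (π : g →ₗ⁅k⁆ s)
  (hπι : ∀ v, π (ι v) = v) (hz : ∀ x y : g, ⁅x - ι (π x), y⁆ = 0)
  (h r : LieSubalgebra k g) (hc : IsCompl h.toSubmodule r.toSubmodule)

omit [CharZero k] in
theorem constCoeff_lin (v : g) : constantCoeff (lin b v) = 0 := by
  rw [TH228.FL.lin_eq, map_sum]
  refine Finset.sum_eq_zero fun i _ => ?_
  rw [map_mul, constantCoeff_X, mul_zero]

omit [CharZero k] in
theorem prh_add_prr (v : g) : prh h r hc v + prr h r hc v = v := by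
  unfold prh prr
  exact Submodule.projection_add_projection_eq_self hc v

omit [CharZero k] in
theorem prh_of_mem_r {v : g} (hv : v ∈ r) : prh h r hc v = 0 :=
  Submodule.projection_apply_of_mem_right hc hv

omit [CharZero k] in
theorem prr_of_mem_h {v : g} (hv : v ∈ h) : prr h r hc v = 0 :=
  Submodule.projection_apply_of_mem_right hc.symm hv

/-- the substitution map `σ_t` on linear forms -/
noncomputable def sig (t : k) : MvPolynomial (Fin N) k →ₐ[k] MvPolynomial (Fin N) k :=
  aeval (fun i => lin b (prh h r hc (b i) + t⁻¹ • prr h r hc (b i)))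

omit [CharZero k] in
theorem sig_lin (t : k) (v : g) :
    sig b h r hc t (lin b v) = lin b (prh h r hc v + t⁻¹ • prr h r hc v) := by
  have h1 : (sig b h r hc t).toLinearMap ∘ₗ lin b =
      lin b ∘ₗ (prh h r hc + t⁻¹ • prr h r hc) := by
    apply b.ext
    intro i
    rw [LinearMap.comp_apply, lin_b, AlgHom.toLinearMap_apply, sig, aeval_X]
    rfl
  exact LinearMap.congr_fun h1 v

omit [CharZero k] in
theorem constCoeff_sig (t : k) (F : MvPolynomial (Fin N) k) :
    constantCoeff (sig b h r hc t F) = constantCoeff F := by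
  unfold sig
  induction F using MvPolynomial.induction_on with
  | C a => rw [algHom_C, algebraMap_eq]
  | add p q hp hq => rw [map_add, map_add, hp, hq, map_add]
  | mul_X p i hp => rw [map_mul, aeval_X, map_mul, constCoeff_lin, map_mul, constantCoeff_X,
      mul_zero, mul_zero]

omit [CharZero k] in
theorem constCoeff_trace (j : ℕ) (hj : 1 ≤ j) :
    constantCoeff ((genM b e ι ^ j).trace) = 0 := by
  let φ : MvPolynomial (Fin N) k →ₐ[k] k := aeval (fun _ => (0 : k))
  have hφ : ∀ p, φ p = constantCoeff p := by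
    intro p
    have := MvPolynomial.aeval_zero' (R := k) (S₁ := k) p
    exact this
  rw [← hφ]
  have h1 : (genM b e ι).map φ = 0 := by
    unfold genM
    rw [mat_map]
    have h2 : φ.toLinearMap ∘ₗ lin b = 0 := by
      apply LinearMap.ext
      intro v
      rw [LinearMap.comp_apply, AlgHom.toLinearMap_apply, hφ, constCoeff_lin]
      rfl
    rw [h2]
    unfold mat
    refine Finset.sum_eq_zero fun i _ => ?_
    rw [LinearMap.zero_apply, zero_smul]
  have h3 : φ ((genM b e ι ^ j).trace) = ((genM b e ι).map φ ^ j).trace := by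
    have h4 : (genM b e ι ^ j).map φ = (genM b e ι).map φ ^ j :=
      map_pow (φ : MvPolynomial (Fin N) k →+* k).mapMatrix _ _
    rw [← h4, Matrix.trace, Matrix.trace, map_sum]
    rfl
  rw [h3, h1, zero_pow (by omega), Matrix.trace_zero]

section point

variable (K : Type u) [Field K] [Algebra k K] (x : Fin N → K)

omit [CharZero k] in
theorem aeval_sig (t : k) (F : MvPolynomial (Fin N) k) :
    aeval x (sig b h r hc t F) =
      aeval (fun i => pt b K x (prh h r hc (b i) + t⁻¹ • prr h r hc (b i))) F := by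
  unfold sig
  rw [← AlgHom.comp_apply]
  congr 1
  apply MvPolynomial.algHom_ext
  intro i
  rw [AlgHom.comp_apply, aeval_X, aeval_X]
  rfl

/-- the linear map `ξ_t` -/
noncomputable def ptt (t : k) : g →ₗ[k] K :=
  (pt b K x) ∘ₗ prh h r hc + (t⁻¹) • ((pt b K x) ∘ₗ prr h r hc)

omit [CharZero k] in
theorem aeval_ptt (t : k) (v : g) :
    aeval (fun i => pt b K x (prh h r hc (b i) + t⁻¹ • prr h r hc (b i))) (lin b v) =
      ptt b h r hc K x t v := by
  have h1 : (aeval (fun i => pt b K x (prh h r hc (b i) + t⁻¹ • prr h r hc (b i))) :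
      MvPolynomial (Fin N) k →ₐ[k] K).toLinearMap ∘ₗ lin b = ptt b h r hc K x t := by
    apply b.ext
    intro i
    rw [LinearMap.comp_apply, lin_b, AlgHom.toLinearMap_apply, aeval_X]
    unfold ptt
    rw [map_add, map_smul]
    rfl
  exact LinearMap.congr_fun h1 v

include hz in
theorem ptt_trace (hx : ∀ F ∈ Zalg h r hc b, constantCoeff F = 0 → aeval x F = 0)
    (t : k) (ht : t ≠ 0) (j : ℕ) (hj : 1 ≤ j) :
    ((mat e ι K (ptt b h r hc K x t)) ^ j).trace = 0 := by
  have h1 : sig b h r hc t ((genM b e ι ^ j).trace) ∈ Zalg h r hc b := by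
    apply Algebra.subset_adjoin
    refine ⟨some t, TH989.J1109.ind' k g N b h r hc t ht, ?_⟩
    exact TH228.FL.iso k g N b h r hc t ht _ (pbr_trace b e ι π hz j)
  have h2 := hx _ h1 (by rw [constCoeff_sig, constCoeff_trace b e ι j hj])
  rw [aeval_sig] at h2
  set φ : MvPolynomial (Fin N) k →ₐ[k] K :=
    aeval (fun i => pt b K x (prh h r hc (b i) + t⁻¹ • prr h r hc (b i))) with hφ
  have h3 : φ ((genM b e ι ^ j).trace) = ((genM b e ι).map φ ^ j).trace := by
    have h4 : (genM b e ι ^ j).map φ = (genM b e ι).map φ ^ j :=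
      map_pow (φ : MvPolynomial (Fin N) k →+* K).mapMatrix _ _
    rw [← h4, Matrix.trace, Matrix.trace, map_sum]
    rfl
  rw [h3] at h2
  unfold genM at h2
  rw [mat_map] at h2
  have h5 : φ.toLinearMap ∘ₗ lin b = ptt b h r hc K x t := by
    apply LinearMap.ext
    intro v
    exact aeval_ptt b h r hc K x t v
  rwa [h5] at h2

theorem ptt_centre (hx : ∀ F ∈ Zalg h r hc b, constantCoeff F = 0 → aeval x F = 0)
    (t : k) (ht : t ≠ 0) {c : g} (hcc : ∀ y : g, ⁅c, y⁆ = 0) : ptt b h r hc K x t c = 0 := by
  have h1 : sig b h r hc t (lin b c) ∈ Zalg h r hc b := by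
    apply Algebra.subset_adjoin
    refine ⟨some t, TH989.J1109.ind' k g N b h r hc t ht, ?_⟩
    exact TH228.FL.iso k g N b h r hc t ht _ (pbr_centre b hcc)
  have h2 := hx _ h1 (by rw [constCoeff_sig, constCoeff_lin])
  rw [aeval_sig, aeval_ptt] at h2
  exact h2

theorem centre_hr (hx : ∀ F ∈ Zalg h r hc b, constantCoeff F = 0 → aeval x F = 0)
    {c : g} (hcc : ∀ y : g, ⁅c, y⁆ = 0) :
    pt b K x (prh h r hc c) = 0 ∧ pt b K x (prr h r hc c) = 0 := by
  have h1 := ptt_centre b h r hc K x hx 1 one_ne_zero hcc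
  have h2 := ptt_centre b h r hc K x hx (-1) (neg_ne_zero.2 one_ne_zero) hcc
  unfold ptt at h1 h2
  simp only [LinearMap.add_apply, LinearMap.smul_apply, LinearMap.comp_apply, inv_one, one_smul,
    inv_neg, neg_smul] at h1 h2
  have : CharZero K := charZero_of_injective_algebraMap (algebraMap k K).injective
  constructor
  · have h3 : (2 : K) * pt b K x (prh h r hc c) = 0 := by linear_combination h1 + h2
    exact (mul_eq_zero.1 h3).resolve_left two_ne_zero
  · have h3 : (2 : K) * pt b K x (prr h r hc c) = 0 := by linear_combination h1 - h2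
    exact (mul_eq_zero.1 h3).resolve_left two_ne_zero

include hz in
/-- the dimension estimate at a point of the zero fibre -/
theorem fibre_estimate
    (hr4 : P4 e (r.toSubmodule.map (π : g →ₗ[k] s)))
    (hh4 : P4 e (h.toSubmodule.map (π : g →ₗ[k] s)))
    (hx : ∀ F ∈ Zalg h r hc b, constantCoeff F = 0 → aeval x F = 0) :
    2 * finrank K (derSpace k x) + ind (lieB k g) ≤ N := by
  have hK : CharZero K := charZero_of_injective_algebraMap (algebraMap k K).injective
  set y := mat e ι K ((pt b K x) ∘ₗ prh h r hc) with hy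
  set z := mat e ι K ((pt b K x) ∘ₗ prr h r hc) with hz'
  have hm : ∀ ξ : g →ₗ[k] K, mat e ι K ξ ∈ aK e K := by
    intro ξ
    unfold mat
    exact (aK e K).sum_mem fun i _ => (aK e K).smul_mem _ (adR_mem e K _)
  have hnil : ∀ t : k, t ≠ 0 → IsNilpotent (y + algebraMap k K t • z) := by
    intro t ht
    apply mat_nilpotent_of_trace
    intro j hj
    have h1 := ptt_trace b e ι π hz h r hc K x hx t⁻¹ (inv_ne_zero ht) j hj
    unfold ptt at h1
    rw [inv_inv] at h1
    have h2 : t • ((pt b K x) ∘ₗ prr h r hc) =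
        algebraMap k K t • ((pt b K x) ∘ₗ prr h r hc) := by
      ext v
      rw [LinearMap.smul_apply, LinearMap.smul_apply, algebraMap_smul]
    rw [h2, mat_add, mat_smul] at h1
    exact h1
  have hyn : IsNilpotent y := nil_zero hnil
  have hzn : IsNilpotent z := nil_zero (nil_symm hnil)
  have hcc : ∀ v : g, ∀ w : g, ⁅v - ι (π v), w⁆ = 0 := hz
  have hyr : ∀ v ∈ r.toSubmodule.map (π : g →ₗ[k] s), (y * adR e K v).trace = 0 := by
    rintro v ⟨w, hw, rfl⟩
    rw [hy, mat_trace]
    have h1 := (centre_hr b h r hc K x hx (hcc w)).1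
    have h2 : prh h r hc w = 0 := prh_of_mem_r h r hc hw
    rw [map_sub, h2, zero_sub, map_neg, neg_eq_zero] at h1
    exact h1
  have hzh : ∀ v ∈ h.toSubmodule.map (π : g →ₗ[k] s), (z * adR e K v).trace = 0 := by
    rintro v ⟨w, hw, rfl⟩
    rw [hz', mat_trace]
    have h1 := (centre_hr b h r hc K x hx (hcc w)).2
    have h2 : prr h r hc w = 0 := prr_of_mem_h h r hc hw
    rw [map_sub, h2, zero_sub, map_neg, neg_eq_zero] at h1
    exact h1
  have hsum : mat e ι K (pt b K x) = y + z := by
    rw [hy, hz', ← mat_add]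
    congr 1
    apply LinearMap.ext
    intro v
    rw [LinearMap.add_apply, LinearMap.comp_apply, LinearMap.comp_apply, ← map_add, prh_add_prr]
  have hXn : IsNilpotent (mat e ι K (pt b K x)) := by
    have := hnil 1 one_ne_zero
    rwa [map_one, one_smul, ← hsum] at this
  have hlam : ∀ δ : Derivation k K K, Lam δ (mat e ι K (pt b K x)) 0 := by
    intro δ
    have l1 := hr4 K δ y (hm _) hyr hyn
    have l2 := hh4 K δ z (hm _) hzh hzn
    obtain ⟨v, hv⟩ := Lam.exists δ hXn
    have h3 := lam_add (k := k) δ hnil l1 l2 (hsum ▸ hv)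
    rw [add_zero] at h3
    rwa [h3] at hv
  have hcen : ∀ v : g, pt b K x (v - ι (π v)) = 0 := by
    intro v
    have h1 := centre_hr b h r hc K x hx (hcc v)
    rw [← prh_add_prr h r hc (v - ι (π v)), map_add, h1.1, h1.2, add_zero]
  have h1 := point_estimate b e ι π hz K x hcen hXn hlam
  have h2 := TH989.J1109.rk k K g N b (lieB k g) x
  omega

end point

include hz in
/-- The main theorem of the first stage. -/
theorem main_of_P4 (hPC : S_PC.{u,v}) 
    (hr4 : P4 e (r.toSubmodule.map (π : g →ₗ[k] s)))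
    (hh4 : P4 e (h.toSubmodule.map (π : g →ₗ[k] s)))
    (m : ℕ) (f : Fin m → MvPolynomial (Fin N) k)
    (hhom : ∀ i, ∃ n, (f i).IsHomogeneous n) (hai : AlgebraicIndependent k f)
    (hgen : Algebra.adjoin k (Set.range f) = Zalg h r hc b) :
    RingTheory.Sequence.IsRegular (MvPolynomial (Fin N) k) (List.ofFn f) := by
  -- positive degrees
  have hpos : ∀ i, ∃ n, 0 < n ∧ (f i).IsHomogeneous n := by
    intro i
    obtain ⟨n, hn⟩ := hhom i
    rcases Nat.eq_zero_or_pos n with rfl | h0
    · exfalso
      have h1 := hai.transcendental i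
      apply h1
      have h2 : f i = C (coeff 0 (f i)) := by
        have := (MvPolynomial.totalDegree_eq_zero_iff_eq_C (p := f i)).1
          (Nat.le_zero.1 hn.totalDegree_le)
        exact this
      rw [h2]
      exact isAlgebraic_algebraMap _
    · exact ⟨n, h0, hn⟩
  have hcc : ∀ i, constantCoeff (f i) = 0 := by
    intro i
    obtain ⟨n, h0, hn⟩ := hpos i
    rw [constantCoeff_eq]
    by_contra hne
    have := hn hne
    simp at this
    omega
  refine TH89.J1107.reg k N m f hpos ?_
  intro P hP hfP
  have : P.IsPrime := hP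
  set R := MvPolynomial (Fin N) k ⧸ P with hR
  set K := FractionRing R with hK
  set x : Fin N → K := fun i => algebraMap R K (Ideal.Quotient.mk P (X i)) with hxdef
  have haev : ∀ F : MvPolynomial (Fin N) k, aeval x F = algebraMap R K (Ideal.Quotient.mk P F) := by
    intro F
    have : (aeval x : MvPolynomial (Fin N) k →ₐ[k] K) =
        (IsScalarTower.toAlgHom k R K).comp (Ideal.Quotient.mkₐ k P) := by
      apply MvPolynomial.algHom_ext
      intro i
      rw [aeval_X]
      rfl
    rw [this]
    rfl
  have hx : ∀ F ∈ Zalg h r hc b, constantCoeff F = 0 → aeval x F = 0 := by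
    intro F hF
    rw [← hgen, Algebra.adjoin_range_eq_range_aeval] at hF
    obtain ⟨p, hp⟩ := hF
    have hp' : aeval f p = F := hp
    have h1 : ∀ p : MvPolynomial (Fin m) k, constantCoeff (aeval f p) = constantCoeff p := by
      intro p
      induction p using MvPolynomial.induction_on with
      | C a => rw [algHom_C, algebraMap_eq, constantCoeff_C, constantCoeff_C]
      | add p q hp hq => rw [map_add, map_add, hp, hq, map_add]
      | mul_X p i hp => rw [map_mul, aeval_X, map_mul, hcc, map_mul, constantCoeff_X,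
          mul_zero, mul_zero]
    have h2 : ∀ p : MvPolynomial (Fin m) k,
        aeval x (aeval f p) = algebraMap k K (constantCoeff p) := by
      intro p
      induction p using MvPolynomial.induction_on with
      | C a => rw [algHom_C, algebraMap_eq, algHom_C, constantCoeff_C]
      | add p q hp hq => rw [map_add, map_add, hp, hq, map_add, map_add]
      | mul_X p i hp =>
        have h3 : aeval x (f i) = 0 := by
          rw [haev, Ideal.Quotient.eq_zero_iff_mem.2 (hfP i), map_zero]
        rw [map_mul, aeval_X, map_mul, h3, mul_zero, map_mul, constantCoeff_X, mul_zero, map_zero]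
    intro hF0
    rw [← hp', h1] at hF0
    rw [← hp', h2, hF0, map_zero]
  have h1 := fibre_estimate b e ι π hz h r hc K x hr4 hh4 hx
  have h2 := TH113.TRD.trd k N P
  have h3 := hPC k g N b h r hc m f (fun i => by
    rw [← hgen]; exact Algebra.subset_adjoin ⟨i, rfl⟩) hai
  have h4 : finrank K (derSpace k x) + m ≤ N := by omega
  calc Algebra.trdeg k R + m ≤ (finrank K (derSpace k x) : Cardinal) + m := by gcongr
    _ = ((finrank K (derSpace k x) + m : ℕ) : Cardinal) := by push_cast; rfl
    _ ≤ N := by exact_mod_cast h4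

end

end Pool.Agent.TH28.FL
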