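import Mathlib

/-! Bases adapted to a nilpotent endomorphism over a principal ideal domain. -/

set_option autoImplicit false

namespace Pool.Agent.TH28.FL

open Module Matrix

section modules

variable {R : Type*} [CommRing R] [IsDomain R] [IsPrincipalIdealRing R]

theorem exists_basis_nil (N : ℕ) :
    ∀ (M : Type*) [AddCommGroup M] [Module R M] [Module.Finite R M] [IsTorsionFree R M]
      (X : M →ₗ[R] M), X ^ N = 0 →
      ∃ (ι : Type) (_ : Fintype ι) (b : Basis ι R M) (l : ι → ℕ),
        ∀ (m : ℕ) (v : M), (X ^ m) v = 0 ↔ ∀ i, m ≤ l i → b.repr v i = 0 := by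
  induction N with
  | zero =>
    intro M _ _ _ _ X hX
    have h0 : ∀ v : M, v = 0 := by
      intro v
      have := LinearMap.congr_fun hX v
      simpa using this
    have : Subsingleton M := ⟨fun a b => by rw [h0 a, h0 b]⟩
    exact ⟨Empty, inferInstance, Basis.empty M, fun _ => 0, fun m v => by simp [h0 v]⟩
  | succ N ih =>
    intro M _ _ _ _ X hX
    -- the restriction to the range
    set W := LinearMap.range X with hW
    have hXW : ∀ w ∈ W, X w ∈ W := fun w _ => LinearMap.mem_range_self X w
    set Y : W →ₗ[R] W := X.restrict hXW with hY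
    have hYp : ∀ (m : ℕ) (w : W), (((Y ^ m) w : W) : M) = (X ^ m) (w : M) := by
      intro m
      induction m with
      | zero => intro w; simp
      | succ m ihm =>
        intro w
        rw [pow_succ', pow_succ', Module.End.mul_apply, Module.End.mul_apply, ← ihm]
        rfl
    have hYN : Y ^ N = 0 := by
      ext w
      obtain ⟨v, hv⟩ := w.2
      rw [hYp, ← hv, ← Module.End.mul_apply, ← pow_succ, hX]
      simp
    obtain ⟨ι, hι, c, l, hc⟩ := ih W Y hYN
    let bK := Module.Free.chooseBasis R (LinearMap.ker X)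
    have hfin : Fintype (Module.Free.ChooseBasisIndex R (LinearMap.ker X)) := inferInstance
    let e := (Fintype.equivFin (Module.Free.ChooseBasisIndex R (LinearMap.ker X)))
    let bK' := bK.reindex e
    let bQ : Basis ι R (M ⧸ LinearMap.ker X) := c.map X.quotKerEquivRange.symm
    refine ⟨_ ⊕ ι, inferInstance, Basis.sumQuot bK' bQ, Sum.elim (fun _ => 0) (fun i => l i + 1),
      ?_⟩
    have hinr : ∀ (v : M) (j : ι), (Basis.sumQuot bK' bQ).repr v (Sum.inr j) =
        c.repr ⟨X v, LinearMap.mem_range_self X v⟩ j := by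
      intro v j
      rw [Basis.sumQuot_repr_inr]
      rfl
    intro m v
    cases m with
    | zero =>
      simp only [pow_zero, Module.End.one_apply, zero_le, forall_true_left]
      rw [← (Basis.sumQuot bK' bQ).repr.map_eq_zero_iff, Finsupp.ext_iff]
      rfl
    | succ m =>
      have h1 : (X ^ (m + 1)) v = 0 ↔
          (Y ^ m) ⟨X v, LinearMap.mem_range_self X v⟩ = 0 := by
        rw [pow_succ, Module.End.mul_apply, ← Subtype.coe_inj, hYp]
        rfl
      rw [h1, hc]
      constructor
      · rintro h (i | i) hi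
        · simp at hi
        · rw [hinr]
          exact h i (by simpa using hi)
      · intro h i hi
        rw [← hinr]
        exact h (Sum.inr i) (by simpa using hi)

end modules

section matrices

variable {R : Type*} [CommRing R] [IsDomain R] [IsPrincipalIdealRing R] {n : ℕ}

/-- an adapted basis in matrix form: the columns `j` of `P` with `l j < m` span `ker X ^ m` -/
structure Adapted (X P Q : Matrix (Fin n) (Fin n) R) (l : Fin n → ℕ) : Prop where
  pq : P * Q = 1
  qp : Q * P = 1
  mono : Monotone l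
  ker : ∀ (m : ℕ) (v : Fin n → R), (X ^ m) *ᵥ v = 0 ↔ ∀ i, m ≤ l i → (Q *ᵥ v) i = 0

theorem exists_adapted (X : Matrix (Fin n) (Fin n) R) (hX : IsNilpotent X) :
    ∃ (P Q : Matrix (Fin n) (Fin n) R) (l : Fin n → ℕ), Adapted X P Q l := by
  classical
  obtain ⟨N, hN⟩ := hX
  set T : (Fin n → R) →ₗ[R] (Fin n → R) := Matrix.toLin' X with hT
  have hTN : T ^ N = 0 := by
    rw [hT, ← Matrix.toLin'_pow, hN, map_zero]
  obtain ⟨ι, hι, b, l, hb⟩ := exists_basis_nil N (Fin n → R) T hTN
  have hcard : Fintype.card ι = n := by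
    have h1 := Module.finrank_eq_card_basis b
    rw [Module.finrank_fin_fun] at h1
    exact h1.symm
  let e0 : Fin n ≃ ι := (Fintype.equivFinOfCardEq hcard).symm
  let e : Fin n ≃ ι := (Tuple.sort (l ∘ e0)).trans e0
  have hmono : Monotone (l ∘ e) := Tuple.monotone_sort (l ∘ e0)
  let c : Basis (Fin n) R (Fin n → R) := b.reindex e.symm
  have hc : ∀ v i, c.repr v i = b.repr v (e i) := by
    intro v i
    rw [Basis.repr_reindex_apply, Equiv.symm_symm]
  let P : Matrix (Fin n) (Fin n) R := (Pi.basisFun R (Fin n)).toMatrix c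
  let Q : Matrix (Fin n) (Fin n) R := c.toMatrix (Pi.basisFun R (Fin n))
  refine ⟨P, Q, l ∘ e, ?_, ?_, hmono, ?_⟩
  · exact Basis.toMatrix_mul_toMatrix_flip _ _
  · exact Basis.toMatrix_mul_toMatrix_flip _ _
  · intro m v
    have h1 : (X ^ m) *ᵥ v = (T ^ m) v := by
      rw [hT, ← Matrix.toLin'_pow, Matrix.toLin'_apply]
    have h2 : ∀ i, (Q *ᵥ v) i = c.repr v i := by
      intro i
      have := Basis.toMatrix_mulVec_repr (Pi.basisFun R (Fin n)) c v
      rw [← this]
      rfl
    rw [h1, hb]
    constructor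
    · intro h i hi
      rw [h2, hc]
      exact h _ hi
    · intro h i hi
      have := h (e.symm i) (by simpa using hi)
      rw [h2, hc, Equiv.apply_symm_apply] at this
      exact this

variable {X P Q : Matrix (Fin n) (Fin n) R} {l : Fin n → ℕ}

theorem Adapted.col (h : Adapted X P Q l) (j : Fin n) (m : ℕ) (hm : l j < m) :
    (X ^ m) *ᵥ (fun i => P i j) = 0 := by
  rw [h.ker]
  intro i hi
  have h1 : (Q *ᵥ fun i => P i j) i = (Q * P) i j := rfl
  rw [h1, h.qp, Matrix.one_apply_ne]
  rintro rfl
  omega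

/-- a matrix preserving all kernels is block triangular in the adapted basis -/
theorem Adapted.block (h : Adapted X P Q l) {D : Matrix (Fin n) (Fin n) R}
    (hD : ∀ (m : ℕ) (v : Fin n → R), (X ^ m) *ᵥ v = 0 → (X ^ m) *ᵥ (D *ᵥ v) = 0)
    {i j : Fin n} (hij : l j < l i) : (Q * D * P) i j = 0 := by
  have h1 := hD _ _ (h.col j (l i) hij)
  rw [h.ker] at h1
  have h2 := h1 i le_rfl
  rw [Matrix.mulVec_mulVec] at h2
  exact h2

theorem Adapted.strict (h : Adapted X P Q l) {i j : Fin n} (hij : l j ≤ l i) :
    (Q * X * P) i j = 0 := by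
  have h1 : (X ^ (l j)) *ᵥ (X *ᵥ (fun i => P i j)) = 0 := by
    rw [Matrix.mulVec_mulVec, ← pow_succ]
    exact h.col j _ (Nat.lt_succ_self _)
  rw [h.ker] at h1
  have h2 := h1 i hij
  rw [Matrix.mulVec_mulVec] at h2
  exact h2

theorem Adapted.triangular (h : Adapted X P Q l) {i j : Fin n} (hij : j ≤ i) :
    (Q * X * P) i j = 0 := h.strict (h.mono hij)

end matrices

end Pool.Agent.TH28.FL
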