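import Pool.Agent.TH28.FL.AK
import Pool.Agent.TH623.SA.Nil

/-! The estimate at a point. -/

set_option autoImplicit false

universe u v

namespace Pool.Agent.TH28.FL

open Module Matrix MvPolynomial

theorem mat_nilpotent_of_trace {K : Type*} [Field K] [CharZero K] {n : ℕ}
    (X : Matrix (Fin n) (Fin n) K) (h : ∀ m : ℕ, 1 ≤ m → (X ^ m).trace = 0) : IsNilpotent X := by
  have h1 : IsNilpotent (Matrix.toLin' X) := by
    apply TH623.SA.isNilpotent_of_trace
    intro m hm
    rw [← Matrix.toLin'_pow, Matrix.trace_toLin'_eq]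
    exact h m hm
  obtain ⟨m, hm⟩ := h1
  refine ⟨m, ?_⟩
  rw [← Matrix.toLin'_pow] at hm
  exact (LinearEquiv.map_eq_zero_iff _).1 hm

section

variable {k K : Type*} [Field k] [Field K] [Algebra k K] {n : ℕ}

theorem nil_zero [Infinite k] {y z : Matrix (Fin n) (Fin n) K}
    (hnil : ∀ s : k, s ≠ 0 → IsNilpotent (y + algebraMap k K s • z)) : IsNilpotent y := by
  set Y : Matrix (Fin n) (Fin n) (Polynomial K) :=
    Matrix.of fun i j => Polynomial.C (y i j) + Polynomial.X * Polynomial.C (z i j) with hY
  have eY : ∀ c : K, ev c Y = y + c • z := by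
    intro c; ext i j
    simp [ev_apply, hY]
    exact mul_comm _ _
  have hYn : IsNilpotent Y := nil_of_points (k := k) Y fun c hc => by
    rw [eY]; exact hnil c hc
  obtain ⟨m, hm⟩ := hYn
  refine ⟨m, ?_⟩
  have h1 : ev 0 (Y ^ m) = (ev 0 Y) ^ m := map_pow _ _ _
  rw [hm, eY, zero_smul, add_zero] at h1
  rw [← h1]
  exact map_zero _

theorem nil_symm {y z : Matrix (Fin n) (Fin n) K}
    (hnil : ∀ s : k, s ≠ 0 → IsNilpotent (y + algebraMap k K s • z)) :
    ∀ s : k, s ≠ 0 → IsNilpotent (z + algebraMap k K s • y) := by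
  intro c hc
  have hc0 : algebraMap k K c ≠ 0 := by rw [Ne, map_eq_zero]; exact hc
  have h1 : z + algebraMap k K c • y = algebraMap k K c • (y + algebraMap k K c⁻¹ • z) := by
    rw [smul_add, smul_smul, map_inv₀, mul_inv_cancel₀ hc0, one_smul, add_comm]
  rw [h1]
  obtain ⟨m, hm⟩ := hnil c⁻¹ (inv_ne_zero hc)
  exact ⟨m, by rw [_root_.smul_pow, hm, smul_zero]⟩

end

section

variable {k : Type u} [Field k] [CharZero k] {g s : Type v} [LieRing g] [LieAlgebra k g] [LieRing s]
  [LieAlgebra k s] {N d : ℕ} (b : Basis (Fin N) k g) (e : Basis (Fin d) k s)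
  [FiniteDimensional k s] [LieAlgebra.IsKilling k s]
  (ι : s →ₗ⁅k⁆ g) (π : g →ₗ⁅k⁆ s)
  (hπι : ∀ v, π (ι v) = v) (hz : ∀ x y : g, ⁅x - ι (π x), y⁆ = 0)
  (h r : LieSubalgebra k g) (hc : IsCompl h.toSubmodule r.toSubmodule)
  (K : Type u) [Field K] [Algebra k K] (x : Fin N → K)

/-- the linear map attached to a point -/
noncomputable def pt : g →ₗ[k] K := (aeval x : MvPolynomial (Fin N) k →ₐ[k] K).toLinearMap ∘ₗ lin b

theorem pt_apply (v : g) : pt b K x v = aeval x (lin b v) := rfl

include hz in
/-- the infinitesimal estimate -/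
theorem point_estimate
    (hcen : ∀ v : g, pt b K x (v - ι (π v)) = 0)
    (hnil : IsNilpotent (mat e ι K (pt b K x)))
    (hlam : ∀ δ : Derivation k K K, Lam δ (mat e ι K (pt b K x)) 0) :
    2 * finrank K (derSpace k x) ≤ (fmat b (lieB k g) x).rank := by
  set ξ := pt b K x with hξ
  set X := mat e ι K ξ with hX
  have hXm : X ∈ aK e K := by
    rw [hX]; unfold mat
    exact (aK e K).sum_mem fun i _ => (aK e K).smul_mem _ (adR_mem e K _)
  have hmt : ∀ v, (X * adR e K v).trace = ξ (ι v) := fun v => mat_trace e ι K ξ v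
  -- the commutator form of a derivation
  have hcomm : ∀ δ : Derivation k K K, ∃ B ∈ aK e K, X.map δ = B * X - X * B := by
    intro δ
    refine exists_commutator (aK e K) (aK_br e K) (aK_nd e K) X hXm _ (aK_der e K δ X hXm) ?_
    intro c _ hcX
    exact trace_der_mul δ hnil hcX
  have hiso := isotropic (aK e K) (aK_br e K) (aK_der e K) X (fun δ B _ hBX => by
    rw [← Lam.eq_trace δ hnil hBX (hlam δ)])
  have hder : ∀ (δ : Derivation k K K) (v : s), δ (ξ (ι v)) = (X.map δ * adR e K v).trace := by
    intro δ v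
    rw [← hmt, ← trace_map_der, map_mul_der, adR_der, Matrix.mul_zero, add_zero]
  have hξc : ∀ v, ξ v = ξ (ι (π v)) := by
    intro v
    have := hcen v
    rw [map_sub, sub_eq_zero] at this
    exact this
  have hxi : ∀ i, x i = ξ (b i) := by
    intro i
    rw [hξ, pt_apply, lin_b, aeval_X]
  refine two_finrank_le _ ?_ _ ?_
  · ext i j
    rw [Matrix.transpose_apply, Matrix.neg_apply]
    change ξ ⁅b j, b i⁆ = - ξ ⁅b i, b j⁆
    rw [← lie_skew, map_neg]
  · rintro w ⟨δ, hδ⟩
    obtain ⟨B, hB, hXB⟩ := hcomm δ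
    set β : Fin d → K := fun l => (B * adR e K (dualE e l)).trace with hβ
    have hBs : B = ∑ l, β l • adR e K (e l) := aK_sum e K B hB
    -- sums against the coordinates of `ι (e l)`
    have hco : ∀ (f : g →ₗ[k] K) (l : Fin d),
        ∑ i, algebraMap k K (b.repr (ι (e l)) i) * f (b i) = f (ι (e l)) := by
      intro f l
      conv_rhs => rw [← b.sum_repr (ι (e l))]
      rw [map_sum]
      refine Finset.sum_congr rfl fun i _ => ?_
      rw [map_smul, Algebra.smul_def]
    refine ⟨fun i => - ∑ l, β l * algebraMap k K (b.repr (ι (e l)) i), ?_, ?_⟩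
    · funext j
      rw [hδ, hxi, hξc, hder, hXB]
      have h1 : (fun i => - ∑ l, β l * algebraMap k K (b.repr (ι (e l)) i)) ᵥ*
          (fmat b (lieB k g) x) = fun j => - ∑ l, β l * ξ ⁅ι (e l), b j⁆ := by
        funext j
        simp only [Matrix.vecMul, dotProduct]
        have h2 : ∀ i, (- ∑ l, β l * algebraMap k K (b.repr (ι (e l)) i)) *
            fmat b (lieB k g) x i j =
            - ∑ l, β l * (algebraMap k K (b.repr (ι (e l)) i) * ξ ⁅b i, b j⁆) := by
          intro i
          have : fmat b (lieB k g) x i j = ξ ⁅b i, b j⁆ := rfl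
          rw [this, neg_mul, Finset.sum_mul]
          congr 1
          refine Finset.sum_congr rfl fun l _ => ?_
          ring
        simp only [h2]
        rw [Finset.sum_neg_distrib, Finset.sum_comm]
        congr 1
        refine Finset.sum_congr rfl fun l _ => ?_
        rw [← Finset.mul_sum]
        congr 1
        exact hco (ξ ∘ₗ (lieB k g).flip (b j)) l
      refine (congrFun h1 j).trans ?_
      beta_reduce
      have h3 : ((B * X - X * B) * adR e K (π (b j))).trace =
          - (X * (B * adR e K (π (b j)) - adR e K (π (b j)) * B)).trace := by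
        set A := adR e K (π (b j))
        have c1 : (B * X * A).trace = (X * (A * B)).trace := by
          rw [Matrix.mul_assoc, Matrix.trace_mul_comm, Matrix.mul_assoc]
        rw [Matrix.sub_mul, Matrix.trace_sub, c1, Matrix.mul_sub, Matrix.trace_sub,
          Matrix.mul_assoc]
        ring
      rw [h3]
      congr 1
      have h4 : B * adR e K (π (b j)) - adR e K (π (b j)) * B =
          ∑ l, β l • adR e K ⁅e l, π (b j)⁆ := by
        rw [hBs, Finset.sum_mul, Finset.mul_sum, ← Finset.sum_sub_distrib]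
        refine Finset.sum_congr rfl fun l _ => ?_
        rw [adR_lie, Matrix.smul_mul, Matrix.mul_smul, ← smul_sub]
      rw [h4, Finset.mul_sum, Matrix.trace_sum]
      refine Finset.sum_congr rfl fun l _ => ?_
      rw [Matrix.mul_smul, Matrix.trace_smul, smul_eq_mul, hmt, lie_eq ι π hz]
    · rintro w' ⟨δ', hδ'⟩
      obtain ⟨B', hB', hXB'⟩ := hcomm δ'
      have h1 : (fun i => - ∑ l, β l * algebraMap k K (b.repr (ι (e l)) i)) ⬝ᵥ w' =
          - ∑ l, β l * δ' (ξ (ι (e l))) := by
        simp only [dotProduct]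
        have h2 : ∀ i, (- ∑ l, β l * algebraMap k K (b.repr (ι (e l)) i)) * w' i =
            - ∑ l, β l * (algebraMap k K (b.repr (ι (e l)) i) * δ' (ξ (b i))) := by
          intro i
          rw [hδ', hxi, neg_mul, Finset.sum_mul]
          congr 1
          refine Finset.sum_congr rfl fun l _ => ?_
          ring
        simp only [h2]
        rw [Finset.sum_neg_distrib, Finset.sum_comm]
        congr 1
        refine Finset.sum_congr rfl fun l _ => ?_
        rw [← Finset.mul_sum]
        congr 1
        exact hco ((δ' : K →ₗ[k] K) ∘ₗ ξ) l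
      rw [h1]
      have h3 : ∑ l, β l * δ' (ξ (ι (e l))) = (X.map δ' * B).trace := by
        conv_rhs => rw [hBs]
        rw [Finset.mul_sum, Matrix.trace_sum]
        refine Finset.sum_congr rfl fun l _ => ?_
        rw [hder, Matrix.mul_smul, Matrix.trace_smul, smul_eq_mul]
      rw [h3, hXB', neg_eq_zero]
      have h5 := hiso δ δ' B B' hB hB' hXB hXB'
      have c1 : (B' * X * B).trace = (X * (B * B')).trace := by
        rw [Matrix.mul_assoc, Matrix.trace_mul_comm, Matrix.mul_assoc]
      rw [Matrix.sub_mul, Matrix.trace_sub, c1, Matrix.mul_assoc, ← Matrix.trace_sub,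
        ← Matrix.mul_sub]
      exact h5

end

end Pool.Agent.TH28.FL
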